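import Pool.Agent.H6.Tw.VertC
import Pool.Agent.H6.IvA.CoreA

/-!
JOB TW-8. Algebraic letters over the field of complex germs.

`SF ℂ U` is a subfield of `GK U` (`Filter.Germ U ℂ`); the inclusion is a `ℂ`-algebra homomorphism (`algebraMap_gm`), so `ev G` commutes with it (`MvPolynomial.aeval` of an algebra homomorphism). Apply `germ_arc` (`Pool/Agent/H6/IvA/GermA.lean`) with `P := fun y => γ (s y)`, `W := V`,
`V := deriv γ (s y) / conj .. * conj (V y)` (hypothesis from `Step`, `hn`), `hnc`: the germ of `conj (P')` is not a constant because some `D` with `CRC` does not kill it (`CRC.con`). The resulting equations hold in `GK U`, hence in `SF ℂ U`.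
-/

set_option autoImplicit false

namespace Pool.Agent.H6.Tw

open Filter MeasureTheory Topology ComplexConjugate
open Pool.Agent.H6.Sm
open Pool.Agent.H6.IvA (ev Bounce IsoFree)

variable {U : Ultrafilter (ℝ × ℝ)}

/-- inclusion of the smooth germs in all germs -/
noncomputable def algL_inc (U : Ultrafilter (ℝ × ℝ)) : SF ℂ U →ₐ[ℂ] Pool.Agent.H6.Ivrii.GK U where
  toFun z := (z : Filter.Germ (U : Filter (ℝ × ℝ)) ℂ)
  map_one' := rfl
  map_mul' _ _ := rfl
  map_zero' := rfl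
  map_add' _ _ := rfl
  commutes' c := by
    rw [Pool.Agent.H6.Ivrii.algebraMap_gm]
    rfl

theorem algL_inc_inj : Function.Injective (algL_inc U) := fun _ _ h => Subtype.ext h

theorem algL_inc_sg (f : ℝ × ℝ → ℂ) (hf : ∀ᶠ x in (U : Filter (ℝ × ℝ)), Smo f x) :
    algL_inc U (sg U f hf) = Pool.Agent.H6.Ivrii.gm U f := rfl

theorem algL_inc_ev (G : MvPolynomial (Fin 2) ℂ) (a b : SF ℂ U) :
    algL_inc U (ev G a b) = ev G (algL_inc U a) (algL_inc U b) := by
  unfold ev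
  rw [MvPolynomial.comp_aeval_apply]
  congr 2
  funext i
  fin_cases i <;> rfl

theorem alg_letter {γ : ℝ → ℂ} (hγ : Arc γ) {F : MvPolynomial (Fin 2) ℂ} (hF : IsoFree F)
    (hon : ∀ s ∈ Set.Ioo (0 : ℝ) 1, MvPolynomial.eval ![γ s, conj (γ s)] F = 0)
    {s : ℝ × ℝ → ℝ} {P V : ℝ × ℝ → ℂ}
    (hP : ∀ᶠ x in (U : Filter (ℝ × ℝ)), Smo P x) (hV : ∀ᶠ x in (U : Filter (ℝ × ℝ)), Smo V x)
    (hn : ∀ᶠ x in (U : Filter (ℝ × ℝ)), ∀ᶠ y in 𝓝 x, ‖V y‖ = 1)
    (hs : ∀ᶠ x in (U : Filter (ℝ × ℝ)), Step γ s P V x)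
    (hP' : ∀ᶠ x in (U : Filter (ℝ × ℝ)), Smo (fun y => γ (s y)) x)
    (hV' : ∀ᶠ x in (U : Filter (ℝ × ℝ)),
      Smo (fun y => deriv γ (s y) / conj (deriv γ (s y)) * conj (V y)) x)
    (hnc : ∃ D, CRC U D ∧ D (cb U _ hP') ≠ 0) :
    ∃ G : MvPolynomial (Fin 2) ℂ, Irreducible G ∧ IsoFree G ∧
      ev G (sg U _ hP') (cb U _ hP') = 0 ∧
      sg U V hV * sg U _ hV' * ev (MvPolynomial.pderiv 0 G) (sg U _ hP') (cb U _ hP') =
        -ev (MvPolynomial.pderiv 1 G) (sg U _ hP') (cb U _ hP') := by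
  obtain ⟨D, hD, hD0⟩ := hnc
  have key := Pool.Agent.H6.IvA.germ_arc U γ (hγ.1.differentiable (by simp)) hγ.2 F hF hon
    (fun y => γ (s y)) V (fun y => deriv γ (s y) / conj (deriv γ (s y)) * conj (V y))
    (by
      filter_upwards [hn, hs] with x h1 h2
      exact ⟨h1.self_of_nhds, s x, h2.mem, rfl, rfl⟩)
    (by
      intro c hc
      apply hD0
      have h1 : cb U (fun y => γ (s y)) hP' = algebraMap ℂ (SF ℂ U) c := by
        apply algL_inc_inj
        rw [AlgHom.commutes]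
        exact hc
      rw [h1]
      exact hD.con c)
  obtain ⟨G, hG, hiso, hev, hr⟩ := key
  refine ⟨G, hG, hiso, ?_, ?_⟩
  · apply algL_inc_inj
    rw [algL_inc_ev, map_zero]
    exact hev
  · apply algL_inc_inj
    rw [map_mul, map_mul, map_neg, algL_inc_ev, algL_inc_ev]
    exact hr

end Pool.Agent.H6.Tw
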