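import Mathlib

/-!
JOB TW-3. A common extension of `K` and of the field of Laurent series.

`κ = AlgebraicClosure k`, `L` a fraction field of `κ⟦X⟧`, `F = FractionRing (Polynomial k)` (or `RatFunc k`). `k[X] → K`, `X ↦ v` is injective (`hv`), `k[X] → L`, `X ↦ (algebraMap X)⁻¹` is injective: `X⁻¹` is transcendental over `κ`
(a polynomial relation for `X⁻¹` gives one for `X`, and polynomials embed in power series: see `hens_transc` in `Pool/Agent/H6/Ivrii/Hens.lean`), so both extend to `F` (`IsFractionRing.lift`/`IsLocalization.lift`).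
`K ⊗[F] L` is nontrivial (fields; `Module.FaithfullyFlat` or `Algebra.TensorProduct` nontriviality, free modules), take a maximal ideal `m` and `Ω = (K ⊗[F] L) ⧸ m`; `φ`, `ψ` the two maps. They agree on `F`, in particular on `k` and on `v`, `X⁻¹`.
`Algebra ℂ Ω`: not needed, everything is stated with ring homomorphisms.
-/

set_option autoImplicit false

namespace Pool.Agent.H6.Tw

open TensorProduct in
/-- two extensions of a field have a common extension (as ring homomorphisms). -/
theorem twc_common (F K L : Type) [Field F] [Field K] [Field L] (f : F →+* K) (g : F →+* L) :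
    ∃ (Ω : Type) (_ : Field Ω) (φ : K →+* Ω) (ψ : L →+* Ω), ∀ x : F, φ (f x) = ψ (g x) := by
  let _ : Algebra F K := f.toAlgebra
  let _ : Algebra F L := g.toAlgebra
  have hinj : Function.Injective (Algebra.TensorProduct.includeLeft : K →ₐ[F] K ⊗[F] L) :=
    Algebra.TensorProduct.includeLeft_injective (algebraMap F L).injective
  have : Nontrivial (K ⊗[F] L) := hinj.nontrivial
  obtain ⟨m, hm⟩ := Ideal.exists_maximal (K ⊗[F] L)
  refine ⟨(K ⊗[F] L) ⧸ m, Ideal.Quotient.field m,
    (Ideal.Quotient.mk m).comp (Algebra.TensorProduct.includeLeft : K →ₐ[F] K ⊗[F] L).toRingHom,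
    (Ideal.Quotient.mk m).comp (Algebra.TensorProduct.includeRight : L →ₐ[F] K ⊗[F] L).toRingHom,
    fun x => ?_⟩
  change Ideal.Quotient.mk m ((f x) ⊗ₜ[F] (1 : L)) = Ideal.Quotient.mk m ((1 : K) ⊗ₜ[F] (g x))
  congr 1
  have h1 : f x = x • (1 : K) := by rw [← Algebra.algebraMap_eq_smul_one]; rfl
  have h2 : g x = x • (1 : L) := by rw [← Algebra.algebraMap_eq_smul_one]; rfl
  rw [h1, h2, TensorProduct.smul_tmul]

theorem twc_eval {k κ L : Type} [Field k] [Field κ] (a : k →+* κ) [Field L]
    [Algebra (PowerSeries κ) L] (Q : Polynomial k) :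
    Polynomial.eval₂ ((algebraMap (PowerSeries κ) L).comp ((PowerSeries.C (R := κ)).comp a))
      (algebraMap (PowerSeries κ) L PowerSeries.X) Q =
      algebraMap (PowerSeries κ) L ((Q.map a : Polynomial κ) : PowerSeries κ) := by
  have h : Polynomial.eval₂RingHom
      ((algebraMap (PowerSeries κ) L).comp ((PowerSeries.C (R := κ)).comp a))
      (algebraMap (PowerSeries κ) L PowerSeries.X) =
      ((algebraMap (PowerSeries κ) L).comp (Polynomial.coeToPowerSeries.ringHom (R := κ))).comp
        (Polynomial.mapRingHom a) := by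
    apply Polynomial.ringHom_ext
    · intro c
      simp
    · simp
  exact RingHom.congr_fun h Q

theorem twc_inj {k κ L : Type} [Field k] [Field κ] (a : k →+* κ) [Field L]
    [Algebra (PowerSeries κ) L] [IsFractionRing (PowerSeries κ) L] :
    Function.Injective (Polynomial.eval₂RingHom
      ((algebraMap (PowerSeries κ) L).comp ((PowerSeries.C (R := κ)).comp a))
      ((algebraMap (PowerSeries κ) L PowerSeries.X)⁻¹)) := by
  rw [injective_iff_map_eq_zero]
  intro P hP
  have hX : algebraMap (PowerSeries κ) L PowerSeries.X ≠ 0 := by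
    intro h
    rw [← map_zero (algebraMap (PowerSeries κ) L)] at h
    exact PowerSeries.X_ne_zero (IsFractionRing.injective (PowerSeries κ) L h)
  have hP' : Polynomial.eval₂
      ((algebraMap (PowerSeries κ) L).comp ((PowerSeries.C (R := κ)).comp a))
      ((algebraMap (PowerSeries κ) L PowerSeries.X)⁻¹) P = 0 := hP
  let _ : Invertible ((algebraMap (PowerSeries κ) L PowerSeries.X)⁻¹) :=
    invertibleOfNonzero (inv_ne_zero hX)
  rw [← Polynomial.eval₂_reverse_eq_zero_iff] at hP'
  have hinv : ⅟((algebraMap (PowerSeries κ) L PowerSeries.X)⁻¹) =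
      algebraMap (PowerSeries κ) L PowerSeries.X := by
    rw [invOf_eq_inv, inv_inv]
  rw [hinv, twc_eval, ← map_zero (algebraMap (PowerSeries κ) L)] at hP'
  have h2 := IsFractionRing.injective (PowerSeries κ) L hP'
  have h3 : (P.reverse).map a = 0 := by
    rw [← Polynomial.coe_zero] at h2
    exact Polynomial.coe_injective κ h2
  rw [Polynomial.map_eq_zero, Polynomial.reverse_eq_zero] at h3
  exact h3

theorem exists_comp {K : Type} [Field K] [Algebra ℂ K] (k : IntermediateField ℂ K) {v : K}
    (hv : Transcendental k v) (L : Type) [Field L] [Algebra (PowerSeries (AlgebraicClosure k)) L]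
    [IsFractionRing (PowerSeries (AlgebraicClosure k)) L] :
    ∃ (Ω : Type) (_ : Field Ω) (φ : K →+* Ω) (ψ : L →+* Ω),
      (∀ c : k, φ (c : K) = ψ (algebraMap (PowerSeries (AlgebraicClosure k)) L
        (PowerSeries.C (algebraMap k (AlgebraicClosure k) c)))) ∧
      φ v = (ψ (algebraMap (PowerSeries (AlgebraicClosure k)) L PowerSeries.X))⁻¹ := by
  have h1 : Function.Injective (Polynomial.aeval v : Polynomial k →ₐ[k] K).toRingHom :=
    transcendental_iff_injective.mp hv
  have h2 := twc_inj (L := L) (algebraMap k (AlgebraicClosure k))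
  obtain ⟨Ω, hΩ, φ, ψ, h⟩ := twc_common (FractionRing (Polynomial k)) K L
    (IsFractionRing.lift h1) (IsFractionRing.lift h2)
  have hP : ∀ P : Polynomial k, φ (Polynomial.aeval v P) = ψ (Polynomial.eval₂RingHom
      ((algebraMap (PowerSeries (AlgebraicClosure k)) L).comp
        ((PowerSeries.C (R := AlgebraicClosure k)).comp (algebraMap k (AlgebraicClosure k))))
      ((algebraMap (PowerSeries (AlgebraicClosure k)) L PowerSeries.X)⁻¹) P) := by
    intro P
    have := h (algebraMap _ _ P)
    rw [IsFractionRing.lift_algebraMap, IsFractionRing.lift_algebraMap] at this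
    exact this
  refine ⟨Ω, hΩ, φ, ψ, fun c => ?_, ?_⟩
  · have := hP (Polynomial.C c)
    rw [Polynomial.aeval_C, Polynomial.coe_eval₂RingHom, Polynomial.eval₂_C] at this
    exact this
  · have := hP Polynomial.X
    rw [Polynomial.aeval_X, Polynomial.coe_eval₂RingHom, Polynomial.eval₂_X, map_inv₀] at this
    exact this

end Pool.Agent.H6.Tw
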