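import Mathlib

/-!
JOB TW-2. Constants of a derivation.

`cst D`: the intermediate field of the elements killed by `D` (it contains `ℂ` by `hD`; closed under inverses: differentiate `x * x⁻¹ = 1`). `transc_of_der`: if `v` is algebraic over `cst D`, let `p` be its minimal polynomial; `0 = D (p(v)) = p'(v) D v`
(the coefficients are constants) and `p'(v) ≠ 0` (separable, characteristic `0`), so `D v = 0`. `transc_C`: the same with `ℂ` in place of `cst D` (or restrict scalars: algebraic over `ℂ` implies algebraic over `cst D`).
-/

set_option autoImplicit false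

namespace Pool.Agent.H6.Tw

variable {K : Type} [Field K] [Algebra ℂ K]

/-- constants of a derivation -/
def cst (D : Derivation ℤ K K) (hD : ∀ c : ℂ, D (algebraMap ℂ K c) = 0) :
    IntermediateField ℂ K where
  carrier := {x | D x = 0}
  mul_mem' := by
    intro a b ha hb
    simp only [Set.mem_ofPred_eq] at ha hb ⊢
    rw [Derivation.leibniz, ha, hb, smul_zero, smul_zero, add_zero]
  add_mem' := by
    intro a b ha hb
    simp only [Set.mem_ofPred_eq] at ha hb ⊢
    rw [map_add, ha, hb, add_zero]
  algebraMap_mem' := hD
  inv_mem' := by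
    intro a ha
    simp only [Set.mem_ofPred_eq] at ha ⊢
    by_cases h : a = 0
    · rw [h, inv_zero, map_zero]
    · have h1 : D (a * a⁻¹) = 0 := by rw [mul_inv_cancel₀ h, Derivation.map_one_eq_zero]
      rw [Derivation.leibniz, ha, smul_zero, add_zero, smul_eq_mul] at h1
      exact (mul_eq_zero.1 h1).resolve_left h

theorem mem_cst {D : Derivation ℤ K K} {hD : ∀ c : ℂ, D (algebraMap ℂ K c) = 0} {x : K} :
    x ∈ cst D hD ↔ D x = 0 := Iff.rfl

theorem transc_of_der {D : Derivation ℤ K K} (hD : ∀ c : ℂ, D (algebraMap ℂ K c) = 0) {v : K}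
    (hv : D v ≠ 0) : Transcendental (cst D hD) v := by
  intro halg
  let D' : Derivation (cst D hD) K K :=
    { toFun := D
      map_add' := fun x y => map_add D x y
      map_smul' := fun c x => by
        have hc : D (c : K) = 0 := c.2
        rw [IntermediateField.smul_def, smul_eq_mul, Derivation.leibniz, hc, smul_zero, add_zero,
          smul_eq_mul]
        rfl
      map_one_eq_zero' := D.map_one_eq_zero
      leibniz' := fun x y => D.leibniz x y }
  have hD' : ∀ x, D' x = D x := fun _ => rfl
  have hint : IsIntegral (cst D hD) v := halg.isIntegral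
  have h0 : Polynomial.aeval v (minpoly (cst D hD) v) = 0 := minpoly.aeval _ _
  have hne : Polynomial.aeval v (Polynomial.derivative (minpoly (cst D hD) v)) ≠ 0 :=
    (minpoly.irreducible hint).separable.aeval_derivative_ne_zero h0
  have h1 := Derivation.map_aeval D' (minpoly (cst D hD) v) v
  rw [h0, map_zero, hD', smul_eq_mul] at h1
  exact (mul_ne_zero hne hv) h1.symm

theorem transc_C {D : Derivation ℤ K K} (hD : ∀ c : ℂ, D (algebraMap ℂ K c) = 0) {v : K}
    (hv : D v ≠ 0) : Transcendental ℂ v := by
  intro halg
  exact transc_of_der hD hv (halg.tower_top (cst D hD))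

end Pool.Agent.H6.Tw
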