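import Pool.Agent.H6.Tw.Final
import Pool.Agent.H6.Tw.ConstF
import Pool.Agent.H6.Tw.Comp

/-!
The two chains and the common setting.
-/

set_option autoImplicit false

namespace Pool.Agent.H6.Tw

theorem core_chain {κ : Type} [Field κ] [CharZero κ] {L : Type} [Field L]
    [Algebra (PowerSeries κ) L] [IsFractionRing (PowerSeries κ) L] {Ω : Type} [Field Ω]
    {K : Type} [Field K] [Algebra ℂ K] {Adm : Derivation ℤ K K → Prop}
    {n : ℕ} {ξ η v f : ℕ → K} (h : Fam Adm n ξ η v f) {j : ℕ} (hj0 : 0 < j) (hjn : j < n)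
    (φ : K →+* Ω) (ψ : L →+* Ω)
    (hT : ∃ c : κ, φ (∑ k ∈ Finset.range n, f k) =
      ψ (algebraMap (PowerSeries κ) L (PowerSeries.C c)))
    (FW BW : Ω × Ω × Ω → Prop) (hFP : ∀ s, FW s → Par κ ψ s) (hBP : ∀ s, BW s → Par κ ψ s)
    (hF0 : FW (φ (ξ 0), φ (η 0), φ (v 0)))
    (hB0 : BW (φ (ξ n), φ (η n), φ (-v (n - 1))))
    (hFs : ∀ k, k + 1 < j → FW (φ (ξ k), φ (η k), φ (v k)) →
      FW (φ (ξ (k + 1)), φ (η (k + 1)), φ (v (k + 1))) ∧ OddE κ ψ (φ (f k)))
    (hBs : ∀ k, j < k → k < n → BW (φ (ξ (k + 1)), φ (η (k + 1)), φ (-v k)) →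
      BW (φ (ξ k), φ (η k), φ (-v (k - 1))) ∧ OddE κ ψ (φ (f k))) : False := by
  have hF : ∀ k, k < j → FW (φ (ξ k), φ (η k), φ (v k)) := by
    intro k
    induction k with
    | zero => intro _; exact hF0
    | succ k ih => intro hk; exact (hFs k hk (ih (by omega))).1
  have hB : ∀ m, m < n - j → BW (φ (ξ (n - m)), φ (η (n - m)), φ (-v (n - m - 1))) := by
    intro m
    induction m with
    | zero => intro _; exact hB0
    | succ m ih =>
      intro hm
      have h1 := ih (by omega)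
      have h2 := (hBs (n - m - 1) (by omega) (by omega) (by
        rw [Nat.sub_add_cancel (by omega)]; exact h1)).1
      exact h2
  have hB' : ∀ k, j ≤ k → k < n → BW (φ (ξ (k + 1)), φ (η (k + 1)), φ (-v k)) := by
    intro k hk hkn
    have h1 := hB (n - (k + 1)) (by omega)
    rw [show n - (n - (k + 1)) = k + 1 by omega, Nat.add_sub_cancel] at h1
    exact h1
  refine final_parity h hj0 hjn φ ψ hT (fun k hk => hFP _ (hF k hk)) (fun k hk => ?_)
    (fun k hk hkn => hBP _ (hB' k hk hkn)) (fun k hk hkn => ?_)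
  · exact (hFs k hk (hF k (by omega))).2
  · exact (hBs k hk hkn (hB' k hk.le hkn)).2

/-- the common setting of a family, with the chains started at the vertex `0` -/
theorem setup {K : Type} [Field K] [Algebra ℂ K] {Adm : Derivation ℤ K K → Prop}
    {n : ℕ} {ξ η v f : ℕ → K} (h : Fam Adm n ξ η v f) :
    ∃ (κ : Type) (_ : Field κ) (_ : Algebra ℂ κ) (_ : IsAlgClosed κ) (L : Type) (_ : Field L)
      (_ : Algebra (PowerSeries κ) L) (_ : IsFractionRing (PowerSeries κ) L)
      (Ω : Type) (_ : Field Ω) (_ : Algebra ℂ Ω) (φ : K →ₐ[ℂ] Ω) (ψ : L →+* Ω) (x y u t : κ),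
      (∀ c : ℂ, ψ (algebraMap (PowerSeries κ) L (PowerSeries.C (algebraMap ℂ κ c))) =
        algebraMap ℂ Ω c) ∧
      Transcendental ℂ x ∧ Transcendental ℂ y ∧ u ≠ 0 ∧
      φ (ξ 0) = ψ (algebraMap (PowerSeries κ) L (PowerSeries.C x)) ∧
      φ (η 0) = ψ (algebraMap (PowerSeries κ) L (PowerSeries.C y)) ∧
      φ (v 0) = (ψ (algebraMap (PowerSeries κ) L PowerSeries.X))⁻¹ ∧
      φ (v (n - 1)) = ψ (algebraMap (PowerSeries κ) L (PowerSeries.C u)) *
        ψ (algebraMap (PowerSeries κ) L PowerSeries.X) ∧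
      φ (∑ k ∈ Finset.range n, f k) = ψ (algebraMap (PowerSeries κ) L (PowerSeries.C t)) := by
  have hn := h.n0
  obtain ⟨δ, hδ, h1, h2, h3⟩ := h.fix 0
  have hδC : ∀ c : ℂ, δ (algebraMap ℂ K c) = 0 := h.con δ hδ
  set k := cst δ hδC with hk
  have hv0 : Transcendental k (v 0) := transc_of_der hδC (by rw [h3]; exact h.v0 0)
  obtain ⟨Ω, _, φ, ψ, h4, h5⟩ := exists_comp k hv0 (FractionRing (PowerSeries (AlgebraicClosure k)))
  have hn0 : n - 1 + 1 = n := by omega
  have hvn : v n = v 0 := by have := h.pv 0; rwa [zero_add] at this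
  have hηn : η n = η 0 := by have := h.pη 0; rwa [zero_add] at this
  have hξn : ξ n = ξ 0 := by have := h.pξ 0; rwa [zero_add] at this
  -- the directions at the vertex 0
  have hu : δ (v (n - 1) * v 0) = 0 := by
    obtain ⟨c, hc⟩ := h.cur (n - 1)
    have := hc δ hδ
    rw [hn0, hvn, hηn, h2, mul_zero] at this
    exact this
  have hT : δ (∑ k ∈ Finset.range n, f k) = 0 := h.total hδ
  -- transcendence over `ℂ`
  have hy : Transcendental ℂ (η 0) := by
    obtain ⟨D, hD, hD0⟩ := h.move 0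
    exact transc_C (h.con D hD) hD0
  have hx : Transcendental ℂ (ξ 0) := by
    obtain ⟨D, hD, hD0⟩ := h.move 0
    refine transc_C (h.con D hD) ?_
    have := h.tan (n - 1) D hD
    rw [hn0, hξn, hvn, hηn] at this
    rw [this]
    exact mul_ne_zero (mul_ne_zero (h.v0 _) (h.v0 _)) hD0
  let x : k := ⟨ξ 0, h1⟩
  let y : k := ⟨η 0, h2⟩
  let u : k := ⟨v (n - 1) * v 0, hu⟩
  let t : k := ⟨∑ k ∈ Finset.range n, f k, hT⟩
  have hx' : Transcendental ℂ x := by
    intro hx0
    exact hx (hx0.algebraMap (A := K))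
  have hy' : Transcendental ℂ y := by
    intro hy0
    exact hy (hy0.algebraMap (A := K))
  have hinj : Function.Injective (algebraMap k (AlgebraicClosure k)) :=
    (algebraMap k (AlgebraicClosure k)).injective
  have tr : ∀ z : k, Transcendental ℂ z →
      Transcendental ℂ (algebraMap k (AlgebraicClosure k) z) := by
    intro z hz h0
    exact hz ((isAlgebraic_algebraMap_iff hinj).1 h0)
  let iA : Algebra ℂ Ω := (φ.comp (algebraMap ℂ K)).toAlgebra
  refine ⟨AlgebraicClosure k, inferInstance, inferInstance, inferInstance,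
    FractionRing (PowerSeries (AlgebraicClosure k)), inferInstance, inferInstance, inferInstance,
    Ω, inferInstance, iA, { φ with commutes' := fun _ => rfl }, ψ,
    algebraMap k _ x, algebraMap k _ y, algebraMap k _ u, algebraMap k _ t, ?_, tr x hx', tr y hy', ?_,
    h4 x, h4 y, h5, ?_, h4 t⟩
  · intro c
    have := h4 (algebraMap ℂ k c)
    rw [← IsScalarTower.algebraMap_apply ℂ k (AlgebraicClosure k)] at this
    rw [← this]
    rfl
  · rw [map_ne_zero_iff _ hinj]
    intro h0
    have : v (n - 1) * v 0 = 0 := congrArg Subtype.val h0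
    exact mul_ne_zero (h.v0 _) (h.v0 _) this
  · have h6 := h4 u
    have h7 : φ (v (n - 1)) * φ (v 0) =
        ψ (algebraMap (PowerSeries (AlgebraicClosure k)) (FractionRing (PowerSeries (AlgebraicClosure k)))
          (PowerSeries.C (algebraMap k (AlgebraicClosure k) u))) := by
      rw [← map_mul]; exact h6
    have h8 : φ (v 0) ≠ 0 := by rw [map_ne_zero]; exact h.v0 0
    have h9 : ψ (algebraMap (PowerSeries (AlgebraicClosure k))
        (FractionRing (PowerSeries (AlgebraicClosure k))) PowerSeries.X) ≠ 0 := by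
      intro h0
      rw [h0, inv_zero] at h5
      exact h8 h5
    change φ (v (n - 1)) = _
    rw [← h7, h5, mul_assoc, inv_mul_cancel₀ h9, mul_one]

end Pool.Agent.H6.Tw
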