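import Pool.Agent.H6.Tw.VertC

/-!
JOB TW-12. Circular and straight letters over the field of complex germs.

At `U`-almost every `x`: `s x ∈ (0, 1)` (`Step.mem`), `‖V x‖ = 1`, so `V x * (deriv γ (s x) / conj (deriv γ (s x)) * conj (V x)) = deriv γ (s x) / conj (deriv γ (s x))` (`V * conj V = 1`), and the identities `hon` can be differentiated
at `s x` (they hold on a neighbourhood; derivative of `conj (γ s)` is `conj (γ' s)`):
circle: `γ' conj (γ - c) + (γ - c) conj γ' = 0`, so `γ' / conj γ' * conj (γ - c) = - (γ - c)`; line: `a γ' + b conj γ' = 0`, so `a (γ' / conj γ') = - b`. All equalities of germs are pointwise (`sg_eq`, `sg_mul`, `sg_sub`, `algebraMap_SF`, most of them `rfl` up to `sg_eq`).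
`flat_hon`: `a x + b y = c` is `A ξ + B η = c` with `A = (a - i b) / 2`, `B = (a + i b) / 2`.
-/

set_option autoImplicit false

namespace Pool.Agent.H6.Tw

open Filter MeasureTheory Topology ComplexConjugate
open Pool.Agent.H6.Sm

variable {U : Ultrafilter (ℝ × ℝ)}

theorem cirL_unit {V : ℝ × ℝ → ℂ} {x : ℝ × ℝ} (h : ∀ᶠ y in 𝓝 x, ‖V y‖ = 1) :
    V x * conj (V x) = 1 := by
  rw [Complex.mul_conj, Complex.normSq_eq_norm_sq, h.self_of_nhds]
  norm_num

theorem cirL_deriv {γ : ℝ → ℂ} (hγ : Arc γ) (t : ℝ) : HasDerivAt γ (deriv γ t) t :=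
  ((hγ.1.differentiable (by simp)) t).hasDerivAt

theorem cirL_circ {γ : ℝ → ℂ} (hγ : Arc γ) {c r : ℂ}
    (hon : ∀ s ∈ Set.Ioo (0 : ℝ) 1, (γ s - c) * (conj (γ s) - conj c) = r ^ 2)
    {t : ℝ} (ht : t ∈ Set.Ioo (0 : ℝ) 1) :
    deriv γ t / conj (deriv γ t) * (conj (γ t) - conj c) = -(γ t - c) := by
  have h0 := cirL_deriv hγ t
  have h0' : HasDerivAt (fun y => conj (γ y)) (conj (deriv γ t)) t := h0.star
  have h1 : HasDerivAt (fun y => (γ y - c) * (conj (γ y) - conj c))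
      (deriv γ t * (conj (γ t) - conj c) + (γ t - c) * conj (deriv γ t)) t :=
    (h0.sub_const c).mul (h0'.sub_const (conj c))
  have h2 : (fun y => (γ y - c) * (conj (γ y) - conj c)) =ᶠ[𝓝 t] fun _ => r ^ 2 := by
    filter_upwards [Ioo_mem_nhds ht.1 ht.2] with y hy using hon y hy
  have h3 : HasDerivAt (fun y => (γ y - c) * (conj (γ y) - conj c)) 0 t :=
    (hasDerivAt_const t (r ^ 2)).congr_of_eventuallyEq h2
  have h4 := h1.unique h3
  have h5 : conj (deriv γ t) ≠ 0 := by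
    rw [Ne, map_eq_zero]
    exact hγ.2 t ht
  rw [div_mul_eq_mul_div, div_eq_iff h5]
  linear_combination h4

theorem cirL_line {γ : ℝ → ℂ} (hγ : Arc γ) {a b h : ℂ}
    (hon : ∀ s ∈ Set.Ioo (0 : ℝ) 1, a * γ s + b * conj (γ s) = h)
    {t : ℝ} (ht : t ∈ Set.Ioo (0 : ℝ) 1) :
    a * (deriv γ t / conj (deriv γ t)) = -b := by
  have h0 := cirL_deriv hγ t
  have h0' : HasDerivAt (fun y => conj (γ y)) (conj (deriv γ t)) t := h0.star
  have h1 : HasDerivAt (fun y => a * γ y + b * conj (γ y))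
      (a * deriv γ t + b * conj (deriv γ t)) t :=
    (h0.const_mul a).add (h0'.const_mul b)
  have h2 : (fun y => a * γ y + b * conj (γ y)) =ᶠ[𝓝 t] fun _ => h := by
    filter_upwards [Ioo_mem_nhds ht.1 ht.2] with y hy using hon y hy
  have h3 : HasDerivAt (fun y => a * γ y + b * conj (γ y)) 0 t :=
    (hasDerivAt_const t h).congr_of_eventuallyEq h2
  have h4 := h1.unique h3
  have h5 : conj (deriv γ t) ≠ 0 := by
    rw [Ne, map_eq_zero]
    exact hγ.2 t ht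
  rw [← mul_div_assoc, div_eq_iff h5]
  linear_combination h4

theorem circ_letter {γ : ℝ → ℂ} (hγ : Arc γ) {c r : ℂ}
    (hon : ∀ s ∈ Set.Ioo (0 : ℝ) 1, (γ s - c) * (conj (γ s) - conj c) = r ^ 2)
    {s : ℝ × ℝ → ℝ} {P V : ℝ × ℝ → ℂ} (hV : ∀ᶠ x in (U : Filter (ℝ × ℝ)), Smo V x)
    (hn : ∀ᶠ x in (U : Filter (ℝ × ℝ)), ∀ᶠ y in 𝓝 x, ‖V y‖ = 1)
    (hs : ∀ᶠ x in (U : Filter (ℝ × ℝ)), Step γ s P V x)
    (hP' : ∀ᶠ x in (U : Filter (ℝ × ℝ)), Smo (fun y => γ (s y)) x)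
    (hV' : ∀ᶠ x in (U : Filter (ℝ × ℝ)),
      Smo (fun y => deriv γ (s y) / conj (deriv γ (s y)) * conj (V y)) x) :
    (sg U _ hP' - algebraMap ℂ (SF ℂ U) c) * (cb U _ hP' - algebraMap ℂ (SF ℂ U) (conj c)) =
      algebraMap ℂ (SF ℂ U) r ^ 2 ∧
    sg U V hV * sg U _ hV' * (cb U _ hP' - algebraMap ℂ (SF ℂ U) (conj c)) =
      -(sg U _ hP' - algebraMap ℂ (SF ℂ U) c) := by
  have h1 : ∀ᶠ x in (U : Filter (ℝ × ℝ)),
      Smo (fun y => (γ (s y) - c) * (conj (γ (s y)) - conj c)) x := by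
    filter_upwards [hP'] with x hx
    exact (hx.sub (Smo.const c x)).mul (hx.conj.sub (Smo.const (conj c) x))
  have h2 : ∀ᶠ x in (U : Filter (ℝ × ℝ)),
      Smo (fun y => V y * (deriv γ (s y) / conj (deriv γ (s y)) * conj (V y)) *
        (conj (γ (s y)) - conj c)) x := by
    filter_upwards [hV, hV', hP'] with x hx hx' hx''
    exact (hx.mul hx').mul (hx''.conj.sub (Smo.const (conj c) x))
  have h3 : ∀ᶠ x in (U : Filter (ℝ × ℝ)), Smo (fun y => -(γ (s y) - c)) x := by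
    filter_upwards [hP'] with x hx
    exact (hx.sub (Smo.const c x)).neg
  constructor
  · have e1 : (sg U _ hP' - algebraMap ℂ (SF ℂ U) c) *
        (cb U _ hP' - algebraMap ℂ (SF ℂ U) (conj c)) = sg U _ h1 := rfl
    have e2 : algebraMap ℂ (SF ℂ U) r ^ 2 =
        sg U (fun _ => r ^ 2) (Eventually.of_forall fun x => Smo.const (r ^ 2) x) := by
      rw [← map_pow]
      rfl
    rw [e1, e2, sg_eq]
    filter_upwards [hs] with x hx
    exact hon _ hx.mem
  · have e1 : sg U V hV * sg U _ hV' * (cb U _ hP' - algebraMap ℂ (SF ℂ U) (conj c)) =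
        sg U _ h2 := rfl
    have e2 : -(sg U _ hP' - algebraMap ℂ (SF ℂ U) c) = sg U _ h3 := rfl
    rw [e1, e2, sg_eq]
    filter_upwards [hs, hn] with x hx hx'
    have h4 := cirL_unit hx'
    have h5 := cirL_circ hγ hon hx.mem
    rw [← h5]
    linear_combination (deriv γ (s x) / conj (deriv γ (s x)) * (conj (γ (s x)) - conj c)) * h4

theorem line_letter {γ : ℝ → ℂ} (hγ : Arc γ) {a b h : ℂ}
    (hon : ∀ s ∈ Set.Ioo (0 : ℝ) 1, a * γ s + b * conj (γ s) = h)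
    {s : ℝ × ℝ → ℝ} {P V : ℝ × ℝ → ℂ} (hV : ∀ᶠ x in (U : Filter (ℝ × ℝ)), Smo V x)
    (hn : ∀ᶠ x in (U : Filter (ℝ × ℝ)), ∀ᶠ y in 𝓝 x, ‖V y‖ = 1)
    (hs : ∀ᶠ x in (U : Filter (ℝ × ℝ)), Step γ s P V x)
    (hP' : ∀ᶠ x in (U : Filter (ℝ × ℝ)), Smo (fun y => γ (s y)) x)
    (hV' : ∀ᶠ x in (U : Filter (ℝ × ℝ)),
      Smo (fun y => deriv γ (s y) / conj (deriv γ (s y)) * conj (V y)) x) :
    algebraMap ℂ (SF ℂ U) a * sg U _ hP' + algebraMap ℂ (SF ℂ U) b * cb U _ hP' =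
      algebraMap ℂ (SF ℂ U) h ∧
    algebraMap ℂ (SF ℂ U) a * (sg U V hV * sg U _ hV') = -algebraMap ℂ (SF ℂ U) b := by
  have h1 : ∀ᶠ x in (U : Filter (ℝ × ℝ)),
      Smo (fun y => a * γ (s y) + b * conj (γ (s y))) x := by
    filter_upwards [hP'] with x hx
    exact ((Smo.const a x).mul hx).add ((Smo.const b x).mul hx.conj)
  have h2 : ∀ᶠ x in (U : Filter (ℝ × ℝ)),
      Smo (fun y => a * (V y * (deriv γ (s y) / conj (deriv γ (s y)) * conj (V y)))) x := by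
    filter_upwards [hV, hV'] with x hx hx'
    exact (Smo.const a x).mul (hx.mul hx')
  have h3 : ∀ᶠ x in (U : Filter (ℝ × ℝ)), Smo (fun _ => -b) x :=
    Eventually.of_forall fun x => Smo.const (-b) x
  constructor
  · have e1 : algebraMap ℂ (SF ℂ U) a * sg U _ hP' + algebraMap ℂ (SF ℂ U) b * cb U _ hP' =
        sg U _ h1 := rfl
    rw [e1, algebraMap_SF, sg_eq]
    filter_upwards [hs] with x hx
    exact hon _ hx.mem
  · have e1 : algebraMap ℂ (SF ℂ U) a * (sg U V hV * sg U _ hV') = sg U _ h2 := rfl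
    have e2 : -algebraMap ℂ (SF ℂ U) b = sg U _ h3 := rfl
    rw [e1, e2, sg_eq]
    filter_upwards [hs, hn] with x hx hx'
    have h4 := cirL_unit hx'
    have h5 := cirL_line hγ hon hx.mem
    rw [← h5]
    linear_combination (a * (deriv γ (s x) / conj (deriv γ (s x)))) * h4

theorem flat_hon {γ : ℝ → ℂ} {a b c : ℝ} (hab : (a, b) ≠ (0, 0))
    (h : ∀ s ∈ Set.Ioo (0 : ℝ) 1, a * (γ s).re + b * (γ s).im = c) :
    ∃ A B h : ℂ, A ≠ 0 ∧ B ≠ 0 ∧ ∀ s ∈ Set.Ioo (0 : ℝ) 1, A * γ s + B * conj (γ s) = h := by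
  have hI : Complex.I * Complex.I = -1 := Complex.I_mul_I
  refine ⟨((a : ℂ) - b * Complex.I) / 2, ((a : ℂ) + b * Complex.I) / 2, c, ?_, ?_, ?_⟩
  · intro h0
    apply hab
    have h1 : (a : ℂ) - b * Complex.I = 0 := by
      have := (div_eq_zero_iff.1 h0).resolve_right (by norm_num)
      exact this
    have h2 := congrArg Complex.re h1
    have h3 := congrArg Complex.im h1
    simp at h2 h3
    rw [h2, h3]
  · intro h0
    apply hab
    have h1 : (a : ℂ) + b * Complex.I = 0 := by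
      have := (div_eq_zero_iff.1 h0).resolve_right (by norm_num)
      exact this
    have h2 := congrArg Complex.re h1
    have h3 := congrArg Complex.im h1
    simp at h2 h3
    rw [h2, h3]
  · intro s hs
    have h1 := h s hs
    apply Complex.ext
    · simp
      linarith
    · simp
      ring

theorem circ_hon {γ : ℝ → ℂ} {a b r : ℝ} (hr : 0 < r)
    (h : ∀ s ∈ Set.Ioo (0 : ℝ) 1, ((γ s).re - a) ^ 2 + ((γ s).im - b) ^ 2 = r ^ 2) :
    ∃ c R : ℂ, R ≠ 0 ∧ ∀ s ∈ Set.Ioo (0 : ℝ) 1, (γ s - c) * (conj (γ s) - conj c) = R ^ 2 := by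
  refine ⟨(a : ℂ) + b * Complex.I, r, ?_, ?_⟩
  · exact_mod_cast hr.ne'
  · intro s hs
    have h1 := h s hs
    rw [← map_sub, Complex.mul_conj, Complex.normSq_apply]
    have h2 : (γ s - (a + b * Complex.I)).re = (γ s).re - a := by simp
    have h3 : (γ s - (a + b * Complex.I)).im = (γ s).im - b := by simp
    rw [h2, h3, ← Complex.ofReal_pow, ← h1]
    congr 1
    ring

end Pool.Agent.H6.Tw
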