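import Pool.Agent.H6.Tw.Defs

/-!
JOB TW-10. Derivations of the Laurent series field that do not increase the size. (`L` is any fraction field of `κ⟦X⟧`.)

`Le A B` : `A = a * B` for some `a : κ⟦X⟧` (i.e. `|A| ≤ |B|`).
`exists_theta`: `X d/dX` on `κ⟦X⟧` (`X • PowerSeries.derivative`), extended to the fraction field; `exists_coef`: a derivation `d` of `κ` applied to the coefficients (`PowerSeries.mk fun n => d (coeff n a)`; Leibniz from `PowerSeries.coeff_mul`), extended.
Extension of a derivation of a domain `R` to its fraction field `L`: e.g. `R → L → L ⊗[R] Ω[R⁄ℤ]`, formally etale localisation, as in `der_extend` of `Pool/Agent/H6/IvA/Deriv.lean`; or define `D (a / b) = (D a * b - a * D b) / b ^ 2` by hand.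
The bound `Le (D A) A`: `A = X ^ m * unit` or `A * X ^ m = unit` (`m : ℕ`) or `A = 0`; `D` maps `κ⟦X⟧` into itself and `D X ∈ X κ⟦X⟧`, so `D (X ^ m a) ∈ X ^ m κ⟦X⟧`; for the negative powers use `D (A X ^ m) = D A X ^ m + A D (X ^ m)`.
-/

set_option autoImplicit false

namespace Pool.Agent.H6.Tw

variable (κ : Type) [Field κ] {L : Type} [Field L] [Algebra (PowerSeries κ) L]
  [IsFractionRing (PowerSeries κ) L]

/-- `|A| ≤ |B|` -/
def Le (A B : L) : Prop := ∃ a : PowerSeries κ, A = algebraMap _ _ a * B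

open TensorProduct in
theorem ld_ext (R : Type) [CommRing R] [IsDomain R] (L : Type) [Field L] [Algebra R L]
    [IsFractionRing R L] (D0 : Derivation ℤ R R) :
    ∃ D : Derivation ℤ L L, ∀ a : R, D (algebraMap R L a) = algebraMap R L (D0 a) := by
  have h1 : Algebra.FormallyEtale R L :=
    Algebra.FormallyEtale.of_isLocalization (nonZeroDivisors R)
  let e := KaehlerDifferential.tensorKaehlerEquivOfFormallyEtale ℤ R L
  let F : Ω[R⁄ℤ] →ₗ[R] R := D0.liftKaehlerDifferential
  let LK : L ⊗[R] Ω[R⁄ℤ] →ₗ[L] L :=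
    (AlgebraTensorModule.rid R L L).toLinearMap ∘ₗ (F.baseChange L)
  refine ⟨(LK ∘ₗ e.symm.toLinearMap).compDer (KaehlerDifferential.D ℤ L), ?_⟩
  intro a
  show LK (e.symm (KaehlerDifferential.D ℤ L (algebraMap R L a))) = _
  rw [KaehlerDifferential.tensorKaehlerEquivOfFormallyEtale_symm_D_algebraMap]
  show (AlgebraTensorModule.rid R L L) ((F.baseChange L)
    ((1 : L) ⊗ₜ[R] (KaehlerDifferential.D ℤ R) a)) = _
  rw [LinearMap.baseChange_tmul, AlgebraTensorModule.rid_tmul, Derivation.liftKaehlerDifferential_comp_D]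
  rw [Algebra.smul_def, mul_one]

theorem ld_gen (R : Type) [CommRing R] [IsDomain R] (L : Type) [Field L] [Algebra R L]
    [IsFractionRing R L] (δ : R → R) (hadd : ∀ a b, δ (a + b) = δ a + δ b)
    (hmul : ∀ a b, δ (a * b) = a * δ b + b * δ a) :
    ∃ D : Derivation ℤ L L, ∀ a : R, D (algebraMap R L a) = algebraMap R L (δ a) := by
  let f : R →+ R := AddMonoidHom.mk' δ hadd
  obtain ⟨D, hD⟩ := ld_ext R L (Derivation.mk' f.toIntLinearMap (by
    intro a b
    exact hmul a b))
  exact ⟨D, fun a => hD a⟩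

theorem ld_log (δ : PowerSeries κ → PowerSeries κ)
    (hmul : ∀ a b, δ (a * b) = a * δ b + b * δ a) (e : PowerSeries κ)
    (hX : δ PowerSeries.X = e * PowerSeries.X) (a : PowerSeries κ) (ha : a ≠ 0) :
    ∃ c, δ a = c * a := by
  obtain ⟨n, u, hu⟩ := IsDiscreteValuationRing.eq_unit_mul_pow_irreducible ha
    (PowerSeries.X_prime (R := κ)).irreducible
  have h1 : (u : PowerSeries κ) * ((u⁻¹ : (PowerSeries κ)ˣ) : PowerSeries κ) = 1 := u.mul_inv
  have h2 : ∀ n : ℕ, δ (PowerSeries.X ^ n) = (n : PowerSeries κ) * e * PowerSeries.X ^ n := by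
    intro n
    induction n with
    | zero =>
      have h0 := hmul 1 1
      simp only [one_mul] at h0
      have h3 : δ 1 = 0 := by linear_combination (-1 : PowerSeries κ) * h0
      simp [h3]
    | succ n ih =>
      rw [pow_succ, hmul, hX, ih]
      push_cast
      ring
  refine ⟨(n : PowerSeries κ) * e + δ (u : PowerSeries κ) * ((u⁻¹ : (PowerSeries κ)ˣ) : PowerSeries κ), ?_⟩
  rw [hu, hmul, h2]
  linear_combination (-(δ (u : PowerSeries κ)) * PowerSeries.X ^ n) * h1

theorem ld_main (L : Type) [Field L] [Algebra (PowerSeries κ) L]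
    [IsFractionRing (PowerSeries κ) L] (δ : PowerSeries κ → PowerSeries κ)
    (hadd : ∀ a b, δ (a + b) = δ a + δ b)
    (hmul : ∀ a b, δ (a * b) = a * δ b + b * δ a) (e : PowerSeries κ)
    (hX : δ PowerSeries.X = e * PowerSeries.X) :
    ∃ D : Derivation ℤ L L, (∀ A, Le κ (D A) A) ∧
      ∀ a : PowerSeries κ, D (algebraMap _ L a) = algebraMap _ L (δ a) := by
  obtain ⟨D, hD⟩ := ld_gen (PowerSeries κ) L δ hadd hmul
  refine ⟨D, ?_, hD⟩
  intro A
  by_cases hA : A = 0
  · exact ⟨0, by rw [hA]; simp⟩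
  obtain ⟨a, b, hb, rfl⟩ := IsFractionRing.div_surjective (A := PowerSeries κ) A
  have hb0 : algebraMap (PowerSeries κ) L b ≠ 0 :=
    IsFractionRing.to_map_ne_zero_of_mem_nonZeroDivisors hb
  obtain ⟨c, hc⟩ := ld_log κ δ hmul e hX a (by rintro rfl; exact hA (by simp))
  obtain ⟨c', hc'⟩ := ld_log κ δ hmul e hX b (nonZeroDivisors.ne_zero hb)
  refine ⟨c - c', ?_⟩
  have h1 : D (algebraMap (PowerSeries κ) L a) =
      D (algebraMap (PowerSeries κ) L a / algebraMap (PowerSeries κ) L b * algebraMap (PowerSeries κ) L b) := by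
    rw [div_mul_cancel₀ _ hb0]
  rw [Derivation.leibniz, hD, hD, hc, hc'] at h1
  simp only [smul_eq_mul, map_mul] at h1
  apply mul_right_cancel₀ hb0
  rw [map_sub]
  have h2 : algebraMap (PowerSeries κ) L a / algebraMap (PowerSeries κ) L b *
      algebraMap (PowerSeries κ) L b = algebraMap (PowerSeries κ) L a := div_mul_cancel₀ _ hb0
  linear_combination (-1 : L) * h1 - (algebraMap (PowerSeries κ) L c) * h2

theorem exists_theta (L : Type) [Field L] [Algebra (PowerSeries κ) L]
    [IsFractionRing (PowerSeries κ) L] : ∃ D : Derivation ℤ L L,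
    (∀ A, Le κ (D A) A) ∧ (∀ c : κ, D (algebraMap (PowerSeries κ) L (PowerSeries.C c)) = 0) ∧
    D (algebraMap (PowerSeries κ) L PowerSeries.X) = algebraMap (PowerSeries κ) L PowerSeries.X := by
  have hX : PowerSeries.X * PowerSeries.derivative κ (PowerSeries.X : PowerSeries κ) =
      1 * PowerSeries.X := by simp
  obtain ⟨D, h1, h2⟩ := ld_main κ L (fun a => PowerSeries.X * PowerSeries.derivative κ a)
    (fun a b => by rw [map_add, mul_add])
    (fun a b => by rw [Derivation.leibniz]; simp only [smul_eq_mul]; ring) 1 hX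
  refine ⟨D, h1, ?_, ?_⟩
  · intro c
    rw [h2]
    simp
  · rw [h2, hX, one_mul]

theorem exists_coef (L : Type) [Field L] [Algebra (PowerSeries κ) L]
    [IsFractionRing (PowerSeries κ) L] (d : Derivation ℤ κ κ) : ∃ D : Derivation ℤ L L,
    (∀ A, Le κ (D A) A) ∧
    (∀ c : κ, D (algebraMap (PowerSeries κ) L (PowerSeries.C c)) =
      algebraMap (PowerSeries κ) L (PowerSeries.C (d c))) ∧
    D (algebraMap (PowerSeries κ) L PowerSeries.X) = 0 := by
  have hX0 : (PowerSeries.mk fun n => d (PowerSeries.coeff n (PowerSeries.X : PowerSeries κ))) =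
      0 := by
    ext n
    rw [PowerSeries.coeff_mk, PowerSeries.coeff_X]
    split_ifs <;> simp
  obtain ⟨D, h1, h2⟩ := ld_main κ L (fun a => PowerSeries.mk fun n => d (PowerSeries.coeff n a))
    (fun a b => by ext n; simp) (fun a b => by
      rw [mul_comm b]
      ext n
      rw [PowerSeries.coeff_mk, PowerSeries.coeff_mul, map_add, PowerSeries.coeff_mul,
        PowerSeries.coeff_mul, map_sum, ← Finset.sum_add_distrib]
      refine Finset.sum_congr rfl fun p _ => ?_
      rw [Derivation.leibniz, PowerSeries.coeff_mk, PowerSeries.coeff_mk]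
      simp only [smul_eq_mul]
      ring) 0 (by rw [hX0, zero_mul])
  refine ⟨D, h1, ?_, ?_⟩
  · intro c
    rw [h2]
    congr 1
    ext n
    rw [PowerSeries.coeff_mk, PowerSeries.coeff_C, PowerSeries.coeff_C]
    split_ifs <;> simp
  · rw [h2, hX0, map_zero]

end Pool.Agent.H6.Tw
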