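import Pool.Agent.H6.Tw.Defs

/-!
JOB TW-1. The area form is invariant; consequences for a family.

* `wr_flight`: with `ξ' = ξ + f v`, `η' = η + f v⁻¹`: `jj D ξ' η' v = jj D ξ η v + 2 f oo D v` (Leibniz; `D (v⁻¹) = - D v * v⁻¹ ^ 2`, `Derivation.leibniz_inv` or differentiate `v * v⁻¹ = 1`).
* `wr_refl`: `u = v v'`, `D ξ = u D η`, `D u = c D η` for both derivations: `jj D ξ η v = D η (v' - v)`, `jj D ξ η v' = D η (v - v')`, `oo D v' = c D η / u - oo D v`; the terms with `c` cancel.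
* `Fam.wr_all`: induction on `k` with `wr_flight`, `wr_refl`.
* `Fam.fix`: from `D, D'` with `w = wr D D' (ξ k) (η k) (v k) ≠ 0` take `δ = (w⁻¹ * jj D ..) • D' + (- w⁻¹ * jj D' ..) • D`: `jj δ = 0`, `oo δ = 1`. If `k = k' + 1` then `jj δ (ξ k) (η k) (v k) = δ (η k) (v k' - v k)` (by `tan`), so `δ (η k) = 0` by `nt`,
  `δ (ξ k) = 0`, `δ (v k) = v k`. For `k = 0` use `k = n` and the periodicity (`pξ pη pv` with `k = 0`, `zero_add`).
* `Fam.move`: similarly one of `D (η k)`, `D' (η k)` is nonzero (otherwise `jj D = jj D' = 0` at `k`).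
* `Fam.noflip`: if `v (k+1) = - v k`: take `δ` from `fix` at the vertex `k + 1`: `δ (v k * v (k+1)) = c δ (η (k+1)) = 0`, so `δ (v k ^ 2) = 0`, `δ (v (k+1)) = 0`, contradiction with `δ (v (k+1)) = v (k+1) ≠ 0` (characteristic `0` because of `Algebra ℂ K`).
* `Fam.shift`: all fields by substitution; `ind` from `wr_all`; `len`: the sum over a period does not depend on the starting point (`Finset.sum_range_succ`, `Finset.sum_range_succ'`, induction on `p`).
* `Fam.total`: `2 D (f k) = Φ (k+1) - Φ k`, `Φ k = v k D (η k) + (v k)⁻¹ D (ξ k)` (compare `bounce_deriv` in `Pool/Agent/H6/IvA/Deriv.lean`), telescope, `Φ n = Φ 0`.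
-/

set_option autoImplicit false

namespace Pool.Agent.H6.Tw

variable {K : Type} [Field K]

theorem tw1_jj_flight (D : Derivation ℤ K K) {ξ η v f : K} (hv : v ≠ 0) :
    jj D (ξ + f * v) (η + f * v⁻¹) v = jj D ξ η v + 2 * f * oo D v := by
  unfold jj oo
  rw [map_add, map_add, Derivation.leibniz, Derivation.leibniz, Derivation.leibniz_inv]
  simp only [smul_eq_mul]
  field_simp
  ring

theorem wr_flight (D D' : Derivation ℤ K K) {ξ η v f : K} (hv : v ≠ 0) :
    wr D D' (ξ + f * v) (η + f * v⁻¹) v = wr D D' ξ η v := by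
  unfold wr
  rw [tw1_jj_flight D hv, tw1_jj_flight D' hv]
  ring

theorem tw1_oo_refl (D : Derivation ℤ K K) {η v v' c : K} (hv : v ≠ 0) (hv' : v' ≠ 0)
    (hc : D (v * v') = c * D η) : oo D v' = c * D η * (v * v')⁻¹ - oo D v := by
  unfold oo
  rw [← hc, Derivation.leibniz]
  simp only [smul_eq_mul]
  field_simp
  ring

theorem tw1_jj_before (D : Derivation ℤ K K) {ξ η v v' : K} (hv : v ≠ 0)
    (h : D ξ = v * v' * D η) : jj D ξ η v = D η * (v' - v) := by
  unfold jj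
  rw [h]
  field_simp

theorem tw1_jj_after (D : Derivation ℤ K K) {ξ η v v' : K} (hv' : v' ≠ 0)
    (h : D ξ = v * v' * D η) : jj D ξ η v' = D η * (v - v') := by
  unfold jj
  rw [h]
  field_simp

theorem wr_refl (D D' : Derivation ℤ K K) {ξ η v v' c : K} (hv : v ≠ 0) (hv' : v' ≠ 0)
    (h : D ξ = v * v' * D η) (h' : D' ξ = v * v' * D' η)
    (hc : D (v * v') = c * D η) (hc' : D' (v * v') = c * D' η) :
    wr D D' ξ η v' = wr D D' ξ η v := by
  unfold wr
  rw [tw1_oo_refl D hv hv' hc, tw1_oo_refl D' hv hv' hc', tw1_jj_before D hv h,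
    tw1_jj_before D' hv h', tw1_jj_after D hv' h, tw1_jj_after D' hv' h']
  ring

variable [Algebra ℂ K] {Adm : Derivation ℤ K K → Prop} {n : ℕ} {ξ η v f : ℕ → K}

theorem Fam.wr_all (h : Fam Adm n ξ η v f) (k : ℕ) :
    ∃ D D', Adm D ∧ Adm D' ∧ wr D D' (ξ k) (η k) (v k) ≠ 0 := by
  induction k with
  | zero => exact h.ind
  | succ k ih =>
    obtain ⟨D, D', hD, hD', hw⟩ := ih
    refine ⟨D, D', hD, hD', ?_⟩
    obtain ⟨c, hc⟩ := h.cur k
    rw [wr_refl D D' (h.v0 k) (h.v0 (k + 1)) (h.tan k D hD) (h.tan k D' hD') (hc D hD) (hc D' hD'),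
      h.xi, h.eta, wr_flight D D' (h.v0 k)]
    exact hw

theorem Fam.tw1_char (_h : Fam Adm n ξ η v f) : (2 : K) ≠ 0 := by
  have : CharZero K := charZero_of_injective_algebraMap (algebraMap ℂ K).injective
  exact two_ne_zero

theorem Fam.tw1_fix_succ (h : Fam Adm n ξ η v f) (k : ℕ) :
    ∃ D, Adm D ∧ D (ξ (k + 1)) = 0 ∧ D (η (k + 1)) = 0 ∧ D (v (k + 1)) = v (k + 1) := by
  obtain ⟨D, D', hD, hD', hw⟩ := h.wr_all (k + 1)
  set w := wr D D' (ξ (k + 1)) (η (k + 1)) (v (k + 1)) with hwd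
  set a : K := -(w⁻¹ * jj D' (ξ (k + 1)) (η (k + 1)) (v (k + 1))) with ha
  set b : K := w⁻¹ * jj D (ξ (k + 1)) (η (k + 1)) (v (k + 1)) with hb
  have hE : Adm (a • D + b • D') := h.comb a b D D' hD hD'
  have happ : ∀ x : K, (a • D + b • D') x = a * D x + b * D' x := fun x => by
    rw [Derivation.add_apply, Derivation.smul_apply, Derivation.smul_apply, smul_eq_mul,
      smul_eq_mul]
  set E := a • D + b • D' with hEd
  have hjj : jj E (ξ (k + 1)) (η (k + 1)) (v (k + 1)) = 0 := by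
    have h1 : jj E (ξ (k + 1)) (η (k + 1)) (v (k + 1)) =
        a * jj D (ξ (k + 1)) (η (k + 1)) (v (k + 1)) +
        b * jj D' (ξ (k + 1)) (η (k + 1)) (v (k + 1)) := by
      unfold jj
      rw [happ, happ]
      ring
    rw [h1, ha, hb]
    ring
  have hoo : oo E (v (k + 1)) = 1 := by
    have h1 : oo E (v (k + 1)) = a * oo D (v (k + 1)) + b * oo D' (v (k + 1)) := by
      unfold oo
      rw [happ]
      ring
    have h2 : a * oo D (v (k + 1)) + b * oo D' (v (k + 1)) = w⁻¹ * w := by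
      rw [ha, hb, hwd]
      unfold wr
      ring
    rw [h1, h2, inv_mul_cancel₀ hw]
  have hη : E (η (k + 1)) = 0 := by
    rw [tw1_jj_after E (h.v0 (k + 1)) (h.tan k E hE)] at hjj
    rcases mul_eq_zero.1 hjj with h1 | h1
    · exact h1
    · exact absurd (sub_eq_zero.1 h1).symm (h.nt k)
  refine ⟨E, hE, ?_, hη, ?_⟩
  · rw [h.tan k E hE, hη, mul_zero]
  · unfold oo at hoo
    exact (mul_inv_eq_one₀ (h.v0 (k + 1))).1 hoo

theorem Fam.fix (h : Fam Adm n ξ η v f) (k : ℕ) :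
    ∃ D, Adm D ∧ D (ξ k) = 0 ∧ D (η k) = 0 ∧ D (v k) = v k := by
  obtain ⟨m, hm⟩ : ∃ m, k + n = m + 1 := ⟨k + n - 1, by have := h.n0; omega⟩
  have h1 := h.tw1_fix_succ m
  rw [← hm, h.pξ, h.pη, h.pv] at h1
  exact h1

theorem Fam.move (h : Fam Adm n ξ η v f) (k : ℕ) : ∃ D, Adm D ∧ D (η k) ≠ 0 := by
  by_contra hcon
  push Not at hcon
  obtain ⟨m, hm⟩ : ∃ m, k + n = m + 1 := ⟨k + n - 1, by have := h.n0; omega⟩
  obtain ⟨D, D', hD, hD', hw⟩ := h.wr_all (k + n)
  have hx : ∀ D, Adm D → D (ξ (k + n)) = 0 := fun D hD => by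
    have h1 := h.tan m D hD
    rw [← hm, h.pη, hcon D hD, mul_zero] at h1
    exact h1
  apply hw
  unfold wr jj
  rw [hx D hD, hx D' hD', h.pη, hcon D hD, hcon D' hD']
  ring

theorem Fam.noflip (h : Fam Adm n ξ η v f) (k : ℕ) : v (k + 1) ≠ -v k := by
  intro hv
  obtain ⟨D, hD, -, h2, h3⟩ := h.fix (k + 1)
  obtain ⟨c, hc⟩ := h.cur k
  have h4 := hc D hD
  have hvk : v k = -v (k + 1) := by rw [hv, neg_neg]
  rw [h2, mul_zero, hvk, Derivation.leibniz, map_neg, h3, smul_eq_mul, smul_eq_mul] at h4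
  have h5 : (2 : K) * (v (k + 1) * v (k + 1)) = 0 := by linear_combination -h4
  rcases mul_eq_zero.1 h5 with h6 | h6
  · exact h.tw1_char h6
  · exact h.v0 (k + 1) (mul_self_eq_zero.1 h6)

theorem tw1_sum_shift {f : ℕ → K} {n : ℕ} (hf : ∀ k, f (k + n) = f k) (p : ℕ) :
    ∑ k ∈ Finset.range n, f (k + p) = ∑ k ∈ Finset.range n, f k := by
  induction p with
  | zero => rfl
  | succ p ih =>
    have h1 := Finset.sum_range_succ (fun k => f (k + p)) n
    rw [Finset.sum_range_succ'] at h1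
    have h2 : f (n + p) = f (0 + p) := by
      rw [zero_add, add_comm n p]
      exact hf p
    rw [h2] at h1
    have h3 := add_right_cancel h1
    rw [← ih, ← h3]
    refine Finset.sum_congr rfl fun k _ => ?_
    rw [add_assoc, add_comm 1 p]

theorem Fam.shift (h : Fam Adm n ξ η v f) (p : ℕ) :
    Fam Adm n (fun k => ξ (k + p)) (fun k => η (k + p)) (fun k => v (k + p))
      (fun k => f (k + p)) := by
  have e1 : ∀ k, k + n + p = k + p + n := fun k => by ring
  have e2 : ∀ k, k + 1 + p = k + p + 1 := fun k => by ring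
  refine ⟨h.n0, ?_, ?_, ?_, ?_, ?_, ?_, ?_, ?_, ?_, ?_, h.comb, h.con, ?_, ?_⟩
  · intro k
    beta_reduce
    rw [e1, h.pξ]
  · intro k
    beta_reduce
    rw [e1, h.pη]
  · intro k
    beta_reduce
    rw [e1, h.pv]
  · intro k
    beta_reduce
    rw [e1, h.pf]
  · intro k
    exact h.v0 (k + p)
  · intro k
    beta_reduce
    rw [e2]
    exact h.xi (k + p)
  · intro k
    beta_reduce
    rw [e2]
    exact h.eta (k + p)
  · intro k D hD
    beta_reduce
    rw [e2]
    exact h.tan (k + p) D hD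
  · intro k
    beta_reduce
    rw [e2]
    exact h.cur (k + p)
  · intro k
    beta_reduce
    rw [e2]
    exact h.nt (k + p)
  · beta_reduce
    rw [zero_add]
    exact h.wr_all p
  · beta_reduce
    rw [tw1_sum_shift h.pf p]
    exact h.len

theorem Fam.tw1_step (h : Fam Adm n ξ η v f) {D : Derivation ℤ K K} (hD : Adm D) (k : ℕ) :
    2 * D (f k) = (v (k + 1) * D (η (k + 1)) + (v (k + 1))⁻¹ * D (ξ (k + 1))) -
      (v k * D (η k) + (v k)⁻¹ * D (ξ k)) := by
  have hv := h.v0 k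
  have hv' := h.v0 (k + 1)
  have h1 := h.tan k D hD
  have h2 : v (k + 1) * D (η (k + 1)) = (v k)⁻¹ * D (ξ (k + 1)) := by
    rw [h1]
    field_simp
  have h3 : (v (k + 1))⁻¹ * D (ξ (k + 1)) = v k * D (η (k + 1)) := by
    rw [h1]
    field_simp
  rw [h2, h3, h.xi, h.eta, map_add, map_add, Derivation.leibniz, Derivation.leibniz,
    Derivation.leibniz_inv]
  simp only [smul_eq_mul]
  field_simp
  ring

theorem Fam.total (h : Fam Adm n ξ η v f) {D : Derivation ℤ K K} (hD : Adm D) :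
    D (∑ k ∈ Finset.range n, f k) = 0 := by
  have h1 : 2 * D (∑ k ∈ Finset.range n, f k) = 0 := by
    rw [map_sum, Finset.mul_sum, Finset.sum_congr rfl fun k _ => h.tw1_step hD k,
      Finset.sum_range_sub (fun k => v k * D (η k) + (v k)⁻¹ * D (ξ k))]
    have e1 := h.pv 0
    have e2 := h.pη 0
    have e3 := h.pξ 0
    rw [zero_add] at e1 e2 e3
    rw [e1, e2, e3, sub_self]
  rcases mul_eq_zero.1 h1 with h2 | h2
  · exact absurd h2 h.tw1_char
  · exact h2

end Pool.Agent.H6.Tw
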