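import Pool.Agent.H6.Tw.HSplit
import Pool.Agent.H6.Tw.Wr
import Pool.Agent.H6.Tw.LDer

/-!
JOB TW-11. Reflection at circles and straight lines, in Laurent series.

`Wid D D' s`: the state comes from Laurent series with even point, odd direction, and its area form is at least of size `X⁻¹` (`Le (X⁻¹) (wr ...)`).
`big_Y`: with `Y = (ξ - c) v⁻¹ - (η - c') v` (`c, c' ∈ ℂ`): `D Y = jj D ξ η v - ((ξ - c) v⁻¹ + (η - c') v) oo D v` (constants are killed), so `wr D D' = D Y oo D' - D' Y oo D` (the extra terms cancel); `Le (D Y) Y`, `oo D' v = D' v / v` is integral (`Le (D' v) v`),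
so `Le (wr ..) Y`, hence `Le (X⁻¹) Y`: `Y⁻¹ ∈ X κ⟦X⟧`.
`circ_step`: `(ξ' - c)(η' - c') = r ^ 2`, flight `f`. Put `z = (ξ' - c) / (r v)` in `Ω`; then `z - z⁻¹ = Y / r` (`Y` is the same at `(ξ, η)` and `(ξ', η')`, `η' - c' = r ^ 2 / (ξ' - c)`); `y = z r / Y` is a root of `T ^ 2 - T - r ^ 2 / Y ^ 2`, `r ^ 2 / Y ^ 2 ∈ X κ⟦X⟧` even,
reduction `T ^ 2 - T` separable: `hensel_split`, `hensel_even`: `y ∈ κ⟦X⟧` even (`y ≠ 0`). So `z` is odd, `ξ' = c + r v z` even, `η' = c' + r / (v z)` even, `v' = - (ξ' - c) / ((η' - c') v) = - z ^ 2 v` odd, `f = (ξ' - ξ) / v` odd. The area form: `wr_flight`, `wr_refl` (in `L`, with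
`D ξ' = v v' D η'` from `(ξ' - c)(η' - c') = r ^ 2`, `v v' = - (ξ' - c) ^ 2 / r ^ 2`, `D (v v') = c D η'`).
`line_step`: `a ξ' + b η' = h`, `a, b ≠ 0` in `ℂ`, `v v' = - b / a`: `f (a v + b v⁻¹) = h - a ξ - b η` and `a v + b v⁻¹ ≠ 0` (otherwise `v ^ 2 = - b / a ∈ ℂ`, so `v ∈ ℂ ⊆ κ` (algebraically closed), `v` is fixed by `sigL`, but odd: `v = 0`), so `f` is odd, `ξ', η'` even, `v' = - b / (a v)` odd.
-/

set_option autoImplicit false
set_option linter.unusedSectionVars false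

namespace Pool.Agent.H6.Tw

variable {κ : Type} [Field κ] [Algebra ℂ κ] {L : Type} [Field L] [Algebra (PowerSeries κ) L]
  [IsFractionRing (PowerSeries κ) L] {Ω : Type} [Field Ω] [Algebra ℂ Ω]

/-- a state with even point, odd direction and large area form -/
def Wid (κ : Type) [Field κ] {L : Type} [Field L] [Algebra (PowerSeries κ) L]
    [IsFractionRing (PowerSeries κ) L] {Ω : Type} [Field Ω] (ψ : L →+* Ω)
    (D D' : Derivation ℤ L L) (s : Ω × Ω × Ω) : Prop :=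
  ∃ ξ η v : L, sigL κ L ξ = ξ ∧ sigL κ L η = η ∧ sigL κ L v = -v ∧ v ≠ 0 ∧
    Le κ (algebraMap (PowerSeries κ) L PowerSeries.X)⁻¹ (wr D D' ξ η v) ∧ s = (ψ ξ, ψ η, ψ v)

/-- the constants -/
noncomputable def stepC_c (κ : Type) [Field κ] [Algebra ℂ κ] (L : Type) [Field L]
    [Algebra (PowerSeries κ) L] : ℂ →+* L :=
  (algebraMap (PowerSeries κ) L).comp ((PowerSeries.C (R := κ)).comp (algebraMap ℂ κ))

theorem stepC_c_apply (c : ℂ) : stepC_c κ L c =
    algebraMap (PowerSeries κ) L (PowerSeries.C (algebraMap ℂ κ c)) := rfl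

theorem stepC_sig_C (x : κ) : sig κ (PowerSeries.C x) = PowerSeries.C x := by
  unfold sig
  ext n
  rw [PowerSeries.coeff_rescale, PowerSeries.coeff_C]
  split_ifs with h
  · rw [h, pow_zero, one_mul]
  · rw [mul_zero]

theorem stepC_sig_c (c : ℂ) : sigL κ L (stepC_c κ L c) = stepC_c κ L c := by
  rw [stepC_c_apply, sigL_alg, stepC_sig_C]

theorem stepC_two (κ : Type) [Field κ] [Algebra ℂ κ] (L : Type) [Field L]
    [Algebra (PowerSeries κ) L] : (2 : L) ≠ 0 := by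
  have h : stepC_c κ L 2 = 2 := map_ofNat _ 2
  rw [← h, Ne, map_eq_zero]
  norm_num

theorem stepC_inv (D : Derivation ℤ L L) {v : L} (hv : v ≠ 0) :
    D v⁻¹ = -(D v * v⁻¹ * v⁻¹) := by
  have h : D (v * v⁻¹) = 0 := by rw [mul_inv_cancel₀ hv]; exact D.map_one_eq_zero
  rw [Derivation.leibniz, smul_eq_mul, smul_eq_mul] at h
  have h2 : v * D v⁻¹ = -(v⁻¹ * D v) := by linear_combination h
  have h3 : D v⁻¹ = v⁻¹ * (v * D v⁻¹) := by field_simp
  rw [h3, h2]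
  ring

theorem stepC_bigY {D D' : Derivation ℤ L L} (hD : ∀ A, Le κ (D A) A)
    (hD' : ∀ A, Le κ (D' A) A)
    {c c' ξ η v : L} (hc : D c = 0) (hc2 : D c' = 0) (hd : D' c = 0) (hd2 : D' c' = 0)
    (hv : v ≠ 0)
    (hw : Le κ (algebraMap (PowerSeries κ) L PowerSeries.X)⁻¹ (wr D D' ξ η v)) :
    ∃ p : PowerSeries κ, algebraMap (PowerSeries κ) L (PowerSeries.X * p) *
      ((ξ - c) * v⁻¹ - (η - c') * v) = 1 := by
  obtain ⟨a, ha⟩ := hw
  set Y := (ξ - c) * v⁻¹ - (η - c') * v with hY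
  have hDY : ∀ E : Derivation ℤ L L, E c = 0 → E c' = 0 →
      E Y = jj E ξ η v - ((ξ - c) * v⁻¹ + (η - c') * v) * oo E v := by
    intro E h1 h2
    rw [hY, map_sub, Derivation.leibniz, Derivation.leibniz, map_sub, map_sub, h1, h2,
      stepC_inv E hv]
    simp only [smul_eq_mul, jj, oo]
    field_simp
    ring
  have hwr : wr D D' ξ η v = D Y * oo D' v - D' Y * oo D v := by
    rw [hDY D hc hc2, hDY D' hd hd2, wr]
    ring
  obtain ⟨a1, h1⟩ := hD Y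
  obtain ⟨a2, h2⟩ := hD' v
  obtain ⟨a3, h3⟩ := hD' Y
  obtain ⟨a4, h4⟩ := hD v
  have hX : algebraMap (PowerSeries κ) L PowerSeries.X ≠ 0 := by
    rw [Ne, map_eq_zero_iff _ (IsFractionRing.injective (PowerSeries κ) L)]
    exact PowerSeries.X_ne_zero
  refine ⟨a * (a1 * a2 - a3 * a4), ?_⟩
  have h5 : oo D' v = algebraMap _ L a2 := by
    rw [oo, h2, mul_assoc, mul_inv_cancel₀ hv, mul_one]
  have h6 : oo D v = algebraMap _ L a4 := by
    rw [oo, h4, mul_assoc, mul_inv_cancel₀ hv, mul_one]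
  rw [hwr, h1, h3, h5, h6] at ha
  have h7 : algebraMap (PowerSeries κ) L PowerSeries.X *
      (algebraMap (PowerSeries κ) L PowerSeries.X)⁻¹ = 1 := mul_inv_cancel₀ hX
  rw [ha] at h7
  rw [← h7]
  simp only [map_mul, map_sub]
  ring

/-- the new state -/
theorem stepC_wid (ψ : L →+* Ω) {D D' : Derivation ℤ L L} {ξ η v f ξ' η' v' e : L}
    (hξ : sigL κ L ξ' = ξ') (hη : sigL κ L η' = η') (hv' : sigL κ L v' = -v')
    (hv0 : v ≠ 0) (hv'0 : v' ≠ 0)
    (hw : Le κ (algebraMap (PowerSeries κ) L PowerSeries.X)⁻¹ (wr D D' ξ η v))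
    (h1 : ξ' = ξ + f * v) (h2 : η' = η + f * v⁻¹)
    (h3 : D ξ' = v * v' * D η') (h4 : D' ξ' = v * v' * D' η')
    (h5 : D (v * v') = e * D η') (h6 : D' (v * v') = e * D' η') :
    Wid κ ψ D D' (ψ ξ', ψ η', ψ v') := by
  refine ⟨ξ', η', v', hξ, hη, hv', hv'0, ?_, rfl⟩
  rw [wr_refl D D' hv0 hv'0 h3 h4 h5 h6, h1, h2, wr_flight D D' hv0]
  exact hw

theorem circ_step [IsAlgClosed κ] (ψ : L →+* Ω)
    (hψ : ∀ c : ℂ, ψ (algebraMap (PowerSeries κ) L (PowerSeries.C (algebraMap ℂ κ c))) =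
      algebraMap ℂ Ω c)
    {D D' : Derivation ℤ L L} (hD : ∀ A, Le κ (D A) A) (hD' : ∀ A, Le κ (D' A) A)
    (hc : ∀ c : ℂ, D (algebraMap (PowerSeries κ) L (PowerSeries.C (algebraMap ℂ κ c))) = 0)
    (hc' : ∀ c : ℂ, D' (algebraMap (PowerSeries κ) L (PowerSeries.C (algebraMap ℂ κ c))) = 0)
    {c c' r : ℂ} (hr : r ≠ 0) {ξ η v f v' : Ω}
    (hs : Wid κ ψ D D' (ξ, η, v))
    (hon : (ξ + f * v - algebraMap ℂ Ω c) * (η + f * v⁻¹ - algebraMap ℂ Ω c') = algebraMap ℂ Ω r ^ 2)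
    (hre : v * v' * (η + f * v⁻¹ - algebraMap ℂ Ω c') = -(ξ + f * v - algebraMap ℂ Ω c)) :
    Wid κ ψ D D' (ξ + f * v, η + f * v⁻¹, v') ∧ OddE κ ψ f := by
  obtain ⟨ξ0, η0, v0, hsξ, hsη, hsv, hv0, hw, heq⟩ := hs
  obtain ⟨rfl, h'⟩ := Prod.mk.inj heq
  obtain ⟨rfl, rfl⟩ := Prod.mk.inj h'
  clear heq h'
  set C : ℂ →+* L := stepC_c κ L with hC
  have hψC : ∀ a, ψ (C a) = algebraMap ℂ Ω a := hψ
  have hDC : ∀ a, D (C a) = 0 := hc
  have hDC' : ∀ a, D' (C a) = 0 := hc'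
  have hsC : ∀ a, sigL κ L (C a) = C a := fun a => stepC_sig_c a
  have hrL : C r ≠ 0 := by rw [Ne, map_eq_zero]; exact hr
  have hrΩ : algebraMap ℂ Ω r ≠ 0 := by rw [Ne, map_eq_zero]; exact hr
  have hvΩ : ψ v0 ≠ 0 := by rw [Ne, map_eq_zero]; exact hv0
  obtain ⟨p, hp⟩ := stepC_bigY hD hD' (hDC c) (hDC c') (hDC' c) (hDC' c') hv0 hw
  set Y : L := (ξ0 - C c) * v0⁻¹ - (η0 - C c') * v0 with hY
  have hY0 : Y ≠ 0 := by
    intro h
    rw [h, mul_zero] at hp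
    exact zero_ne_one hp
  have hYΩ : ψ Y ≠ 0 := by rw [Ne, map_eq_zero]; exact hY0
  have hsY : sigL κ L Y = -Y := by
    rw [hY, map_sub, map_mul, map_mul, map_inv₀, map_sub, map_sub, hsξ, hsη, hsv, hsC, hsC,
      inv_neg]
    ring
  -- the point is not the centre
  have hx0 : ψ ξ0 + f * ψ v0 - algebraMap ℂ Ω c ≠ 0 := by
    intro h
    rw [h, zero_mul] at hon
    exact hrΩ (pow_eq_zero_iff two_ne_zero |>.1 hon.symm)
  have hy0 : ψ η0 + f * (ψ v0)⁻¹ - algebraMap ℂ Ω c' ≠ 0 := by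
    intro h
    rw [h, mul_zero] at hon
    exact hrΩ (pow_eq_zero_iff two_ne_zero |>.1 hon.symm)
  obtain ⟨A, hA⟩ : ∃ A, A = ψ ξ0 + f * ψ v0 - algebraMap ℂ Ω c := ⟨_, rfl⟩
  obtain ⟨B, hB⟩ : ∃ B, B = ψ η0 + f * (ψ v0)⁻¹ - algebraMap ℂ Ω c' := ⟨_, rfl⟩
  rw [← hA] at hon hre hx0
  rw [← hB] at hon hre hy0
  have hψY : ψ Y = A * (ψ v0)⁻¹ - B * ψ v0 := by
    rw [hY, hA, hB]
    simp only [map_sub, map_mul, map_inv₀, hψC]
    field_simp
    ring
  -- the quadratic equation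
  obtain ⟨y, hy⟩ : ∃ y, y = A * (ψ v0)⁻¹ * (ψ Y)⁻¹ := ⟨_, rfl⟩
  obtain ⟨g, hg⟩ : ∃ g : PowerSeries κ, g = PowerSeries.C (algebraMap ℂ κ r) ^ 2 *
      (PowerSeries.X * p) ^ 2 := ⟨_, rfl⟩
  have hgL : algebraMap (PowerSeries κ) L g = C r ^ 2 * (Y⁻¹) ^ 2 := by
    have h1 : algebraMap (PowerSeries κ) L (PowerSeries.X * p) = Y⁻¹ :=
      eq_inv_of_mul_eq_one_left hp
    rw [hg, map_mul, map_pow, map_pow, h1]
    rfl
  have hg0 : PowerSeries.constantCoeff g = 0 := by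
    rw [hg]
    simp
  have hgs : sig κ g = g := by
    apply IsFractionRing.injective (PowerSeries κ) L
    rw [← sigL_alg, hgL, map_mul, map_pow, map_pow, map_inv₀, hsC, hsY, inv_neg, neg_sq]
  have hyq : y ^ 2 - y - ψ (algebraMap _ L g) = 0 := by
    rw [hgL, map_mul, map_pow, map_pow, map_inv₀, hψC, hy, ← hon]
    have h1 : A * (ψ v0)⁻¹ = ψ Y + B * ψ v0 := by rw [hψY]; ring
    have h2 : A * B = (A * (ψ v0)⁻¹) * (B * ψ v0) := by field_simp
    rw [h2, h1]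
    field_simp
    ring
  obtain ⟨z0, hz0, hz1⟩ := hensel_split (ψ.comp (algebraMap (PowerSeries κ) L))
    (Polynomial.X ^ 2 - Polynomial.X - Polynomial.C g : Polynomial (PowerSeries κ))
    (by
      have : (Polynomial.X ^ 2 - Polynomial.X - Polynomial.C g :
          Polynomial (PowerSeries κ)).leadingCoeff = 1 := by
        have : (Polynomial.X ^ 2 - Polynomial.X - Polynomial.C g :
            Polynomial (PowerSeries κ)).Monic := by monicity!
        exact this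
      rw [this, map_one]
      exact one_ne_zero)
    (by
      simp only [Polynomial.map_sub, Polynomial.map_pow, Polynomial.map_X, Polynomial.map_C, hg0,
        map_zero, sub_zero]
      have h1 : (Polynomial.X ^ 2 - Polynomial.X : Polynomial κ) =
          Polynomial.X * (Polynomial.X - 1) := by ring
      rw [h1]
      apply Polynomial.Separable.mul
      · exact Polynomial.separable_X
      · have := Polynomial.separable_X_sub_C (x := (1 : κ))
        rwa [map_one] at this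
      · exact ⟨1, -1, by ring⟩)
    (ω := y)
    (by
      simp only [Polynomial.eval₂_sub, Polynomial.eval₂_pow, Polynomial.eval₂_X,
        Polynomial.eval₂_C, RingHom.comp_apply]
      exact hyq)
  have hz2 : sig κ z0 = z0 := by
    refine hensel_even (Polynomial.X ^ 2 - Polynomial.X - Polynomial.C g) ?_ ?_ hz0
    · simp only [Polynomial.map_sub, Polynomial.map_pow, Polynomial.map_X, Polynomial.map_C, hgs]
    · simp only [Polynomial.map_sub, Polynomial.map_pow, Polynomial.map_X, Polynomial.map_C, hg0,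
        map_zero, sub_zero]
      have h1 : (Polynomial.X ^ 2 - Polynomial.X : Polynomial κ) =
          Polynomial.X * (Polynomial.X - 1) := by ring
      rw [h1]
      apply Polynomial.Separable.mul
      · exact Polynomial.separable_X
      · have := Polynomial.separable_X_sub_C (x := (1 : κ))
        rwa [map_one] at this
      · exact ⟨1, -1, by ring⟩
  rw [RingHom.comp_apply] at hz1
  -- `z` (times `r`)
  obtain ⟨Z, hZ⟩ : ∃ Z : L, Z = algebraMap (PowerSeries κ) L z0 * Y := ⟨_, rfl⟩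
  have hψZ : ψ Z = A * (ψ v0)⁻¹ := by
    rw [hZ, map_mul, hz1, hy]
    field_simp
  have hsZ : sigL κ L Z = -Z := by
    rw [hZ, map_mul, sigL_alg, hz2, hsY]
    ring
  have hZ0 : Z ≠ 0 := by
    intro h
    rw [h, map_zero] at hψZ
    have := mul_ne_zero hx0 (inv_ne_zero hvΩ)
    exact this hψZ.symm
  have hψZv : ψ (Z * v0) = A := by
    rw [map_mul, hψZ]
    field_simp
  have hZv0 : Z * v0 ≠ 0 := mul_ne_zero hZ0 hv0
  obtain ⟨ξ1, hξ1⟩ : ∃ ξ1 : L, ξ1 = C c + Z * v0 := ⟨_, rfl⟩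
  obtain ⟨η1, hη1⟩ : ∃ η1 : L, η1 = C c' + C r ^ 2 * (Z * v0)⁻¹ := ⟨_, rfl⟩
  obtain ⟨v1, hv1⟩ : ∃ v1 : L, v1 = -((Z * v0) ^ 2 * (C r)⁻¹ ^ 2 * v0⁻¹) := ⟨_, rfl⟩
  have hB' : B = algebraMap ℂ Ω r ^ 2 * A⁻¹ := by
    rw [← hon]
    field_simp
  have hψξ : ψ ξ1 = ψ ξ0 + f * ψ v0 := by
    rw [hξ1, map_add, hψZv, hψC, hA]
    ring
  have hψη : ψ η1 = ψ η0 + f * (ψ v0)⁻¹ := by
    have h1 : ψ (C r ^ 2 * (Z * v0)⁻¹) = B := by
      rw [map_mul, map_pow, map_inv₀, hψZv, hψC, hB']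
    rw [hη1, map_add, h1, hψC, hB]
    ring
  have hψv : ψ v1 = v' := by
    have h1 : ψ v1 = -(A ^ 2 * (algebraMap ℂ Ω r)⁻¹ ^ 2 * (ψ v0)⁻¹) := by
      rw [hv1, map_neg, map_mul, map_mul, map_pow, map_pow, map_inv₀, map_inv₀, hψZv, hψC]
    have h2 : v' = -(A * (B)⁻¹ * (ψ v0)⁻¹) := by
      have h3 : v' * (ψ v0 * B) = -A := by rw [← hre]; ring
      have h4 : v' = (v' * (ψ v0 * B)) * (B⁻¹ * (ψ v0)⁻¹) := by field_simp
      rw [h4, h3]
      ring
    rw [h1, h2, hB']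
    field_simp
  have hsv0i : sigL κ L v0⁻¹ = -v0⁻¹ := by rw [map_inv₀, hsv, inv_neg]
  have hsξ1 : sigL κ L ξ1 = ξ1 := by
    rw [hξ1, map_add, map_mul, hsC, hsZ, hsv]
    ring
  have hsη1 : sigL κ L η1 = η1 := by
    rw [hη1, map_add, map_mul, map_pow, hsC, hsC, map_inv₀, map_mul, hsZ, hsv, neg_mul_neg]
  have hsv1 : sigL κ L v1 = -v1 := by
    rw [hv1, map_neg, map_mul, map_mul, map_pow, map_pow, map_mul, hsZ, hsv, hsv0i, map_inv₀, hsC,
      neg_mul_neg]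
    ring
  have hv10 : v1 ≠ 0 := by
    rw [hv1, neg_ne_zero]
    exact mul_ne_zero (mul_ne_zero (pow_ne_zero _ hZv0) (pow_ne_zero _ (inv_ne_zero hrL)))
      (inv_ne_zero hv0)
  obtain ⟨F, hF⟩ : ∃ F : L, F = (ξ1 - ξ0) * v0⁻¹ := ⟨_, rfl⟩
  have hψF : ψ F = f := by
    rw [hF, map_mul, map_sub, hψξ, map_inv₀]
    field_simp
    ring
  have h1 : ξ1 = ξ0 + F * v0 := by
    rw [hF]
    field_simp
    ring
  have h2 : η1 = η0 + F * v0⁻¹ := by
    apply ψ.injective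
    rw [hψη, map_add, map_mul, hψF, map_inv₀]
  -- the derivations
  have hvv : v0 * v1 = -((ξ1 - C c) ^ 2 * (C r)⁻¹ ^ 2) := by
    have : ξ1 - C c = Z * v0 := by rw [hξ1]; ring
    rw [this, hv1]
    field_simp
  have hder : ∀ E : Derivation ℤ L L, (∀ a, E (C a) = 0) → E ξ1 = v0 * v1 * E η1 := by
    intro E hE
    have h3 : E ξ1 = E (Z * v0) := by rw [hξ1, map_add, hE, zero_add]
    have h4 : E η1 = C r ^ 2 * -(E (Z * v0) * (Z * v0)⁻¹ * (Z * v0)⁻¹) := by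
      rw [hη1, map_add, hE, zero_add, Derivation.leibniz, pow_two (C r), Derivation.leibniz, hE,
        stepC_inv E hZv0]
      simp only [smul_eq_mul]
      ring
    rw [h3, h4, hv1]
    generalize E (Z * v0) = w
    field_simp
  have hder2 : ∀ E : Derivation ℤ L L, (∀ a, E (C a) = 0) →
      E (v0 * v1) = (-(2 * (ξ1 - C c) * (C r)⁻¹ ^ 2) * (v0 * v1)) * E η1 := by
    intro E hE
    have hE1 : E ((C r)⁻¹) = 0 := by rw [← map_inv₀]; exact hE _
    have h3 : E (v0 * v1) = -(2 * (ξ1 - C c) * (C r)⁻¹ ^ 2) * E ξ1 := by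
      rw [hvv, map_neg, Derivation.leibniz, pow_two (C r)⁻¹, Derivation.leibniz, hE1,
        pow_two (ξ1 - C c), Derivation.leibniz, map_sub, hE]
      simp only [smul_eq_mul]
      ring
    rw [h3, hder E hE]
    ring
  constructor
  · have := stepC_wid ψ hsξ1 hsη1 hsv1 hv0 hv10 hw h1 h2 (hder D hDC) (hder D' hDC')
      (hder2 D hDC) (hder2 D' hDC')
    rw [hψξ, hψη, hψv] at this
    exact this
  · refine ⟨F, ?_, hψF.symm⟩
    rw [hF, map_mul, map_sub, hsξ1, hsξ, hsv0i]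
    ring

theorem line_step [IsAlgClosed κ] (ψ : L →+* Ω)
    (hψ : ∀ c : ℂ, ψ (algebraMap (PowerSeries κ) L (PowerSeries.C (algebraMap ℂ κ c))) =
      algebraMap ℂ Ω c)
    {D D' : Derivation ℤ L L}
    (hc : ∀ c : ℂ, D (algebraMap (PowerSeries κ) L (PowerSeries.C (algebraMap ℂ κ c))) = 0)
    (hc' : ∀ c : ℂ, D' (algebraMap (PowerSeries κ) L (PowerSeries.C (algebraMap ℂ κ c))) = 0)
    {a b h : ℂ} (ha : a ≠ 0) (hb : b ≠ 0)
    {ξ η v f v' : Ω} (hs : Wid κ ψ D D' (ξ, η, v))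
    (hon : algebraMap ℂ Ω a * (ξ + f * v) + algebraMap ℂ Ω b * (η + f * v⁻¹) = algebraMap ℂ Ω h)
    (hre : algebraMap ℂ Ω a * (v * v') = -algebraMap ℂ Ω b) :
    Wid κ ψ D D' (ξ + f * v, η + f * v⁻¹, v') ∧ OddE κ ψ f := by
  obtain ⟨ξ0, η0, v0, hsξ, hsη, hsv, hv0, hw, heq⟩ := hs
  obtain ⟨rfl, h'⟩ := Prod.mk.inj heq
  obtain ⟨rfl, rfl⟩ := Prod.mk.inj h'
  clear heq h'
  set C : ℂ →+* L := stepC_c κ L with hC
  have hψC : ∀ a, ψ (C a) = algebraMap ℂ Ω a := hψ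
  have hDC : ∀ a, D (C a) = 0 := hc
  have hDC' : ∀ a, D' (C a) = 0 := hc'
  have hsC : ∀ a, sigL κ L (C a) = C a := fun a => stepC_sig_c a
  have haL : C a ≠ 0 := by rw [Ne, map_eq_zero]; exact ha
  have hbL : C b ≠ 0 := by rw [Ne, map_eq_zero]; exact hb
  have haΩ : algebraMap ℂ Ω a ≠ 0 := by rw [Ne, map_eq_zero]; exact ha
  have hvΩ : ψ v0 ≠ 0 := by rw [Ne, map_eq_zero]; exact hv0
  have hsv0i : sigL κ L v0⁻¹ = -v0⁻¹ := by rw [map_inv₀, hsv, inv_neg]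
  obtain ⟨m, hm⟩ : ∃ m : L, m = C a * v0 + C b * v0⁻¹ := ⟨_, rfl⟩
  have hsm : sigL κ L m = -m := by
    rw [hm, map_add, map_mul, map_mul, hsC, hsC, hsv, hsv0i]
    ring
  have hm0 : m ≠ 0 := by
    intro h0
    obtain ⟨w, hw2⟩ := IsAlgClosed.exists_pow_nat_eq (-b / a) (n := 2) (by norm_num)
    have h1 : C a * v0 ^ 2 = -C b := by
      have h2 : m * v0 = C a * v0 ^ 2 + C b := by
        rw [hm]
        field_simp
      rw [h0, zero_mul] at h2
      linear_combination -h2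
    have h3 : v0 ^ 2 = C w ^ 2 := by
      have h4 : C (w ^ 2) * C a = -C b := by
        rw [hw2, ← map_mul, div_mul_cancel₀ _ ha, map_neg]
      rw [map_pow] at h4
      apply mul_left_cancel₀ haL
      rw [h1, ← h4]
      ring
    have h5 : sigL κ L v0 = v0 := by
      rcases sq_eq_sq_iff_eq_or_eq_neg.1 h3 with h | h
      · rw [h, hsC]
      · rw [h, map_neg, hsC]
    rw [hsv] at h5
    have h6 : (2 : L) * v0 = 0 := by linear_combination -h5
    rcases mul_eq_zero.1 h6 with h | h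
    · exact stepC_two κ L h
    · exact hv0 h
  have hmΩ : ψ m ≠ 0 := by rw [Ne, map_eq_zero]; exact hm0
  obtain ⟨F, hF⟩ : ∃ F : L, F = (C h - C a * ξ0 - C b * η0) * m⁻¹ := ⟨_, rfl⟩
  have hψF : ψ F = f := by
    have h1 : f * ψ m = algebraMap ℂ Ω h - algebraMap ℂ Ω a * ψ ξ0 - algebraMap ℂ Ω b * ψ η0 := by
      rw [← hon, hm]
      simp only [map_add, map_mul, map_inv₀, hψC]
      ring
    rw [hF, map_mul, map_sub, map_sub, map_mul, map_mul, hψC, hψC, hψC, map_inv₀, ← h1]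
    field_simp
  have hsF : sigL κ L F = -F := by
    rw [hF, map_mul, map_sub, map_sub, map_mul, map_mul, hsC, hsC, hsC, hsξ, hsη, map_inv₀, hsm,
      inv_neg]
    ring
  obtain ⟨v1, hv1⟩ : ∃ v1 : L, v1 = -(C b * (C a)⁻¹ * v0⁻¹) := ⟨_, rfl⟩
  have hsv1 : sigL κ L v1 = -v1 := by
    rw [hv1, map_neg, map_mul, map_mul, map_inv₀, hsC, hsC, hsv0i]
    ring
  have hv10 : v1 ≠ 0 := by
    rw [hv1, neg_ne_zero]
    exact mul_ne_zero (mul_ne_zero hbL (inv_ne_zero haL)) (inv_ne_zero hv0)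
  have hψv : ψ v1 = v' := by
    have h1 : v' = (algebraMap ℂ Ω a * (ψ v0 * v')) * ((algebraMap ℂ Ω a)⁻¹ * (ψ v0)⁻¹) := by
      field_simp
    rw [h1, hre, hv1]
    simp only [map_neg, map_mul, map_inv₀, hψC]
    ring
  have hvv : v0 * v1 = -(C b * (C a)⁻¹) := by
    rw [hv1]
    field_simp
  have hrel : C a * (ξ0 + F * v0) + C b * (η0 + F * v0⁻¹) = C h := by
    have h1 : F * m = C h - C a * ξ0 - C b * η0 := by
      rw [hF]
      field_simp
    have h2 : C a * (ξ0 + F * v0) + C b * (η0 + F * v0⁻¹) = C a * ξ0 + C b * η0 + F * m := by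
      rw [hm]
      ring
    rw [h2, h1]
    ring
  have hder : ∀ E : Derivation ℤ L L, (∀ a, E (C a) = 0) →
      E (ξ0 + F * v0) = v0 * v1 * E (η0 + F * v0⁻¹) := by
    intro E hE
    have h1 := congrArg E hrel
    rw [hE, map_add, Derivation.leibniz, Derivation.leibniz, hE, hE] at h1
    simp only [smul_eq_mul, mul_zero, add_zero] at h1
    rw [hvv]
    apply mul_left_cancel₀ haL
    have h2 : C a * (-(C b * (C a)⁻¹) * E (η0 + F * v0⁻¹)) = -(C b * E (η0 + F * v0⁻¹)) := by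
      field_simp
    rw [h2]
    linear_combination h1
  have hder2 : ∀ E : Derivation ℤ L L, (∀ a, E (C a) = 0) →
      E (v0 * v1) = 0 * E (η0 + F * v0⁻¹) := by
    intro E hE
    have h1 : -(C b * (C a)⁻¹) = C (-(b * a⁻¹)) := by
      rw [map_neg, map_mul, map_inv₀]
    rw [hvv, h1, hE, zero_mul]
  constructor
  · have hsξ1 : sigL κ L (ξ0 + F * v0) = ξ0 + F * v0 := by
      rw [map_add, map_mul, hsξ, hsF, hsv]
      ring
    have hsη1 : sigL κ L (η0 + F * v0⁻¹) = η0 + F * v0⁻¹ := by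
      rw [map_add, map_mul, hsη, hsF, hsv0i]
      ring
    have := stepC_wid ψ hsξ1 hsη1 hsv1 hv0 hv10 hw rfl rfl (hder D hDC) (hder D' hDC')
      (hder2 D hDC) (hder2 D' hDC')
    rw [hψv, map_add, map_add, map_mul, map_mul, map_inv₀, hψF] at this
    exact this
  · exact ⟨F, hsF, hψF.symm⟩

end Pool.Agent.H6.Tw
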