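import Pool.Agent.H6.Tw.CoreG
import Pool.Agent.H6.Tw.StepC
import Pool.Agent.H6.IvA.Deriv

/-!
No family with two free mirrors, the other letters circular or straight.
-/

set_option autoImplicit false

namespace Pool.Agent.H6.Tw

/-- the letter relation for circles and lines -/
def RelC {K : Type} [Field K] [Algebra ℂ K] (v v' ξ η : K) : Prop :=
  (∃ c c' r : ℂ, r ≠ 0 ∧ (ξ - algebraMap ℂ K c) * (η - algebraMap ℂ K c') = algebraMap ℂ K r ^ 2 ∧
    v * v' * (η - algebraMap ℂ K c') = -(ξ - algebraMap ℂ K c)) ∨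
  (∃ a b h : ℂ, a ≠ 0 ∧ b ≠ 0 ∧
    algebraMap ℂ K a * ξ + algebraMap ℂ K b * η = algebraMap ℂ K h ∧
    algebraMap ℂ K a * (v * v') = -algebraMap ℂ K b)

theorem wid_par {κ : Type} [Field κ] {L : Type} [Field L] [Algebra (PowerSeries κ) L]
    [IsFractionRing (PowerSeries κ) L] {Ω : Type} [Field Ω] {ψ : L →+* Ω}
    {D D' : Derivation ℤ L L} {s : Ω × Ω × Ω} (h : Wid κ ψ D D' s) : Par κ ψ s := by
  obtain ⟨ξ, η, v, h1, h2, h3, h4, -, h6⟩ := h
  exact ⟨ξ, η, v, h1, h2, h3, h4, h6⟩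

section start

variable {κ : Type} [Field κ] {L : Type} [Field L] [Algebra (PowerSeries κ) L]
  [IsFractionRing (PowerSeries κ) L]

theorem der_inv (D : Derivation ℤ L L) {a : L} (ha : a ≠ 0) : D a⁻¹ = -(a⁻¹ ^ 2 * D a) := by
  have h1 : D (a * a⁻¹) = 0 := by rw [mul_inv_cancel₀ ha, Derivation.map_one_eq_zero]
  rw [Derivation.leibniz, smul_eq_mul, smul_eq_mul] at h1
  have h2 : a⁻¹ * (a * D a⁻¹ + a⁻¹ * D a) = 0 := by rw [h1, mul_zero]
  have h3 : a⁻¹ * a = 1 := inv_mul_cancel₀ ha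
  linear_combination h2 - D a⁻¹ * h3

/-- start of the forward chain -/
theorem start_F {θ D : Derivation ℤ L L} {x y dx dy : κ}
    (tc : ∀ c : κ, θ (algebraMap (PowerSeries κ) L (PowerSeries.C c)) = 0)
    (tX : θ (algebraMap (PowerSeries κ) L PowerSeries.X) =
      algebraMap (PowerSeries κ) L PowerSeries.X)
    (hx : D (algebraMap (PowerSeries κ) L (PowerSeries.C x)) =
      algebraMap (PowerSeries κ) L (PowerSeries.C dx))
    (hy : D (algebraMap (PowerSeries κ) L (PowerSeries.C y)) =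
      algebraMap (PowerSeries κ) L (PowerSeries.C dy))
    (hX : D (algebraMap (PowerSeries κ) L PowerSeries.X) = 0) (hdy : dy ≠ 0) :
    Le κ (algebraMap (PowerSeries κ) L PowerSeries.X)⁻¹
      (wr θ D (algebraMap (PowerSeries κ) L (PowerSeries.C x))
        (algebraMap (PowerSeries κ) L (PowerSeries.C y))
        (algebraMap (PowerSeries κ) L PowerSeries.X)⁻¹) := by
  have hX0 : algebraMap (PowerSeries κ) L PowerSeries.X ≠ 0 := by
    rw [map_ne_zero_iff _ (IsFractionRing.injective (PowerSeries κ) L)]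
    exact PowerSeries.X_ne_zero
  have hinv : (PowerSeries.C dx * PowerSeries.X ^ 2 - PowerSeries.C dy) *
      (PowerSeries.C dx * PowerSeries.X ^ 2 - PowerSeries.C dy)⁻¹ = 1 := by
    apply PowerSeries.mul_inv_cancel
    simp [hdy]
  have hw : wr θ D (algebraMap (PowerSeries κ) L (PowerSeries.C x))
      (algebraMap (PowerSeries κ) L (PowerSeries.C y))
      (algebraMap (PowerSeries κ) L PowerSeries.X)⁻¹ =
      algebraMap (PowerSeries κ) L (PowerSeries.C dx * PowerSeries.X ^ 2 - PowerSeries.C dy) *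
        (algebraMap (PowerSeries κ) L PowerSeries.X)⁻¹ := by
    unfold wr jj oo
    rw [tc, tc, hx, hy, der_inv θ hX0, der_inv D hX0, tX, hX, map_sub, map_mul, map_pow]
    field_simp
    ring
  refine ⟨(PowerSeries.C dx * PowerSeries.X ^ 2 - PowerSeries.C dy)⁻¹, ?_⟩
  rw [hw, ← mul_assoc, ← map_mul, mul_comm _ (PowerSeries.C dx * PowerSeries.X ^ 2 - PowerSeries.C dy),
    hinv, map_one, one_mul]

/-- start of the backward chain -/
theorem start_B {θ D : Derivation ℤ L L} {x y u dx dy du : κ}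
    (tc : ∀ c : κ, θ (algebraMap (PowerSeries κ) L (PowerSeries.C c)) = 0)
    (tX : θ (algebraMap (PowerSeries κ) L PowerSeries.X) =
      algebraMap (PowerSeries κ) L PowerSeries.X)
    (hx : D (algebraMap (PowerSeries κ) L (PowerSeries.C x)) =
      algebraMap (PowerSeries κ) L (PowerSeries.C dx))
    (hy : D (algebraMap (PowerSeries κ) L (PowerSeries.C y)) =
      algebraMap (PowerSeries κ) L (PowerSeries.C dy))
    (hu : D (algebraMap (PowerSeries κ) L (PowerSeries.C u)) =
      algebraMap (PowerSeries κ) L (PowerSeries.C du))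
    (hX : D (algebraMap (PowerSeries κ) L PowerSeries.X) = 0) (hdx : dx ≠ 0) (hu0 : u ≠ 0) :
    Le κ (algebraMap (PowerSeries κ) L PowerSeries.X)⁻¹
      (wr θ D (algebraMap (PowerSeries κ) L (PowerSeries.C x))
        (algebraMap (PowerSeries κ) L (PowerSeries.C y))
        (algebraMap (PowerSeries κ) L (PowerSeries.C u * PowerSeries.X))) := by
  have hinj := IsFractionRing.injective (PowerSeries κ) L
  have hX0 : algebraMap (PowerSeries κ) L PowerSeries.X ≠ 0 := by
    rw [map_ne_zero_iff _ hinj]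
    exact PowerSeries.X_ne_zero
  have hU0 : algebraMap (PowerSeries κ) L (PowerSeries.C u) ≠ 0 := by
    rw [map_ne_zero_iff _ hinj]
    intro h0
    apply hu0
    have := congrArg PowerSeries.constantCoeff h0
    rwa [PowerSeries.constantCoeff_C, map_zero] at this
  have hinv : (PowerSeries.C (dy * u) * PowerSeries.X ^ 2 - PowerSeries.C (dx * u⁻¹)) *
      (PowerSeries.C (dy * u) * PowerSeries.X ^ 2 - PowerSeries.C (dx * u⁻¹))⁻¹ = 1 := by
    apply PowerSeries.mul_inv_cancel
    simp [hdx, hu0]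
  have hui : algebraMap (PowerSeries κ) L (PowerSeries.C (dx * u⁻¹)) =
      algebraMap (PowerSeries κ) L (PowerSeries.C dx) *
        (algebraMap (PowerSeries κ) L (PowerSeries.C u))⁻¹ := by
    rw [eq_mul_inv_iff_mul_eq₀ hU0, ← map_mul, ← map_mul, mul_assoc, inv_mul_cancel₀ hu0, mul_one]
  have hw : wr θ D (algebraMap (PowerSeries κ) L (PowerSeries.C x))
      (algebraMap (PowerSeries κ) L (PowerSeries.C y))
      (algebraMap (PowerSeries κ) L (PowerSeries.C u * PowerSeries.X)) =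
      algebraMap (PowerSeries κ) L (PowerSeries.C (dy * u) * PowerSeries.X ^ 2 -
        PowerSeries.C (dx * u⁻¹)) * (algebraMap (PowerSeries κ) L PowerSeries.X)⁻¹ := by
    unfold wr jj oo
    rw [map_mul (algebraMap (PowerSeries κ) L) (PowerSeries.C u), Derivation.leibniz, Derivation.leibniz, tc, tc, tc, hx, hy, hu, tX, hX,
      map_sub, map_mul, map_pow, hui, map_mul, map_mul]
    simp only [smul_eq_mul]
    field_simp
    ring
  refine ⟨(PowerSeries.C (dy * u) * PowerSeries.X ^ 2 - PowerSeries.C (dx * u⁻¹))⁻¹, ?_⟩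
  rw [hw, ← mul_assoc, ← map_mul,
    mul_comm _ (PowerSeries.C (dy * u) * PowerSeries.X ^ 2 - PowerSeries.C (dx * u⁻¹)),
    hinv, map_one, one_mul]

end start

theorem core_C {K : Type} [Field K] [Algebra ℂ K] {Adm : Derivation ℤ K K → Prop}
    {n : ℕ} (ξ η v f : ℕ → K) (h : Fam Adm n ξ η v f) (j : ℕ) (hj0 : 0 < j) (hjn : j < n)
    (hG : ∀ k, k + 1 < n → k + 1 ≠ j → RelC (v k) (v (k + 1)) (ξ (k + 1)) (η (k + 1))) :
    False := by
  have hξn : ξ n = ξ 0 := by have := h.pξ 0; rwa [zero_add] at this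
  have hηn : η n = η 0 := by have := h.pη 0; rwa [zero_add] at this
  obtain ⟨κ, _, _, _, L, _, _, _, Ω, _, _, φ, ψ, x, y, u, t, hψ, hx, hy, hu, h1, h2, h3, h4, h5⟩ :=
    setup h
  have : CharZero κ := charZero_of_injective_algebraMap (algebraMap ℂ κ).injective
  have hX0 : algebraMap (PowerSeries κ) L PowerSeries.X ≠ 0 := by
    rw [map_ne_zero_iff _ (IsFractionRing.injective (PowerSeries κ) L)]
    exact PowerSeries.X_ne_zero
  obtain ⟨θ, θ1, θ2, θ3⟩ := exists_theta κ L
  obtain ⟨d0, hd0⟩ := Pool.Agent.H6.IvA.exists_derivation y hy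
  obtain ⟨d0', hd0'⟩ := Pool.Agent.H6.IvA.exists_derivation x hx
  obtain ⟨D, D1, D2, D3⟩ := exists_coef κ L (d0.restrictScalars ℤ)
  obtain ⟨D', D1', D2', D3'⟩ := exists_coef κ L (d0'.restrictScalars ℤ)
  have hθc : ∀ c : ℂ, θ (algebraMap (PowerSeries κ) L (PowerSeries.C (algebraMap ℂ κ c))) = 0 :=
    fun c => θ2 _
  have hDc : ∀ c : ℂ, D (algebraMap (PowerSeries κ) L (PowerSeries.C (algebraMap ℂ κ c))) = 0 := by
    intro c
    rw [D2]
    change algebraMap (PowerSeries κ) L (PowerSeries.C (d0 (algebraMap ℂ κ c))) = 0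
    rw [Derivation.map_algebraMap, map_zero, map_zero]
  have hDc' : ∀ c : ℂ, D' (algebraMap (PowerSeries κ) L (PowerSeries.C (algebraMap ℂ κ c))) = 0 := by
    intro c
    rw [D2']
    change algebraMap (PowerSeries κ) L (PowerSeries.C (d0' (algebraMap ℂ κ c))) = 0
    rw [Derivation.map_algebraMap, map_zero, map_zero]
  -- one letter, for an arbitrary pair of states
  have letter : ∀ (E : Derivation ℤ L L), (∀ A, Le κ (E A) A) →
      (∀ c : ℂ, E (algebraMap (PowerSeries κ) L (PowerSeries.C (algebraMap ℂ κ c))) = 0) →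
      ∀ a b w w' g : K, RelC w w' (a + g * w) (b + g * w⁻¹) →
      Wid κ ψ θ E (φ a, φ b, φ w) →
      Wid κ ψ θ E (φ (a + g * w), φ (b + g * w⁻¹), φ w') ∧ OddE κ ψ (φ g) := by
    intro E hE hEc a b w w' g hR hs
    rw [map_add, map_add, map_mul, map_mul, map_inv₀]
    rcases hR with ⟨c, c', r, hr, r1, r2⟩ | ⟨p, q, z, hp, hq, r1, r2⟩
    · refine circ_step ψ hψ θ1 hE hθc hEc hr (c := c) (c' := c') hs ?_ ?_
      · have := congrArg φ r1
        simpa only [map_mul, map_sub, map_add, map_inv₀, AlgHom.commutes, map_pow] using this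
      · have := congrArg φ r2
        simpa only [map_mul, map_sub, map_add, map_inv₀, AlgHom.commutes, map_pow, map_neg] using this
    · refine line_step ψ hψ hθc hEc hp hq (h := z) hs ?_ ?_
      · have := congrArg φ r1
        simpa only [map_mul, map_sub, map_add, map_inv₀, AlgHom.commutes, map_pow] using this
      · have := congrArg φ r2
        simpa only [map_mul, map_sub, map_add, map_inv₀, AlgHom.commutes, map_pow, map_neg] using this
  refine core_chain h hj0 hjn (φ : K →+* Ω) ψ ⟨t, h5⟩ (Wid κ ψ θ D) (Wid κ ψ θ D')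
    (fun s hs => wid_par hs) (fun s hs => wid_par hs) ?_ ?_ ?_ ?_
  · refine ⟨algebraMap _ L (PowerSeries.C x), algebraMap _ L (PowerSeries.C y),
      (algebraMap _ L PowerSeries.X)⁻¹, ?_, ?_, ?_, inv_ne_zero hX0, ?_, ?_⟩
    · rw [sigL_alg, sig_C]
    · rw [sigL_alg, sig_C]
    · rw [map_inv₀, sigL_alg, sig_X, map_neg, inv_neg]
    · exact start_F θ2 θ3 (D2 x) (D2 y) D3 hd0
    · refine Prod.ext h1 (Prod.ext h2 ?_)
      change φ (v 0) = ψ _
      rw [map_inv₀]; exact h3
  · refine ⟨algebraMap _ L (PowerSeries.C x), algebraMap _ L (PowerSeries.C y),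
      algebraMap _ L (PowerSeries.C (-u) * PowerSeries.X), ?_, ?_, ?_, ?_, ?_, ?_⟩
    · rw [sigL_alg, sig_C]
    · rw [sigL_alg, sig_C]
    · rw [sigL_alg, map_mul, sig_C, sig_X, mul_neg, map_neg]
    · rw [map_mul]
      refine mul_ne_zero ?_ hX0
      rw [map_ne_zero_iff _ (IsFractionRing.injective (PowerSeries κ) L)]
      intro h0
      apply hu
      have := congrArg PowerSeries.constantCoeff h0
      rw [PowerSeries.constantCoeff_C, map_zero] at this
      exact neg_eq_zero.1 this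
    · exact start_B θ2 θ3 (D2' x) (D2' y) (D2' (-u)) D3' hd0' (neg_ne_zero.2 hu)
    · refine Prod.ext ?_ (Prod.ext ?_ ?_)
      · change φ (ξ n) = _
        rw [hξn]; exact h1
      · change φ (η n) = _
        rw [hηn]; exact h2
      · change φ (-v (n - 1)) = ψ (algebraMap _ L (PowerSeries.C (-u) * PowerSeries.X))
        rw [map_neg, h4, map_neg, neg_mul, map_neg, map_neg, map_mul, map_mul]
  · intro k hk hs
    have hR := hG k (by omega) (by omega)
    rw [h.xi k, h.eta k] at hR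
    have := letter D D1 hDc _ _ _ _ _ hR hs
    rw [← h.xi k, ← h.eta k] at this
    exact this
  · intro k hjk hkn hs
    obtain ⟨k, rfl⟩ : ∃ k', k = k' + 1 := ⟨k - 1, by omega⟩
    rw [Nat.add_sub_cancel]
    have hR := hG k (by omega) (by omega)
    have e1 : ξ (k + 1) = ξ (k + 1 + 1) + f (k + 1) * (-v (k + 1)) := by
      rw [h.xi (k + 1)]; ring
    have e2 : η (k + 1) = η (k + 1 + 1) + f (k + 1) * (-v (k + 1))⁻¹ := by
      rw [h.eta (k + 1), inv_neg]; ring
    have hR' : RelC (-v (k + 1)) (-v k) (ξ (k + 1)) (η (k + 1)) := by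
      rcases hR with ⟨c, c', r, hr, r1, r2⟩ | ⟨p, q, z, hp, hq, r1, r2⟩
      · exact Or.inl ⟨c, c', r, hr, r1, by rw [← r2]; ring⟩
      · exact Or.inr ⟨p, q, z, hp, hq, r1, by rw [← r2]; ring⟩
    rw [e1, e2] at hR'
    have := letter D' D1' hDc' _ _ _ _ _ hR' hs
    rw [← e1, ← e2] at this
    exact this

theorem no_famC {K : Type} [Field K] [Algebra ℂ K] {Adm : Derivation ℤ K K → Prop}
    {n : ℕ} {ξ η v f : ℕ → K} (h : Fam Adm n ξ η v f)
    {B : Finset ℕ} (hB : B ⊆ Finset.range n) (hc : B.card ≤ 2)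
    (hG : ∀ k, k % n ∉ B → RelC (v k) (v (k + 1)) (ξ (k + 1)) (η (k + 1))) : False :=
  no_fam_of_core h (RelC (K := K)) (fun ξ η v f h j => core_C ξ η v f h j) hB hc hG

end Pool.Agent.H6.Tw
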