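import Pool.Agent.H6.Tw.HSplit
import Pool.Agent.H6.IvA.Elim

/-!
JOB TW-5. A bounce at a generic isotropic line, in Laurent series. (`Ω` is any field over the Laurent series field over `κ`, `κ` algebraically closed; the constants of `ℂ` are compatible: `hψ`.)

`step_plus`: `s = (ξ, η, (X μ)⁻¹)`. The equations of the flight give `η' = η + (ξ' - ξ) X² μ²` (in `Ω`), so `ξ'` is a root of `F(T) = G(T, η + (T - ξ) X² μ²) ∈ κ⟦X⟧[T]`.
* degree: `IsoFree G`: the coefficient of `ξ ^ d` in `G`, `d = totalDegree G`, is a nonzero constant, `F` has degree `≤ d` and its coefficient of `T ^ d` has constant term that number (each `η` contributes a factor `X²`). So `leadingCoeff F` has nonzero constant coefficient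
  (see `natDegree_elE`, `iso_coeff` for the top coefficient).
* reduction: `G(T, y)`, `y = constantCoeff η` transcendental over `ℂ`: separable, because `elim_one` with `H = pderiv 0 G` (`not_dvd_pderiv_zero`) gives `A G + B (pderiv 0 G) = c(η)`, `c(y) ≠ 0`.
* `sig` maps `F` to itself. So `ξ' = ψ z` with `z` even (`hensel_split`, `hensel_even`), `η' = ψ(η + (z - ξ) X² μ²)` even with the same constant coefficient `y` as `η`, and `f = (ξ' - ξ) X μ` is odd.
* `G_ξ(ξ', η')`, `G_η(ξ', η')` are even with nonzero constant coefficient (`elim_one` with `pderiv i G`, evaluated at the constant coefficients: `0 + B H = c(y) ≠ 0`), so `v' = - X μ G_η / G_ξ = X μ'` with `μ'` even, unit.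
* the constant coefficient of `ξ'` is transcendental over `ℂ`: otherwise it is in `ℂ` and `y` is a root of `G(a, T) ∈ ℂ[T]`, which is not zero (`iso_no_line`, or `IsoFree`).
`step_minus`: apply `step_plus` to `sw G` and the swapped data `(η, ξ, v⁻¹)` (`sw_irr`, `sw_iso`, `sw_aeval`; `pderiv` of `sw G`), see `step_minus` in `Pool/Agent/H6/IvA/StepV.lean`.
-/

set_option autoImplicit false

namespace Pool.Agent.H6.Tw

open Pool.Agent.H6.IvA (ev Bounce IsoFree)

variable {κ : Type} [Field κ] [Algebra ℂ κ] {L : Type} [Field L] [Algebra (PowerSeries κ) L]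
  [IsFractionRing (PowerSeries κ) L] {Ω : Type} [Field Ω] [Algebra ℂ Ω]

section core

omit [Algebra ℂ κ] in
theorem sg_sig_C (a : κ) : sig κ (PowerSeries.C a) = PowerSeries.C a := by
  ext n
  unfold sig
  rw [PowerSeries.coeff_rescale, PowerSeries.coeff_C]
  split_ifs with h
  · rw [h, pow_zero, one_mul]
  · rw [mul_zero]

omit [Algebra ℂ κ] in
theorem sg_sig_X : sig κ (PowerSeries.X : PowerSeries κ) = -PowerSeries.X := by
  unfold sig
  exact PowerSeries.rescale_neg_one_X

omit [Algebra ℂ κ] in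
theorem sg_sig_const (a : PowerSeries κ) :
    PowerSeries.constantCoeff (sig κ a) = PowerSeries.constantCoeff a := by
  unfold sig
  rw [← PowerSeries.coeff_zero_eq_constantCoeff_apply, PowerSeries.coeff_rescale, pow_zero,
    one_mul, PowerSeries.coeff_zero_eq_constantCoeff_apply]

/-- `sig` as an algebra homomorphism -/
noncomputable def sgA (κ : Type) [Field κ] [Algebra ℂ κ] : PowerSeries κ →ₐ[ℂ] PowerSeries κ :=
  { sig κ with
    commutes' := fun c => by
      change sig κ (algebraMap ℂ (PowerSeries κ) c) = _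
      rw [PowerSeries.algebraMap_apply, sg_sig_C] }

/-- the constant coefficient as an algebra homomorphism -/
noncomputable def sgK (κ : Type) [Field κ] [Algebra ℂ κ] : PowerSeries κ →ₐ[ℂ] κ :=
  { PowerSeries.constantCoeff (R := κ) with
    commutes' := fun c => by
      change PowerSeries.constantCoeff (algebraMap ℂ (PowerSeries κ) c) = _
      rw [PowerSeries.algebraMap_apply, PowerSeries.constantCoeff_C] }

theorem sg_comp {A B : Type} [CommRing A] [CommRing B] [Algebra ℂ A] [Algebra ℂ B]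
    (φ : A →ₐ[ℂ] B) (u v : A) (P : MvPolynomial (Fin 2) ℂ) :
    φ (MvPolynomial.aeval ![u, v] P) = MvPolynomial.aeval ![φ u, φ v] P := by
  rw [MvPolynomial.comp_aeval_apply]
  congr 2
  funext i
  fin_cases i <;> rfl

/-- the coefficient of `T ^ d` in `G(T, y)` -/
theorem sg_coeff (y : κ) {P : MvPolynomial (Fin 2) ℂ} {d : ℕ} (hd : P.totalDegree ≤ d) :
    (MvPolynomial.aeval ![(Polynomial.X : Polynomial κ), Polynomial.C y] P).coeff d =
      algebraMap ℂ κ (P.coeff (Finsupp.single 0 d)) := by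
  classical
  rw [MvPolynomial.aeval_def, MvPolynomial.eval₂_eq', Polynomial.finsetSum_coeff]
  have hterm : ∀ s ∈ P.support, ((algebraMap ℂ (Polynomial κ)) (P.coeff s) *
      ∏ i, (![(Polynomial.X : Polynomial κ), Polynomial.C y] : Fin 2 → Polynomial κ) i ^ s i).coeff d =
      if s = Finsupp.single 0 d then algebraMap ℂ κ (P.coeff s) else 0 := by
    intro s hs
    have hle : s 0 + s 1 ≤ d := by
      have h := (MvPolynomial.le_totalDegree hs).trans hd
      rw [Finsupp.sum_fintype _ _ (by simp), Fin.sum_univ_two] at h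
      exact h
    rw [Fin.prod_univ_two]
    have h1 : (![(Polynomial.X : Polynomial κ), Polynomial.C y] : Fin 2 → Polynomial κ) 0 =
      Polynomial.X := rfl
    have h2 : (![(Polynomial.X : Polynomial κ), Polynomial.C y] : Fin 2 → Polynomial κ) 1 =
      Polynomial.C y := rfl
    have h3 : (algebraMap ℂ (Polynomial κ)) (P.coeff s) =
      Polynomial.C (algebraMap ℂ κ (P.coeff s)) := rfl
    have h4 : Polynomial.C (algebraMap ℂ κ (P.coeff s)) * (Polynomial.X ^ s 0 *
        Polynomial.C y ^ s 1) =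
      Polynomial.C (algebraMap ℂ κ (P.coeff s) * y ^ s 1) * Polynomial.X ^ s 0 := by
      rw [map_mul, map_pow]; ring
    rw [h1, h2, h3, h4, Polynomial.coeff_C_mul_X_pow]
    by_cases hs0 : s = Finsupp.single 0 d
    · have e0 : s 0 = d := by rw [hs0, Finsupp.single_eq_same]
      have e1 : s 1 = 0 := by rw [hs0, Finsupp.single_eq_of_ne (by decide)]
      rw [if_pos hs0, if_pos e0.symm, e1, pow_zero, mul_one]
    · rw [if_neg hs0, if_neg]
      intro h0
      apply hs0
      ext i
      fin_cases i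
      · simp [h0]
      · have e1 : s 1 = 0 := by omega
        change s 1 = Finsupp.single 0 d 1
        rw [e1, Finsupp.single_eq_of_ne (by decide)]
  rw [Finset.sum_congr rfl hterm, Finset.sum_ite_eq']
  split_ifs with h
  · rfl
  · rw [MvPolynomial.notMem_support_iff.1 h, map_zero]

theorem sg_top {G : MvPolynomial (Fin 2) ℂ} (hirr : Irreducible G) (hiso : IsoFree G) :
    G.coeff (Finsupp.single 0 G.totalDegree) ≠ 0 := by
  have h1 : (![(Polynomial.X : Polynomial ℂ), 0] : Fin 2 → Polynomial ℂ) =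
      fun j => if j = 0 then (Polynomial.X : Polynomial ℂ) else 0 := by
    funext j; fin_cases j <;> simp
  have h2 := hiso.2.1
  rw [h1] at h2
  rw [← IvA.iso_coeff G 0 G.totalDegree, ← h2]
  refine Polynomial.leadingCoeff_ne_zero.2 fun h3 => IvA.totalDegree_ne_zero_of_irr hirr ?_
  rw [← h2, h3, Polynomial.natDegree_zero]

theorem sg_deriv (y : κ) (P : MvPolynomial (Fin 2) ℂ) :
    Polynomial.derivative (MvPolynomial.aeval ![(Polynomial.X : Polynomial κ), Polynomial.C y] P) =
      MvPolynomial.aeval ![(Polynomial.X : Polynomial κ), Polynomial.C y]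
        (MvPolynomial.pderiv 0 P) := by
  induction P using MvPolynomial.induction_on with
  | C a =>
    rw [MvPolynomial.pderiv_C, map_zero, MvPolynomial.aeval_C]
    exact Polynomial.derivative_C
  | add p q hp hq => rw [map_add, map_add, hp, hq, map_add, map_add]
  | mul_X p i hp =>
    have h : Polynomial.derivative (MvPolynomial.aeval
        ![(Polynomial.X : Polynomial κ), Polynomial.C y]
          (MvPolynomial.X i : MvPolynomial (Fin 2) ℂ)) =
        MvPolynomial.aeval ![(Polynomial.X : Polynomial κ), Polynomial.C y]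
          (MvPolynomial.pderiv 0 (MvPolynomial.X i : MvPolynomial (Fin 2) ℂ)) := by
      fin_cases i
      · simp [MvPolynomial.pderiv_X]
      · simp [MvPolynomial.pderiv_X]
    rw [MvPolynomial.pderiv_mul, map_mul, Polynomial.derivative_mul, hp, h, map_add, map_mul,
      map_mul]

/-- a polynomial not divisible by `G` is not zero at a generic point of `G` -/
theorem sg_ne {G H : MvPolynomial (Fin 2) ℂ} (hirr : Irreducible G) (hiso : IsoFree G)
    (hH : ¬ G ∣ H) {x y : κ} (hy : Transcendental ℂ y)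
    (h : MvPolynomial.aeval ![x, y] G = 0) : MvPolynomial.aeval ![x, y] H ≠ 0 := by
  obtain ⟨A, B, c, hc, hAB⟩ := IvA.elim_one hirr hiso hH
  intro h0
  have h1 := congrArg (MvPolynomial.aeval ![x, y]) hAB
  rw [map_add, map_mul, map_mul, h, h0, mul_zero, mul_zero, add_zero,
    ← Polynomial.aeval_algHom_apply, MvPolynomial.aeval_X] at h1
  exact hy ⟨c, hc, h1.symm⟩

theorem sg_sep {G : MvPolynomial (Fin 2) ℂ} (hirr : Irreducible G) (hiso : IsoFree G) {y : κ}
    (hy : Transcendental ℂ y) :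
    (MvPolynomial.aeval ![(Polynomial.X : Polynomial κ), Polynomial.C y] G).Separable := by
  obtain ⟨A, B, c, hc, hAB⟩ := IvA.elim_one hirr hiso (IvA.not_dvd_pderiv_zero hirr hiso)
  have h1 := congrArg (MvPolynomial.aeval ![(Polynomial.X : Polynomial κ), Polynomial.C y]) hAB
  rw [map_add, map_mul, map_mul, ← Polynomial.aeval_algHom_apply, MvPolynomial.aeval_X,
    ← sg_deriv] at h1
  have h2 : Polynomial.aeval ((![(Polynomial.X : Polynomial κ), Polynomial.C y] :
      Fin 2 → Polynomial κ) 1) c = Polynomial.C (Polynomial.aeval y c) := by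
    change Polynomial.aeval (Polynomial.C y) c = _
    have := Polynomial.aeval_algHom_apply (Polynomial.CAlgHom (R := κ) (A := κ) |>.restrictScalars ℂ) y c
    exact this
  rw [h2] at h1
  have hne : Polynomial.aeval y c ≠ 0 := fun h0 => hy ⟨c, hc, h0⟩
  refine ⟨Polynomial.C (Polynomial.aeval y c)⁻¹ * MvPolynomial.aeval ![(Polynomial.X : Polynomial κ), Polynomial.C y] A,
    Polynomial.C (Polynomial.aeval y c)⁻¹ * MvPolynomial.aeval ![(Polynomial.X : Polynomial κ), Polynomial.C y] B, ?_⟩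
  rw [mul_assoc, mul_assoc, ← mul_add, h1, ← map_mul, inv_mul_cancel₀ hne, map_one]

/-- the first coordinate of a generic point is transcendental -/
theorem sg_tr {G : MvPolynomial (Fin 2) ℂ} (hirr : Irreducible G) (hiso : IsoFree G) {x y : κ}
    (hy : Transcendental ℂ y) (h : MvPolynomial.aeval ![x, y] G = 0) : Transcendental ℂ x := by
  intro hx
  have hint : IsIntegral ℂ x := hx.isIntegral
  have hdeg : (minpoly ℂ x).degree = 1 :=
    IsAlgClosed.degree_eq_one_of_irreducible ℂ (minpoly.irreducible hint)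
  obtain ⟨a, ha⟩ := minpoly.mem_range_of_degree_eq_one ℂ x hdeg
  have hne : MvPolynomial.aeval ![Polynomial.C a, (Polynomial.X : Polynomial ℂ)] G ≠ 0 := by
    rw [← IvA.sw_aeval]
    exact IvA.iso_no_line (IvA.sw_irr hirr) (IvA.sw_iso hiso) a
  refine hy ⟨_, hne, ?_⟩
  rw [sg_comp (Polynomial.aeval y), Polynomial.aeval_C, Polynomial.aeval_X, ha, h]

/-- the position of a bounce -/
theorem sg_core [IsAlgClosed κ] (ρ : PowerSeries κ →ₐ[ℂ] Ω) {G : MvPolynomial (Fin 2) ℂ}
    (hirr : Irreducible G) (hiso : IsoFree G) {ξ η m : PowerSeries κ} (hξ : sig κ ξ = ξ)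
    (hη : sig κ η = η) (hm : sig κ m = m) (hm0 : PowerSeries.constantCoeff m = 0)
    (hy : Transcendental ℂ (PowerSeries.constantCoeff η)) {x' y' : Ω}
    (hrel : y' = ρ η + (x' - ρ ξ) * ρ m) (hon : MvPolynomial.aeval ![x', y'] G = 0) :
    ∃ z w : PowerSeries κ, sig κ z = z ∧ sig κ w = w ∧ x' = ρ z ∧ y' = ρ w ∧
      Transcendental ℂ (PowerSeries.constantCoeff z) ∧
      Transcendental ℂ (PowerSeries.constantCoeff w) ∧
      ∀ i, sig κ (MvPolynomial.aeval ![z, w] (MvPolynomial.pderiv i G)) =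
        MvPolynomial.aeval ![z, w] (MvPolynomial.pderiv i G) ∧
        PowerSeries.constantCoeff (MvPolynomial.aeval ![z, w] (MvPolynomial.pderiv i G)) ≠ 0 := by
  set q : Polynomial (PowerSeries κ) :=
    Polynomial.C η + (Polynomial.X - Polynomial.C ξ) * Polynomial.C m with hq
  set F : Polynomial (PowerSeries κ) := MvPolynomial.aeval ![Polynomial.X, q] G with hF
  -- reduction
  have hred : F.map (PowerSeries.constantCoeff (R := κ)) =
      MvPolynomial.aeval ![(Polynomial.X : Polynomial κ),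
        Polynomial.C (PowerSeries.constantCoeff η)] G := by
    have h1 := sg_comp (Polynomial.mapAlgHom (sgK κ)) Polynomial.X q G
    have h2 : ∀ p : Polynomial (PowerSeries κ), Polynomial.mapAlgHom (sgK κ) p =
      p.map (PowerSeries.constantCoeff (R := κ)) := fun p => rfl
    rw [h2, h2, h2, ← hF] at h1
    rw [h1, Polynomial.map_X, hq, Polynomial.map_add, Polynomial.map_mul, Polynomial.map_C,
      Polynomial.map_C, hm0, map_zero, mul_zero, add_zero]
  have hqdeg : q.natDegree ≤ 1 := by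
    rw [hq]
    refine (Polynomial.natDegree_add_le _ _).trans (max_le ?_ ?_)
    · rw [Polynomial.natDegree_C]; exact Nat.zero_le _
    · refine (Polynomial.natDegree_mul_le).trans ?_
      rw [Polynomial.natDegree_C, add_zero, Polynomial.natDegree_X_sub_C]
  have hFdeg : F.natDegree ≤ G.totalDegree := by
    have htd : (MvPolynomial.map (algebraMap ℂ (PowerSeries κ)) G).totalDegree ≤
        G.totalDegree := by
      unfold MvPolynomial.totalDegree
      exact Finset.sup_mono (MvPolynomial.support_map_subset (algebraMap ℂ (PowerSeries κ)) G)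
    have h := MvPolynomial.aeval_natDegree_le (m := G.totalDegree) (n := 1)
      (MvPolynomial.map (algebraMap ℂ (PowerSeries κ)) G) htd
      ![(Polynomial.X : Polynomial (PowerSeries κ)), q]
      (fun i => by
        fin_cases i
        · exact Polynomial.natDegree_X_le
        · exact hqdeg)
    rwa [mul_one, MvPolynomial.aeval_map_algebraMap] at h
  have hcoef : PowerSeries.constantCoeff (F.coeff G.totalDegree) ≠ 0 := by
    have h1 : PowerSeries.constantCoeff (F.coeff G.totalDegree) =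
        (F.map (PowerSeries.constantCoeff (R := κ))).coeff G.totalDegree := by
      rw [Polynomial.coeff_map]
    rw [h1, hred, sg_coeff _ le_rfl]
    exact fun h0 => sg_top hirr hiso ((map_eq_zero _).1 h0)
  have hFeq : F.natDegree = G.totalDegree := by
    refine le_antisymm hFdeg (Polynomial.le_natDegree_of_ne_zero fun h0 => hcoef ?_)
    rw [h0, map_zero]
  have hlead : PowerSeries.constantCoeff F.leadingCoeff ≠ 0 := by
    unfold Polynomial.leadingCoeff
    rw [hFeq]
    exact hcoef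
  have hsep : (F.map (PowerSeries.constantCoeff (R := κ))).Separable := by
    rw [hred]
    exact sg_sep hirr hiso hy
  -- the root
  let E : Polynomial (PowerSeries κ) →ₐ[ℂ] Ω :=
    { Polynomial.eval₂RingHom (ρ : PowerSeries κ →+* Ω) x' with
      commutes' := fun c => by
        change Polynomial.eval₂ (ρ : PowerSeries κ →+* Ω) x' (Polynomial.C (algebraMap ℂ _ c)) = _
        rw [Polynomial.eval₂_C]
        exact ρ.commutes c }
  have hEv : ∀ p, E p = Polynomial.eval₂ (ρ : PowerSeries κ →+* Ω) x' p := fun p => rfl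
  have hroot : F.eval₂ (ρ : PowerSeries κ →+* Ω) x' = 0 := by
    have h1 := sg_comp E Polynomial.X q G
    rw [← hF, hEv, hEv, hEv, Polynomial.eval₂_X] at h1
    have h2 : Polynomial.eval₂ (ρ : PowerSeries κ →+* Ω) x' q = y' := by
      rw [hq, Polynomial.eval₂_add, Polynomial.eval₂_mul, Polynomial.eval₂_sub,
        Polynomial.eval₂_C, Polynomial.eval₂_C, Polynomial.eval₂_C, Polynomial.eval₂_X, hrel]
      rfl
    rw [h1, h2, hon]
  obtain ⟨z, hz, hzx⟩ := hensel_split (ρ : PowerSeries κ →+* Ω) F hlead hsep hroot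
  have hFsig : F.map (sig κ) = F := by
    have h1 := sg_comp (Polynomial.mapAlgHom (sgA κ)) Polynomial.X q G
    have h2 : ∀ p : Polynomial (PowerSeries κ), Polynomial.mapAlgHom (sgA κ) p =
      p.map (sig κ) := fun p => rfl
    rw [h2, h2, h2, ← hF, Polynomial.map_X] at h1
    have h3 : q.map (sig κ) = q := by
      rw [hq, Polynomial.map_add, Polynomial.map_mul, Polynomial.map_sub, Polynomial.map_X,
        Polynomial.map_C, Polynomial.map_C, Polynomial.map_C, hξ, hη, hm]
    rw [h3] at h1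
    exact h1
  have hzs := hensel_even F hFsig hsep hz
  set w : PowerSeries κ := η + (z - ξ) * m with hw
  have hws : sig κ w = w := by
    rw [hw, map_add, map_mul, map_sub, hξ, hη, hm, hzs]
  have hw0 : PowerSeries.constantCoeff w = PowerSeries.constantCoeff η := by
    rw [hw, map_add, map_mul, hm0, mul_zero, add_zero]
  have hxz : x' = ρ z := hzx.symm
  have hyw : y' = ρ w := by
    rw [hrel, hxz, hw, map_add, map_mul, map_sub]
  have hG : MvPolynomial.aeval ![z, w] G = 0 := by
    let E' : Polynomial (PowerSeries κ) →ₐ[ℂ] PowerSeries κ :=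
      (Polynomial.aeval z).restrictScalars ℂ
    have hEv' : ∀ p, E' p = Polynomial.eval z p := fun p => by
      change Polynomial.aeval z p = _
      rw [Polynomial.coe_aeval_eq_eval]
    have h1 := sg_comp E' Polynomial.X q G
    rw [← hF, hEv', hEv', hEv', Polynomial.eval_X, hz] at h1
    have h2 : Polynomial.eval z q = w := by
      rw [hq, hw]
      simp
    rw [h2] at h1
    exact h1.symm
  have hG0 : MvPolynomial.aeval ![PowerSeries.constantCoeff z, PowerSeries.constantCoeff w] G =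
      0 := by
    have h1 := sg_comp (sgK κ) z w G
    rw [hG, map_zero] at h1
    exact h1.symm
  have hyw0 : Transcendental ℂ (PowerSeries.constantCoeff w) := by rw [hw0]; exact hy
  refine ⟨z, w, hzs, hws, hxz, hyw, sg_tr hirr hiso hyw0 hG0, hyw0, fun i => ⟨?_, ?_⟩⟩
  · have h1 := sg_comp (sgA κ) z w (MvPolynomial.pderiv i G)
    have h2 : ∀ a : PowerSeries κ, sgA κ a = sig κ a := fun a => rfl
    rw [h2, h2, h2, hzs, hws] at h1
    exact h1
  · have h1 := sg_comp (sgK κ) z w (MvPolynomial.pderiv i G)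
    have h2 : ∀ a : PowerSeries κ, sgK κ a = PowerSeries.constantCoeff a := fun a => rfl
    rw [h2, h2, h2] at h1
    rw [h1]
    exact sg_ne hirr hiso (IvA.not_dvd_pderiv hirr hiso i) hyw0 hG0

/-- `ψ` on power series as an algebra homomorphism -/
noncomputable def sgR (ψ : L →+* Ω)
    (hψ : ∀ c : ℂ, ψ (algebraMap (PowerSeries κ) L (PowerSeries.C (algebraMap ℂ κ c))) =
      algebraMap ℂ Ω c) : PowerSeries κ →ₐ[ℂ] Ω :=
  { ψ.comp (algebraMap (PowerSeries κ) L) with
    commutes' := fun c => by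
      change ψ (algebraMap (PowerSeries κ) L (algebraMap ℂ (PowerSeries κ) c)) = _
      rw [PowerSeries.algebraMap_apply, hψ] }

omit [Algebra ℂ κ] in
theorem sg_inv {a : PowerSeries κ} (h : sig κ a = a) (h0 : PowerSeries.constantCoeff a ≠ 0) :
    sig κ a⁻¹ = a⁻¹ := by
  have h1 : a * a⁻¹ = 1 := PowerSeries.mul_inv_cancel a h0
  have h2 := congrArg (sig κ) h1
  rw [map_mul, map_one, h] at h2
  have ha : a ≠ 0 := by
    rintro rfl
    exact h0 (map_zero _)
  exact mul_left_cancel₀ ha (h2.trans h1.symm)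

omit [Algebra ℂ κ] in
theorem sg_sq {μ : PowerSeries κ} (hμ : sig κ μ = μ) :
    sig κ ((PowerSeries.X * μ) ^ 2) = (PowerSeries.X * μ) ^ 2 := by
  rw [map_pow, map_mul, sg_sig_X, hμ]
  ring

omit [Algebra ℂ κ] in
theorem sg_sq0 (μ : PowerSeries κ) :
    PowerSeries.constantCoeff ((PowerSeries.X * μ) ^ 2) = 0 := by
  rw [map_pow, map_mul, PowerSeries.constantCoeff_X, zero_mul]
  ring

omit [Algebra ℂ κ] in
theorem sg_odd {z ξ μ : PowerSeries κ} (hz : sig κ z = z) (hξ : sig κ ξ = ξ)
    (hμ : sig κ μ = μ) :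
    sigL κ L (algebraMap (PowerSeries κ) L ((z - ξ) * (PowerSeries.X * μ))) =
      -algebraMap (PowerSeries κ) L ((z - ξ) * (PowerSeries.X * μ)) := by
  rw [sigL_alg, ← map_neg]
  congr 1
  rw [map_mul, map_mul, map_sub, hz, hξ, hμ, sg_sig_X]
  ring

end core

theorem step_plus [IsAlgClosed κ] (ψ : L →+* Ω)
    (hψ : ∀ c : ℂ, ψ (algebraMap (PowerSeries κ) L (PowerSeries.C (algebraMap ℂ κ c))) =
      algebraMap ℂ Ω c)
    {G : MvPolynomial (Fin 2) ℂ} {s s' : Ω × Ω × Ω} {f : Ω} (hs : PlusS κ ψ s)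
    (hb : Bounce G s f s') : MinusS κ ψ s' ∧ OddE κ ψ f := by
  obtain ⟨ξ, η, μ, hξ, hη, hμ, hμ0, hy, rfl⟩ := hs
  set ρ := sgR ψ hψ with hρ
  have hρv : ∀ a, ψ (algebraMap (PowerSeries κ) L a) = ρ a := fun a => rfl
  obtain ⟨x', y', v'⟩ := s'
  have hb1 := hb.xi
  have hb2 := hb.eta
  have hb3 := hb.on
  have hb4 := hb.refl
  have hb0 := hb.v0
  unfold ev at hb3 hb4
  simp only [hρv] at hb0 hb1 hb2 hb3 hb4
  have hV : ρ (PowerSeries.X * μ) ≠ 0 := fun h0 => hb0 (by rw [h0, inv_zero])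
  rw [inv_inv] at hb2
  have hf : f = (x' - ρ ξ) * ρ (PowerSeries.X * μ) := by
    rw [hb1]
    field_simp
    ring
  have hrel : y' = ρ η + (x' - ρ ξ) * ρ ((PowerSeries.X * μ) ^ 2) := by
    rw [hb2, hf, map_pow]
    ring
  obtain ⟨z, w, hz, hw, hxz, hyw, htz, htw, hi⟩ := sg_core ρ hb.irr hb.iso hξ hη (sg_sq hμ)
    (sg_sq0 μ) hy hrel hb3
  obtain ⟨hs0, hc0⟩ := hi 0
  obtain ⟨hs1, hc1⟩ := hi 1
  rw [hxz, hyw, ← sg_comp ρ, ← sg_comp ρ] at hb4
  set g0 := MvPolynomial.aeval ![z, w] (MvPolynomial.pderiv 0 G) with hg0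
  set g1 := MvPolynomial.aeval ![z, w] (MvPolynomial.pderiv 1 G) with hg1
  have hg0i : ρ g0 * ρ g0⁻¹ = 1 := by
    rw [← map_mul, PowerSeries.mul_inv_cancel g0 hc0, map_one]
  have hv' : v' = ρ (PowerSeries.X * (-(g1 * μ * g0⁻¹))) := by
    have e1 : PowerSeries.X * (-(g1 * μ * g0⁻¹)) = -(g1 * (PowerSeries.X * μ) * g0⁻¹) := by ring
    rw [e1, map_neg, map_mul, map_mul]
    have e2 : v' * ρ g0 = -ρ g1 * ρ (PowerSeries.X * μ) := by
      rw [← hb4]
      field_simp
    calc v' = v' * (ρ g0 * ρ g0⁻¹) := by rw [hg0i, mul_one]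
      _ = v' * ρ g0 * ρ g0⁻¹ := by ring
      _ = _ := by rw [e2]; ring
  refine ⟨⟨z, w, -(g1 * μ * g0⁻¹), hz, hw, ?_, ?_, htz, ?_⟩, ?_⟩
  · rw [map_neg, map_mul, map_mul, hs1, hμ, sg_inv hs0 hc0]
  · rw [map_neg, map_mul, map_mul]
    refine neg_ne_zero.2 (mul_ne_zero (mul_ne_zero hc1 hμ0) ?_)
    rw [PowerSeries.constantCoeff_inv]
    exact inv_ne_zero hc0
  · rw [hxz, hyw, hv']
    rfl
  · refine ⟨algebraMap (PowerSeries κ) L ((z - ξ) * (PowerSeries.X * μ)), sg_odd hz hξ hμ, ?_⟩
    rw [hρv, map_mul, map_sub, ← hxz]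
    exact hf

theorem step_minus [IsAlgClosed κ] (ψ : L →+* Ω)
    (hψ : ∀ c : ℂ, ψ (algebraMap (PowerSeries κ) L (PowerSeries.C (algebraMap ℂ κ c))) =
      algebraMap ℂ Ω c)
    {G : MvPolynomial (Fin 2) ℂ} {s s' : Ω × Ω × Ω} {f : Ω} (hs : MinusS κ ψ s)
    (hb : Bounce G s f s') : PlusS κ ψ s' ∧ OddE κ ψ f := by
  obtain ⟨ξ, η, μ, hξ, hη, hμ, hμ0, hy, rfl⟩ := hs
  set ρ := sgR ψ hψ with hρ
  have hρv : ∀ a, ψ (algebraMap (PowerSeries κ) L a) = ρ a := fun a => rfl
  obtain ⟨x', y', v'⟩ := s'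
  have hb1 := hb.xi
  have hb2 := hb.eta
  have hb3 := hb.on
  have hb4 := hb.refl
  have hb0 := hb.v0
  unfold ev at hb3 hb4
  simp only [hρv] at hb0 hb1 hb2 hb3 hb4
  have hV : ρ (PowerSeries.X * μ) ≠ 0 := hb0
  have hf : f = (y' - ρ η) * ρ (PowerSeries.X * μ) := by
    rw [hb2]
    field_simp
    ring
  have hrel : x' = ρ ξ + (y' - ρ η) * ρ ((PowerSeries.X * μ) ^ 2) := by
    rw [hb1, hf, map_pow]
    ring
  have hon : MvPolynomial.aeval ![y', x'] (IvA.sw G) = 0 := by
    rw [IvA.sw_aeval]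
    exact hb3
  obtain ⟨w, z, hw, hz, hyw, hxz, htw, htz, hi⟩ := sg_core ρ (IvA.sw_irr hb.irr)
    (IvA.sw_iso hb.iso) hη hξ (sg_sq hμ) (sg_sq0 μ) hy hrel hon
  have hp0 : MvPolynomial.aeval ![w, z] (MvPolynomial.pderiv 0 (IvA.sw G)) =
      MvPolynomial.aeval ![z, w] (MvPolynomial.pderiv 1 G) := by
    have h2 : IvA.sw (MvPolynomial.pderiv 1 G) = MvPolynomial.pderiv 0 (IvA.sw G) := by
      rw [IvA.sw_eq, IvA.sw_eq]
      have := MvPolynomial.pderiv_rename (Equiv.swap (0 : Fin 2) 1).injective (1 : Fin 2) G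
      rw [Equiv.swap_apply_right] at this
      exact this.symm
    rw [← h2, IvA.sw_aeval]
  have hp1 : MvPolynomial.aeval ![w, z] (MvPolynomial.pderiv 1 (IvA.sw G)) =
      MvPolynomial.aeval ![z, w] (MvPolynomial.pderiv 0 G) := by
    have h2 : IvA.sw (MvPolynomial.pderiv 0 G) = MvPolynomial.pderiv 1 (IvA.sw G) := by
      rw [IvA.sw_eq, IvA.sw_eq]
      have := MvPolynomial.pderiv_rename (Equiv.swap (0 : Fin 2) 1).injective (0 : Fin 2) G
      rw [Equiv.swap_apply_left] at this
      exact this.symm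
    rw [← h2, IvA.sw_aeval]
  obtain ⟨hs1, hc1⟩ := hi 0
  obtain ⟨hs0, hc0⟩ := hi 1
  rw [hp0] at hs1 hc1
  rw [hp1] at hs0 hc0
  rw [hxz, hyw, ← sg_comp ρ, ← sg_comp ρ] at hb4
  set g0 := MvPolynomial.aeval ![z, w] (MvPolynomial.pderiv 0 G) with hg0
  set g1 := MvPolynomial.aeval ![z, w] (MvPolynomial.pderiv 1 G) with hg1
  have hg0n : ρ g0 ≠ 0 := by
    intro h0
    have h1 : ρ g0 * ρ g0⁻¹ = 1 := by
      rw [← map_mul, PowerSeries.mul_inv_cancel g0 hc0, map_one]
    rw [h0, zero_mul] at h1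
    exact zero_ne_one h1
  have hg1i : ρ g1 * ρ g1⁻¹ = 1 := by
    rw [← map_mul, PowerSeries.mul_inv_cancel g1 hc1, map_one]
  have hg1n : ρ g1 ≠ 0 := left_ne_zero_of_mul (by rw [hg1i]; exact one_ne_zero)
  have hv' : v' = (ρ (PowerSeries.X * (-(g0 * μ * g1⁻¹))))⁻¹ := by
    have e1 : PowerSeries.X * (-(g0 * μ * g1⁻¹)) = -(g0 * (PowerSeries.X * μ) * g1⁻¹) := by ring
    rw [e1, map_neg, map_mul, map_mul]
    have e3 : ρ g1⁻¹ = (ρ g1)⁻¹ := eq_inv_of_mul_eq_one_right hg1i
    rw [e3]
    have e2 : v' * (ρ g0 * ρ (PowerSeries.X * μ)) = -ρ g1 := by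
      rw [← hb4]
      ring
    refine eq_inv_of_mul_eq_one_left ?_
    calc v' * -(ρ g0 * ρ (PowerSeries.X * μ) * (ρ g1)⁻¹)
        = -(v' * (ρ g0 * ρ (PowerSeries.X * μ))) * (ρ g1)⁻¹ := by ring
      _ = 1 := by rw [e2, neg_neg, mul_inv_cancel₀ hg1n]
  refine ⟨⟨z, w, -(g0 * μ * g1⁻¹), hz, hw, ?_, ?_, htw, ?_⟩, ?_⟩
  · rw [map_neg, map_mul, map_mul, hs0, hμ, sg_inv hs1 hc1]
  · rw [map_neg, map_mul, map_mul]
    refine neg_ne_zero.2 (mul_ne_zero (mul_ne_zero hc0 hμ0) ?_)
    rw [PowerSeries.constantCoeff_inv]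
    exact inv_ne_zero hc1
  · rw [hxz, hyw, hv']
    rfl
  · refine ⟨algebraMap (PowerSeries κ) L ((w - η) * (PowerSeries.X * μ)), sg_odd hw hη hμ, ?_⟩
    rw [hρv, map_mul, map_sub, ← hyw]
    exact hf

end Pool.Agent.H6.Tw
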