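import Pool.Agent.H6.Tw.ChainT
import Pool.Agent.H6.Tw.StepG

/-!
No family with two free mirrors, the other letters on curves that avoid the circular points.
-/

set_option autoImplicit false

namespace Pool.Agent.H6.Tw

open Pool.Agent.H6.IvA (ev Bounce IsoFree)

theorem two_pos {n : ℕ} (hn : 2 ≤ n) {B : Finset ℕ} (hB : B ⊆ Finset.range n) (hc : B.card ≤ 2) :
    ∃ p j, 0 < j ∧ p + j < n ∧ ∀ k ∈ B, k = p ∨ k = p + j := by
  have hlt : ∀ k ∈ B, k < n := fun k hk => Finset.mem_range.1 (hB hk)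
  rcases Nat.lt_or_ge B.card 2 with h | h
  · rcases B.eq_empty_or_nonempty with rfl | ⟨b, hb⟩
    · exact ⟨0, 1, by omega, by omega, by simp⟩
    · have h1 : ∀ k ∈ B, k = b := fun k hk => Finset.card_le_one.1 (by omega) k hk b hb
      have h2 := hlt b hb
      rcases Nat.eq_zero_or_pos b with rfl | hb0
      · exact ⟨0, 1, by omega, by omega, fun k hk => Or.inl (h1 k hk)⟩
      · exact ⟨0, b, hb0, by omega, fun k hk => Or.inr (by rw [h1 k hk, zero_add])⟩
  · obtain ⟨a, b, hab, rfl⟩ := Finset.card_eq_two.1 (le_antisymm hc h)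
    have ha := hlt a (by simp)
    have hb := hlt b (by simp)
    rcases lt_or_gt_of_ne hab with h1 | h1
    · refine ⟨a, b - a, by omega, by omega, fun k hk => ?_⟩
      simp only [Finset.mem_insert, Finset.mem_singleton] at hk
      omega
    · refine ⟨b, a - b, by omega, by omega, fun k hk => ?_⟩
      simp only [Finset.mem_insert, Finset.mem_singleton] at hk
      omega

theorem Fam.two_le {K : Type} [Field K] [Algebra ℂ K] {Adm : Derivation ℤ K K → Prop}
    {n : ℕ} {ξ η v f : ℕ → K} (h : Fam Adm n ξ η v f) : 2 ≤ n := by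
  by_contra hn
  have h0 := h.n0
  have h1 : n = 1 := by omega
  subst h1
  have h2 := h.xi 0
  rw [h.pξ 0] at h2
  have h3 : f 0 * v 0 = 0 := by linear_combination -h2
  have h4 := (mul_eq_zero.1 h3).resolve_right (h.v0 0)
  apply h.len
  rw [Finset.sum_range_one, h4]

/-- general reduction: after a shift the exceptional letters are at the vertices `0` and `j` -/
theorem no_fam_of_core {K : Type} [Field K] [Algebra ℂ K] {Adm : Derivation ℤ K K → Prop}
    {n : ℕ} {ξ η v f : ℕ → K} (h : Fam Adm n ξ η v f) (R : K → K → K → K → Prop)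
    (core : ∀ ξ η v f : ℕ → K, Fam Adm n ξ η v f → ∀ j, 0 < j → j < n →
      (∀ k, k + 1 < n → k + 1 ≠ j → R (v k) (v (k + 1)) (ξ (k + 1)) (η (k + 1))) → False)
    {B : Finset ℕ} (hB : B ⊆ Finset.range n) (hc : B.card ≤ 2)
    (hR : ∀ k, k % n ∉ B → R (v k) (v (k + 1)) (ξ (k + 1)) (η (k + 1))) : False := by
  obtain ⟨p, j, hj, hpj, hBp⟩ := two_pos h.two_le hB hc
  refine core _ _ _ _ (h.shift (p + 1)) j hj (by omega) fun k hk hkj => ?_
  have h1 := hR (k + (p + 1)) (by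
    intro hmem
    have h2 : (k + (p + 1)) % n = k + (p + 1) ∨ (k + (p + 1)) % n + n = k + (p + 1) := by
      rcases Nat.lt_or_ge (k + (p + 1)) n with h3 | h3
      · exact Or.inl (Nat.mod_eq_of_lt h3)
      · right
        rw [Nat.mod_eq_sub_mod h3, Nat.mod_eq_of_lt (by omega)]
        omega
    rcases hBp _ hmem with h3 | h3 <;> rcases h2 with h2 | h2 <;> omega)
  have e : k + 1 + (p + 1) = k + (p + 1) + 1 := by omega
  rw [e]
  exact h1

theorem ev_hom {K Ω : Type} [Field K] [Algebra ℂ K] [Field Ω] [Algebra ℂ Ω] (φ : K →ₐ[ℂ] Ω)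
    (G : MvPolynomial (Fin 2) ℂ) (a b : K) : ev G (φ a) (φ b) = φ (ev G a b) := by
  unfold ev
  rw [← AlgHom.comp_apply, MvPolynomial.comp_aeval]
  congr 2
  funext i
  fin_cases i <;> rfl

theorem sig_C {κ : Type} [Field κ] (x : κ) : sig κ (PowerSeries.C x) = PowerSeries.C x := by
  unfold sig
  ext m
  rw [PowerSeries.coeff_rescale, PowerSeries.coeff_C]
  split_ifs with h
  · rw [h, pow_zero, one_mul]
  · rw [mul_zero]

theorem sig_X {κ : Type} [Field κ] : sig κ PowerSeries.X = -PowerSeries.X := by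
  unfold sig
  ext m
  rw [PowerSeries.coeff_rescale, PowerSeries.coeff_X, map_neg, PowerSeries.coeff_X]
  split_ifs with h
  · rw [h, pow_one, mul_one]
  · rw [mul_zero, neg_zero]

/-- the letter relation for curves avoiding the circular points -/
def RelG {K : Type} [Field K] [Algebra ℂ K] (v v' ξ η : K) : Prop :=
  ∃ G : MvPolynomial (Fin 2) ℂ, Irreducible G ∧ IsoFree G ∧ ev G ξ η = 0 ∧
    v * v' * ev (MvPolynomial.pderiv 0 G) ξ η = -ev (MvPolynomial.pderiv 1 G) ξ η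

theorem core_G {K : Type} [Field K] [Algebra ℂ K] {Adm : Derivation ℤ K K → Prop}
    {n : ℕ} (ξ η v f : ℕ → K) (h : Fam Adm n ξ η v f) (j : ℕ) (hj0 : 0 < j) (hjn : j < n)
    (hG : ∀ k, k + 1 < n → k + 1 ≠ j → RelG (v k) (v (k + 1)) (ξ (k + 1)) (η (k + 1))) :
    False := by
  have hξn : ξ n = ξ 0 := by have := h.pξ 0; rwa [zero_add] at this
  have hηn : η n = η 0 := by have := h.pη 0; rwa [zero_add] at this
  obtain ⟨κ, _, _, _, L, _, _, _, Ω, _, _, φ, ψ, x, y, u, t, hψ, hx, hy, hu, h1, h2, h3, h4, h5⟩ :=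
    setup h
  have : CharZero κ := charZero_of_injective_algebraMap (algebraMap ℂ κ).injective
  refine core_chain h hj0 hjn (φ : K →+* Ω) ψ ⟨t, h5⟩ (fun s => PlusS κ ψ s ∨ MinusS κ ψ s)
    (fun s => PlusS κ ψ s ∨ MinusS κ ψ s) (fun s hs => ?_) (fun s hs => ?_) ?_ ?_ ?_ ?_
  · rcases hs with hs | hs
    exacts [par_of_plus hs, par_of_minus hs]
  · rcases hs with hs | hs
    exacts [par_of_plus hs, par_of_minus hs]
  · left
    refine ⟨PowerSeries.C x, PowerSeries.C y, 1, sig_C x, sig_C y, map_one _, ?_, ?_, ?_⟩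
    · rw [map_one]; exact one_ne_zero
    · rw [PowerSeries.constantCoeff_C]; exact hy
    · rw [mul_one]
      exact Prod.ext h1 (Prod.ext h2 h3)
  · right
    refine ⟨PowerSeries.C x, PowerSeries.C y, PowerSeries.C (-u), sig_C x, sig_C y, sig_C _, ?_, ?_, ?_⟩
    · rw [PowerSeries.constantCoeff_C]; exact neg_ne_zero.2 hu
    · rw [PowerSeries.constantCoeff_C]; exact hx
    · refine Prod.ext ?_ (Prod.ext ?_ ?_)
      · change φ (ξ n) = _
        rw [hξn]; exact h1
      · change φ (η n) = _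
        rw [hηn]; exact h2
      · change φ (-v (n - 1)) = _
        rw [map_neg, h4, map_neg, mul_neg, map_neg, map_neg, map_mul, map_mul, mul_comm]
  · intro k hk hs
    obtain ⟨G, g1, g2, g3, g4⟩ := hG k (by omega) (by omega)
    have hb : Bounce G (φ (ξ k), φ (η k), φ (v k)) (φ (f k))
        (φ (ξ (k + 1)), φ (η (k + 1)), φ (v (k + 1))) := by
      refine ⟨g1, g2, ?_, ?_, ?_, ?_, ?_⟩
      · change φ (v k) ≠ 0
        rw [map_ne_zero]; exact h.v0 k
      · change φ (ξ (k + 1)) = φ (ξ k) + φ (f k) * φ (v k)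
        rw [h.xi k, map_add, map_mul]
      · change φ (η (k + 1)) = φ (η k) + φ (f k) * (φ (v k))⁻¹
        rw [h.eta k, map_add, map_mul, map_inv₀]
      · change ev G (φ (ξ (k + 1))) (φ (η (k + 1))) = 0
        rw [ev_hom, g3, map_zero]
      · change φ (v k) * φ (v (k + 1)) * ev _ (φ (ξ (k + 1))) (φ (η (k + 1))) =
          -ev _ (φ (ξ (k + 1))) (φ (η (k + 1)))
        rw [ev_hom, ev_hom, ← map_mul, ← map_mul, g4, map_neg]
    rcases hs with hs | hs
    · obtain ⟨h6, h7⟩ := step_plus ψ hψ hs hb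
      exact ⟨Or.inr h6, h7⟩
    · obtain ⟨h6, h7⟩ := step_minus ψ hψ hs hb
      exact ⟨Or.inl h6, h7⟩
  · intro k hjk hkn hs
    obtain ⟨k, rfl⟩ : ∃ k', k = k' + 1 := ⟨k - 1, by omega⟩
    rw [Nat.add_sub_cancel]
    obtain ⟨G, g1, g2, g3, g4⟩ := hG k (by omega) (by omega)
    have hb : Bounce G (φ (ξ (k + 1 + 1)), φ (η (k + 1 + 1)), φ (-v (k + 1))) (φ (f (k + 1)))
        (φ (ξ (k + 1)), φ (η (k + 1)), φ (-v k)) := by
      refine ⟨g1, g2, ?_, ?_, ?_, ?_, ?_⟩
      · change φ (-v (k + 1)) ≠ 0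
        rw [map_ne_zero]; exact neg_ne_zero.2 (h.v0 _)
      · change φ (ξ (k + 1)) = φ (ξ (k + 1 + 1)) + φ (f (k + 1)) * φ (-v (k + 1))
        rw [h.xi (k + 1), map_add, map_mul, map_neg]; ring
      · change φ (η (k + 1)) = φ (η (k + 1 + 1)) + φ (f (k + 1)) * (φ (-v (k + 1)))⁻¹
        rw [h.eta (k + 1), map_add, map_mul, map_inv₀, map_neg, inv_neg]; ring
      · change ev G (φ (ξ (k + 1))) (φ (η (k + 1))) = 0
        rw [ev_hom, g3, map_zero]
      · change φ (-v (k + 1)) * φ (-v k) * ev _ (φ (ξ (k + 1))) (φ (η (k + 1))) =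
          -ev _ (φ (ξ (k + 1))) (φ (η (k + 1)))
        rw [ev_hom, ev_hom, ← map_mul, ← map_mul, ← map_neg, ← g4]
        congr 1
        ring
    rcases hs with hs | hs
    · obtain ⟨h6, h7⟩ := step_plus ψ hψ hs hb
      exact ⟨Or.inr h6, h7⟩
    · obtain ⟨h6, h7⟩ := step_minus ψ hψ hs hb
      exact ⟨Or.inl h6, h7⟩

theorem no_famG {K : Type} [Field K] [Algebra ℂ K] {Adm : Derivation ℤ K K → Prop}
    {n : ℕ} {ξ η v f : ℕ → K} (h : Fam Adm n ξ η v f)
    {B : Finset ℕ} (hB : B ⊆ Finset.range n) (hc : B.card ≤ 2)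
    (hG : ∀ k, k % n ∉ B → RelG (v k) (v (k + 1)) (ξ (k + 1)) (η (k + 1))) : False :=
  no_fam_of_core h (RelG (K := K)) (fun ξ η v f h j => core_G ξ η v f h j) hB hc hG

end Pool.Agent.H6.Tw
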