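import Pool.Agent.H6.IvA.Defs
import Pool.Agent.H6.Sm.Defs

/-!
Closed orbits with at most two reflections off a class of algebraic arcs (MP_ac23f1_an): definitions.

Coordinates `ξ = x + i y`, `η = x - i y`, direction `v` (`v⁻¹` its conjugate).
-/

set_option autoImplicit false

namespace Pool.Agent.H6.Tw

open Pool.Agent.H6.IvA (ev Bounce IsoFree)

section field

variable {K : Type} [Field K]

/-- normal displacement of the line with point `(ξ, η)` and direction `v` -/
def jj (D : Derivation ℤ K K) (ξ η v : K) : K := D ξ * v⁻¹ - D η * v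

/-- rotation of the line -/
def oo (D : Derivation ℤ K K) (v : K) : K := D v * v⁻¹

/-- the area form -/
def wr (D D' : Derivation ℤ K K) (ξ η v : K) : K :=
  jj D ξ η v * oo D' v - jj D' ξ η v * oo D v

/-- a two-parameter family of closed orbits: points `(ξ k, η k)`, directions `v k`, flights `f k` from the point `k` to the
point `k + 1`; `Adm` are the derivations of the family -/
structure Fam [Algebra ℂ K] (Adm : Derivation ℤ K K → Prop) (n : ℕ) (ξ η v f : ℕ → K) : Prop where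
  n0 : 0 < n
  pξ : ∀ k, ξ (k + n) = ξ k
  pη : ∀ k, η (k + n) = η k
  pv : ∀ k, v (k + n) = v k
  pf : ∀ k, f (k + n) = f k
  v0 : ∀ k, v k ≠ 0
  xi : ∀ k, ξ (k + 1) = ξ k + f k * v k
  eta : ∀ k, η (k + 1) = η k + f k * (v k)⁻¹
  tan : ∀ k D, Adm D → D (ξ (k + 1)) = v k * v (k + 1) * D (η (k + 1))
  cur : ∀ k, ∃ c, ∀ D, Adm D → D (v k * v (k + 1)) = c * D (η (k + 1))
  nt : ∀ k, v (k + 1) ≠ v k
  comb : ∀ (a b : K) (D D' : Derivation ℤ K K), Adm D → Adm D' → Adm (a • D + b • D')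
  con : ∀ D, Adm D → ∀ c : ℂ, D (algebraMap ℂ K c) = 0
  ind : ∃ D D', Adm D ∧ Adm D' ∧ wr D D' (ξ 0) (η 0) (v 0) ≠ 0
  len : ∑ k ∈ Finset.range n, f k ≠ 0

end field

section series

variable (κ : Type) [Field κ]

/-- `X ↦ -X` on power series -/
noncomputable def sig : PowerSeries κ →+* PowerSeries κ := PowerSeries.rescale (-1)

theorem sig_sig (a : PowerSeries κ) : sig κ (sig κ a) = a := by
  unfold sig
  rw [PowerSeries.rescale_rescale]
  simp

theorem sig_inj : Function.Injective (sig κ) := fun a b h => by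
  rw [← sig_sig κ a, h, sig_sig]

variable (L : Type) [Field L] [Algebra (PowerSeries κ) L] [IsFractionRing (PowerSeries κ) L]

/-- `X ↦ -X` on Laurent series (`L` is a fraction field of the power series) -/
noncomputable def sigL : L →+* L :=
  IsFractionRing.map (A := PowerSeries κ) (B := PowerSeries κ) (sig_inj κ)

theorem sigL_alg (a : PowerSeries κ) :
    sigL κ L (algebraMap (PowerSeries κ) L a) = algebraMap (PowerSeries κ) L (sig κ a) := by
  unfold sigL IsFractionRing.map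
  exact IsLocalization.map_eq _ _

variable {L} {Ω : Type} [Field Ω]

/-- even coordinates, odd direction -/
def Par (ψ : L →+* Ω) (s : Ω × Ω × Ω) : Prop :=
  ∃ ξ η v : L, sigL κ L ξ = ξ ∧ sigL κ L η = η ∧ sigL κ L v = -v ∧ v ≠ 0 ∧
    s = (ψ ξ, ψ η, ψ v)

/-- an odd element -/
def OddE (ψ : L →+* Ω) (f : Ω) : Prop :=
  ∃ z : L, sigL κ L z = -z ∧ f = ψ z

variable [Algebra ℂ κ]

/-- a generic isotropic line of the first kind: `v = (X μ)⁻¹`, `μ` a unit -/
def PlusS (ψ : L →+* Ω) (s : Ω × Ω × Ω) : Prop :=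
  ∃ ξ η μ : PowerSeries κ, sig κ ξ = ξ ∧ sig κ η = η ∧ sig κ μ = μ ∧
    PowerSeries.constantCoeff μ ≠ 0 ∧ Transcendental ℂ (PowerSeries.constantCoeff η) ∧
    s = (ψ (algebraMap _ L ξ), ψ (algebraMap _ L η), (ψ (algebraMap _ L (PowerSeries.X * μ)))⁻¹)

/-- a generic isotropic line of the second kind: `v = X μ`, `μ` a unit -/
def MinusS (ψ : L →+* Ω) (s : Ω × Ω × Ω) : Prop :=
  ∃ ξ η μ : PowerSeries κ, sig κ ξ = ξ ∧ sig κ η = η ∧ sig κ μ = μ ∧
    PowerSeries.constantCoeff μ ≠ 0 ∧ Transcendental ℂ (PowerSeries.constantCoeff ξ) ∧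
    s = (ψ (algebraMap _ L ξ), ψ (algebraMap _ L η), ψ (algebraMap _ L (PowerSeries.X * μ)))

end series

end Pool.Agent.H6.Tw
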