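import Pool.Agent.H6.Tw.Wr

/-!
JOB TW-6. The total length is odd, and constant.

`par_of_plus`, `par_of_minus`: unfold; `sigL_alg`, `sig κ (X μ) = - X μ` (`sig κ X = - X`), inverses.
`odd_meet`: the two lines `(ξ, η) + f (v, v⁻¹)` and `(ξ', η') + f' (v', v'⁻¹)` meet: `f = ((ξ' - ξ) v'⁻¹ - (η' - η) v') * (v v' / (v ^ 2 - v' ^ 2))`, first factor odd, second even. (`v ^ 2 ≠ v' ^ 2`; the preimages under the injective `ψ`.)
`final_parity`: the flights `f k`, `k + 1 < j` and `j < k` are odd by hypothesis; `f (j-1)` is odd by `odd_meet` with the states `j - 1` (direction `v (j-1)`) and `j + 1` (direction `- v j`, flight `f j` back to the point `j`: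
`ξ j = ξ (j+1) + f j * (- v j)`), `f j` is odd by the same lemma with the roles exchanged; `v (j-1) ^ 2 ≠ v j ^ 2` by `Fam.nt`, `Fam.noflip`. So `φ (∑ f) = ψ z`, `sigL z = - z`; also `= ψ (C c)`; `ψ` is injective, so `z = C c` is fixed by `sigL`, `2 z = 0`,
`z = 0` (characteristic `0`), against `Fam.len`.
-/

set_option autoImplicit false

namespace Pool.Agent.H6.Tw

variable {κ : Type} [Field κ] {L : Type} [Field L] [Algebra (PowerSeries κ) L]
  [IsFractionRing (PowerSeries κ) L] {Ω : Type} [Field Ω]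

theorem fin_sig_Xmul {μ : PowerSeries κ} (h : sig κ μ = μ) :
    sig κ (PowerSeries.X * μ) = -(PowerSeries.X * μ) := by
  rw [map_mul, h]
  unfold sig
  rw [PowerSeries.rescale_X, map_neg, map_one]
  ring

theorem fin_sigL_Xmul {μ : PowerSeries κ} (h : sig κ μ = μ) :
    sigL κ L (algebraMap _ L (PowerSeries.X * μ)) = -(algebraMap _ L (PowerSeries.X * μ)) := by
  rw [sigL_alg, fin_sig_Xmul h, map_neg]

theorem fin_Xmul_ne {μ : PowerSeries κ} (h : PowerSeries.constantCoeff μ ≠ 0) :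
    algebraMap _ L (PowerSeries.X * μ) ≠ 0 := by
  have h1 : (PowerSeries.X * μ : PowerSeries κ) ≠ 0 := by
    refine mul_ne_zero PowerSeries.X_ne_zero ?_
    rintro rfl
    exact h (map_zero _)
  rwa [Ne, IsFractionRing.to_map_eq_zero_iff]

theorem fin_odd_zero (ψ : L →+* Ω) : OddE κ ψ 0 :=
  ⟨0, by rw [map_zero, neg_zero], (map_zero ψ).symm⟩

theorem fin_odd_add {ψ : L →+* Ω} {a b : Ω} (ha : OddE κ ψ a) (hb : OddE κ ψ b) :
    OddE κ ψ (a + b) := by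
  obtain ⟨z, hz, rfl⟩ := ha
  obtain ⟨w, hw, rfl⟩ := hb
  exact ⟨z + w, by rw [map_add, hz, hw, neg_add], (map_add ψ z w).symm⟩

theorem fin_odd_sum {ψ : L →+* Ω} (g : ℕ → Ω) (n : ℕ) (h : ∀ k < n, OddE κ ψ (g k)) :
    OddE κ ψ (∑ k ∈ Finset.range n, g k) := by
  induction n with
  | zero => exact fin_odd_zero ψ
  | succ n ih =>
    rw [Finset.sum_range_succ]
    exact fin_odd_add (ih fun k hk => h k (by omega)) (h n (by omega))

theorem par_of_plus [Algebra ℂ κ] {ψ : L →+* Ω} {s : Ω × Ω × Ω} (h : PlusS κ ψ s) :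
    Par κ ψ s := by
  obtain ⟨ξ, η, μ, hξ, hη, hμ, hμ0, -, rfl⟩ := h
  refine ⟨algebraMap _ L ξ, algebraMap _ L η, (algebraMap _ L (PowerSeries.X * μ))⁻¹, ?_, ?_, ?_,
    inv_ne_zero (fin_Xmul_ne hμ0), ?_⟩
  · rw [sigL_alg, hξ]
  · rw [sigL_alg, hη]
  · rw [map_inv₀, fin_sigL_Xmul hμ, inv_neg]
  · rw [map_inv₀]

theorem par_of_minus [Algebra ℂ κ] {ψ : L →+* Ω} {s : Ω × Ω × Ω} (h : MinusS κ ψ s) :
    Par κ ψ s := by
  obtain ⟨ξ, η, μ, hξ, hη, hμ, hμ0, -, rfl⟩ := h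
  refine ⟨algebraMap _ L ξ, algebraMap _ L η, algebraMap _ L (PowerSeries.X * μ), ?_, ?_, ?_,
    fin_Xmul_ne hμ0, rfl⟩
  · rw [sigL_alg, hξ]
  · rw [sigL_alg, hη]
  · exact fin_sigL_Xmul hμ

theorem odd_meet (ψ : L →+* Ω) {ξ η v ξ' η' v' f f' : Ω}
    (h : Par κ ψ (ξ, η, v)) (h' : Par κ ψ (ξ', η', v')) (hv : v ^ 2 ≠ v' ^ 2)
    (h1 : ξ + f * v = ξ' + f' * v') (h2 : η + f * v⁻¹ = η' + f' * v'⁻¹) : OddE κ ψ f := by
  obtain ⟨x, y, w, hx, hy, hw, hw0, hs⟩ := h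
  obtain ⟨x', y', w', hx', hy', hw', hw0', hs'⟩ := h'
  simp only [Prod.mk.injEq] at hs hs'
  obtain ⟨rfl, rfl, rfl⟩ := hs
  obtain ⟨rfl, rfl, rfl⟩ := hs'
  refine ⟨((x' - x) * w'⁻¹ - (y' - y) * w') * (w * w' / (w ^ 2 - w' ^ 2)), ?_, ?_⟩
  · simp only [map_mul, map_sub, map_inv₀, map_div₀, map_pow, hx, hy, hw, hx', hy', hw']
    rw [neg_sq, neg_sq, inv_neg]
    ring
  · have hv0 : ψ w ≠ 0 := (map_ne_zero ψ).2 hw0
    have hv0' : ψ w' ≠ 0 := (map_ne_zero ψ).2 hw0'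
    have hd : ψ w ^ 2 - ψ w' ^ 2 ≠ 0 := sub_ne_zero.2 hv
    simp only [map_mul, map_sub, map_inv₀, map_div₀, map_pow]
    have e1 : ψ x' - ψ x = f * ψ w - f' * ψ w' := by linear_combination -h1
    have e2 : ψ y' - ψ y = f * (ψ w)⁻¹ - f' * (ψ w')⁻¹ := by linear_combination -h2
    rw [e1, e2]
    have e3 : (f * ψ w - f' * ψ w') * (ψ w')⁻¹ - (f * (ψ w)⁻¹ - f' * (ψ w')⁻¹) * ψ w' =
        f * ((ψ w ^ 2 - ψ w' ^ 2) / (ψ w * ψ w')) := by
      field_simp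
      ring
    rw [e3, mul_assoc, div_mul_div_comm, mul_comm (ψ w ^ 2 - ψ w' ^ 2), div_self, mul_one]
    exact mul_ne_zero (mul_ne_zero hv0 hv0') hd

theorem final_parity [CharZero κ] {K : Type} [Field K] [Algebra ℂ K] {Adm : Derivation ℤ K K → Prop}
    {n : ℕ} {ξ η v f : ℕ → K} (h : Fam Adm n ξ η v f) {j : ℕ} (hj0 : 0 < j) (hjn : j < n)
    (φ : K →+* Ω) (ψ : L →+* Ω)
    (hT : ∃ c : κ, φ (∑ k ∈ Finset.range n, f k) =
      ψ (algebraMap (PowerSeries κ) L (PowerSeries.C c)))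
    (hF : ∀ k, k < j → Par κ ψ (φ (ξ k), φ (η k), φ (v k)))
    (hf : ∀ k, k + 1 < j → OddE κ ψ (φ (f k)))
    (hB : ∀ k, j ≤ k → k < n → Par κ ψ (φ (ξ (k + 1)), φ (η (k + 1)), φ (-v k)))
    (hfB : ∀ k, j < k → k < n → OddE κ ψ (φ (f k))) : False := by
  obtain ⟨i, rfl⟩ : ∃ i, j = i + 1 := ⟨j - 1, by omega⟩
  have hP1 := hF i (by omega)
  have hP2 := hB (i + 1) le_rfl hjn
  have hsq : φ (v i) ^ 2 ≠ φ (-v (i + 1)) ^ 2 := by
    rw [map_neg, neg_sq, ← map_pow, ← map_pow]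
    intro h3
    have h4 := φ.injective h3
    rcases sq_eq_sq_iff_eq_or_eq_neg.1 h4 with h5 | h5
    · exact h.nt i h5.symm
    · exact h.noflip i (by rw [h5, neg_neg])
  have e1 : φ (ξ i) + φ (f i) * φ (v i) = φ (ξ (i + 1 + 1)) + φ (f (i + 1)) * φ (-v (i + 1)) := by
    rw [← map_mul, ← map_add, ← map_mul, ← map_add]
    congr 1
    rw [h.xi (i + 1), h.xi i]
    ring
  have e2 : φ (η i) + φ (f i) * (φ (v i))⁻¹ =
      φ (η (i + 1 + 1)) + φ (f (i + 1)) * (φ (-v (i + 1)))⁻¹ := by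
    rw [← map_inv₀, ← map_inv₀, ← map_mul, ← map_add, ← map_mul, ← map_add]
    congr 1
    rw [h.eta (i + 1), h.eta i, inv_neg]
    ring
  have hf1 : OddE κ ψ (φ (f i)) := odd_meet ψ hP1 hP2 hsq e1 e2
  have hf2 : OddE κ ψ (φ (f (i + 1))) := odd_meet ψ hP2 hP1 hsq.symm e1.symm e2.symm
  have hall : ∀ k < n, OddE κ ψ (φ (f k)) := by
    intro k hk
    rcases lt_trichotomy k (i + 1) with h3 | h3 | h3
    · rcases Nat.lt_or_ge k i with h4 | h4
      · exact hf k (by omega)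
      · have : k = i := by omega
        rw [this]
        exact hf1
    · rw [h3]
      exact hf2
    · exact hfB k h3 hk
  obtain ⟨z, hz, hz2⟩ := fin_odd_sum (fun k => φ (f k)) n hall
  obtain ⟨c, hc⟩ := hT
  rw [map_sum] at hc
  rw [hc] at hz2
  have h5 := ψ.injective hz2
  rw [← h5, sigL_alg] at hz
  have h6 : sig κ (PowerSeries.C c) = PowerSeries.C c := by
    unfold sig
    ext m
    rw [PowerSeries.coeff_rescale, PowerSeries.coeff_C]
    by_cases hm : m = 0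
    · rw [hm, pow_zero, one_mul]
    · rw [if_neg hm, mul_zero]
  rw [h6, ← map_neg, ← map_neg] at hz
  have h7 := IsFractionRing.injective (PowerSeries κ) L hz
  have h8 : c = -c := PowerSeries.C_injective h7
  have h9 : c = 0 := self_eq_neg.1 h8
  apply h.len
  apply φ.injective
  rw [map_zero, map_sum, hc, h9, map_zero, map_zero, map_zero]

end Pool.Agent.H6.Tw
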