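import Pool.Agent.H6.Tw.Defs

/-!
JOB TW-4. Hensel: a polynomial over `κ⟦X⟧` with unit leading coefficient and separable reduction splits over `κ⟦X⟧`.

Divide by the leading coefficient (`PowerSeries.isUnit_iff_constantCoeff`), so `F` monic of degree `d`. The reduction `F.map constantCoeff` is monic of degree `d` and separable over the algebraically closed `κ`: it has `d` distinct roots `r_1, ..., r_d`.
Each lifts to a root `z_i` of `F` with `constantCoeff z_i = r_i` (`HenselianRing.is_henselian` with `I = Ideal.span {X}`; see `exists_root` in `Pool/Agent/H6/Ivrii/Hens.lean`). The `z_i` are distinct, so `F = ∏ (T - z_i)`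
(a monic polynomial of degree `d` over a domain with `d` distinct roots), and a root `ω` of `F` in `Ω` is some `ψ z_i`.
`hensel_even`: `sig κ z` is again a root of `F` (apply `sig κ` to `F.eval z = 0`), and `constantCoeff (sig κ z) = constantCoeff z`; two roots `z ≠ z'` of `F` in `κ⟦X⟧` with the same constant coefficient are impossible: write `F = (T - z) (T - z') H`,
then the reduction has a double root.

Status: complete (helper26).
-/

set_option autoImplicit false

namespace Pool.Agent.H6.Tw

variable {κ : Type} [Field κ]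

theorem HSplit_cc_eval (F : Polynomial (PowerSeries κ)) (z : PowerSeries κ) :
    PowerSeries.constantCoeff (F.eval z) =
      (F.map (PowerSeries.constantCoeff (R := κ))).eval (PowerSeries.constantCoeff z) := by
  rw [Polynomial.eval_map, Polynomial.eval₂_at_apply]

theorem HSplit_root (G : Polynomial (PowerSeries κ)) (hG : G.Monic)
    (hsep : (G.map (PowerSeries.constantCoeff (R := κ))).Separable) {r : κ}
    (hr : (G.map (PowerSeries.constantCoeff (R := κ))).eval r = 0) :
    ∃ z : PowerSeries κ, G.eval z = 0 ∧ PowerSeries.constantCoeff z = r := by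
  have h1 : G.eval (PowerSeries.C r) ∈ Ideal.span {(PowerSeries.X : PowerSeries κ)} := by
    rw [Ideal.mem_span_singleton, PowerSeries.X_dvd_iff, HSplit_cc_eval,
      PowerSeries.constantCoeff_C, hr]
  have h2 : IsUnit (Ideal.Quotient.mk (Ideal.span {(PowerSeries.X : PowerSeries κ)})
      (G.derivative.eval (PowerSeries.C r))) := by
    refine IsUnit.map _ ?_
    rw [PowerSeries.isUnit_iff_constantCoeff, isUnit_iff_ne_zero, HSplit_cc_eval,
      PowerSeries.constantCoeff_C, ← Polynomial.derivative_map]
    have h3 := hsep.eval₂_derivative_ne_zero (RingHom.id κ) (x := r)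
      (by rw [← Polynomial.eval_map, Polynomial.map_id]; exact hr)
    rwa [← Polynomial.eval_map, Polynomial.map_id] at h3
  obtain ⟨w, hw, hwb⟩ := HenselianRing.is_henselian
    (I := Ideal.span {(PowerSeries.X : PowerSeries κ)}) G hG _ h1 h2
  refine ⟨w, hw, ?_⟩
  rw [Ideal.mem_span_singleton, PowerSeries.X_dvd_iff, map_sub, PowerSeries.constantCoeff_C,
    sub_eq_zero] at hwb
  exact hwb

theorem hensel_split [IsAlgClosed κ] {Ω : Type} [Field Ω] (ψ : PowerSeries κ →+* Ω)
    (F : Polynomial (PowerSeries κ))
    (hlead : PowerSeries.constantCoeff F.leadingCoeff ≠ 0)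
    (hsep : (F.map (PowerSeries.constantCoeff (R := κ))).Separable) {ω : Ω}
    (hω : F.eval₂ ψ ω = 0) : ∃ z : PowerSeries κ, F.eval z = 0 ∧ ψ z = ω := by
  classical
  have hu : IsUnit F.leadingCoeff := by
    rw [PowerSeries.isUnit_iff_constantCoeff, isUnit_iff_ne_zero]
    exact hlead
  obtain ⟨b, hb⟩ := hu.exists_left_inv
  set G : Polynomial (PowerSeries κ) := Polynomial.C b * F with hGdef
  have hG : G.Monic := Polynomial.monic_C_mul_of_mul_leadingCoeff_eq_one hb
  have hbu : IsUnit b := IsUnit.of_mul_eq_one _ hb
  have hcb : PowerSeries.constantCoeff b ≠ 0 := by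
    have := (PowerSeries.isUnit_iff_constantCoeff.mp hbu).ne_zero
    exact this
  have hmap : G.map (PowerSeries.constantCoeff (R := κ)) =
      Polynomial.C (PowerSeries.constantCoeff b) * F.map (PowerSeries.constantCoeff (R := κ)) := by
    rw [hGdef, Polynomial.map_mul, Polynomial.map_C]
  have hsepG : (G.map (PowerSeries.constantCoeff (R := κ))).Separable := by
    rw [hmap]
    exact hsep.unit_mul (Polynomial.isUnit_C.mpr (isUnit_iff_ne_zero.mpr hcb))
  set g := G.map (PowerSeries.constantCoeff (R := κ)) with hg
  have hgm : g.Monic := hG.map _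
  have hdeg : g.natDegree = G.natDegree := hG.natDegree_map _
  have hcard : Multiset.card g.roots = g.natDegree :=
    (IsAlgClosed.splits g).natDegree_eq_card_roots.symm
  have hnod : g.roots.Nodup := Polynomial.nodup_roots hsepG
  have hex : ∀ r : κ, r ∈ g.roots → ∃ z : PowerSeries κ, G.eval z = 0 ∧
      PowerSeries.constantCoeff z = r := by
    intro r hr
    exact HSplit_root G hG hsepG (Polynomial.isRoot_of_mem_roots hr)
  choose! z hz hzc using hex
  have hdvd : ((g.roots.map z).map fun a => Polynomial.X - Polynomial.C a).prod ∣ G := by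
    rw [Multiset.prod_X_sub_C_dvd_iff_le_roots hG.ne_zero, Multiset.le_iff_subset]
    · intro a ha
      obtain ⟨r, hr, rfl⟩ := Multiset.mem_map.mp ha
      exact (Polynomial.mem_roots hG.ne_zero).mpr (hz r hr)
    · refine hnod.map_on ?_
      intro x hx y hy hxy
      rw [← hzc x hx, ← hzc y hy, hxy]
  have hPm : (((g.roots.map z).map fun a => Polynomial.X - Polynomial.C a).prod).Monic :=
    Polynomial.monic_multiset_prod_of_monic _ _ fun a _ => Polynomial.monic_X_sub_C a
  have hPd : (((g.roots.map z).map fun a => Polynomial.X - Polynomial.C a).prod).natDegree =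
      G.natDegree := by
    rw [Polynomial.natDegree_multiset_prod_X_sub_C_eq_card, Multiset.card_map, hcard, hdeg]
  have hGP := Polynomial.eq_of_monic_of_dvd_of_natDegree_le hPm hG hdvd hPd.ge
  have hGω : G.eval₂ ψ ω = 0 := by
    rw [hGdef, Polynomial.eval₂_mul, hω, mul_zero]
  rw [hGP, Multiset.map_map, ← Polynomial.eval_map, Polynomial.map_multiset_prod,
    Polynomial.eval_multiset_prod, Multiset.prod_eq_zero_iff, Multiset.map_map,
    Multiset.map_map, Multiset.mem_map] at hGω
  obtain ⟨r, hr, h0⟩ := hGω
  refine ⟨z r, ?_, ?_⟩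
  · have h1 := hz r hr
    rw [hGdef, Polynomial.eval_mul, Polynomial.eval_C] at h1
    exact (mul_eq_zero.mp h1).resolve_left hbu.ne_zero
  · simp only [Function.comp_apply, Polynomial.map_sub, Polynomial.map_X, Polynomial.map_C,
      Polynomial.eval_sub, Polynomial.eval_X, Polynomial.eval_C] at h0
    exact (sub_eq_zero.mp h0).symm

theorem hensel_even (F : Polynomial (PowerSeries κ)) (hF : F.map (sig κ) = F)
    (hsep : (F.map (PowerSeries.constantCoeff (R := κ))).Separable) {z : PowerSeries κ}
    (hz : F.eval z = 0) : sig κ z = z := by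
  by_contra hne
  have h1 : F.eval (sig κ z) = 0 := by
    have h := Polynomial.eval₂_at_apply (p := F) (sig κ) z
    rw [hz, map_zero, ← Polynomial.eval_map, hF] at h
    exact h
  have hcc : PowerSeries.constantCoeff (sig κ z) = PowerSeries.constantCoeff z := by
    unfold sig
    rw [← PowerSeries.coeff_zero_eq_constantCoeff_apply, PowerSeries.coeff_rescale, pow_zero,
      one_mul, PowerSeries.coeff_zero_eq_constantCoeff_apply]
  obtain ⟨H, hH⟩ := Polynomial.dvd_iff_isRoot.mpr (show F.IsRoot z from hz)
  have h2 : H.IsRoot (sig κ z) := by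
    rw [hH, Polynomial.eval_mul, Polynomial.eval_sub, Polynomial.eval_X, Polynomial.eval_C] at h1
    exact (mul_eq_zero.mp h1).resolve_left (sub_ne_zero.mpr hne)
  obtain ⟨K, hK⟩ := Polynomial.dvd_iff_isRoot.mpr h2
  have h3 : (Polynomial.X - Polynomial.C (PowerSeries.constantCoeff z)) *
      (Polynomial.X - Polynomial.C (PowerSeries.constantCoeff z)) ∣
      F.map (PowerSeries.constantCoeff (R := κ)) := by
    refine ⟨K.map (PowerSeries.constantCoeff (R := κ)), ?_⟩
    rw [hH, hK]
    simp only [Polynomial.map_mul, Polynomial.map_sub, Polynomial.map_X, Polynomial.map_C, hcc]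
    ring
  exact Polynomial.not_isUnit_X_sub_C _ (hsep.squarefree _ h3)

end Pool.Agent.H6.Tw
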