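import Pool.Agent.H6.Tw.VertC

/-!
JOB TW-9. The base state. Compare `ind_base` in `Pool/Agent/H6/Sm/CoreR.lean` (the real version, complete).

`D` for `e = (1, 0)`, `D'` for `e = (0, 1)`: `D V0 = 0`, `D P0 = γ0'(x.1)`, `D conj P0 = conj (γ0'(x.1))`; `D' P0 = 0`, `D' conj P0 = 0`, `D' V0 = i V0`. So the expression is `i (γ0' V0⁻¹ - conj γ0' V0)`. If it is `0` then `γ0' = conj γ0' V0 ^ 2`; apply `D'`:
`0 = conj γ0' * 2 i V0 ^ 2`, so `γ0' (x.1) = 0` for `U`-almost all `x`, against `Arc` and `hmem`. (`CRC.of_dd`.)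
-/

set_option autoImplicit false

namespace Pool.Agent.H6.Tw

open Filter MeasureTheory Topology ComplexConjugate
open Pool.Agent.H6.Sm

variable {U : Ultrafilter (ℝ × ℝ)}

/-- the base: the point on the arc and the direction are free -/
theorem ind_baseC (hU : (U : Filter (ℝ × ℝ)) ≤ ae volume) {γ0 : ℝ → ℂ} (h0 : Arc γ0)
    (hmem : ∀ᶠ x in (U : Filter (ℝ × ℝ)), x.1 ∈ Set.Ioo (0 : ℝ) 1)
    (hdd : ∀ e : ℝ × ℝ, ∃ D : Derivation ℤ (SF ℂ U) (SF ℂ U), ∀ (f : ℝ × ℝ → ℂ)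
      (hf : ∀ᶠ x in (U : Filter (ℝ × ℝ)), Smo f x)
      (h : ∀ᶠ x in (U : Filter (ℝ × ℝ)), Smo (fun y => fderiv ℝ f y e) x),
      D (sg U f hf) = sg U (fun y => fderiv ℝ f y e) h)
    (hP : ∀ᶠ x in (U : Filter (ℝ × ℝ)), Smo (fun x : ℝ × ℝ => γ0 x.1) x)
    (hV : ∀ᶠ x in (U : Filter (ℝ × ℝ)), Smo (fun x : ℝ × ℝ => Complex.exp (x.2 * Complex.I)) x) :
    ∃ D D' : Derivation ℤ (SF ℂ U) (SF ℂ U), CRC U D ∧ CRC U D' ∧
      (D (sg U _ hP) * (sg U _ hV)⁻¹ - D (cb U _ hP) * sg U _ hV) * (D' (sg U _ hV) * (sg U _ hV)⁻¹) -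
      (D' (sg U _ hP) * (sg U _ hV)⁻¹ - D' (cb U _ hP) * sg U _ hV) *
        (D (sg U _ hV) * (sg U _ hV)⁻¹) ≠ 0 := by
  obtain ⟨D1, hD1⟩ := hdd (1, 0)
  obtain ⟨D2, hD2⟩ := hdd (0, 1)
  have key : ∀ (D : Derivation ℤ (SF ℂ U) (SF ℂ U)) (e : ℝ × ℝ)
      (_ : ∀ (f : ℝ × ℝ → ℂ) (hf : ∀ᶠ x in (U : Filter (ℝ × ℝ)), Smo f x)
        (h : ∀ᶠ x in (U : Filter (ℝ × ℝ)), Smo (fun y => fderiv ℝ f y e) x),
        D (sg U f hf) = sg U (fun y => fderiv ℝ f y e) h)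
      (f g : ℝ × ℝ → ℂ) (hf : ∀ᶠ x in (U : Filter (ℝ × ℝ)), Smo f x)
      (hg : ∀ᶠ x in (U : Filter (ℝ × ℝ)), Smo g x) (_ : ∀ x, fderiv ℝ f x e = g x),
      D (sg U f hf) = sg U g hg := by
    intro D e hD f g hf hg hfg
    rw [hD f hf (hf.mono fun x hx => hx.fderiv e), sg_eq]
    exact Eventually.of_forall hfg
  have z0 : ∀ᶠ x in (U : Filter (ℝ × ℝ)), Smo (fun _ : ℝ × ℝ => (0 : ℂ)) x :=
    Eventually.of_forall fun x => Smo.const 0 x
  have hdg : Differentiable ℝ γ0 := h0.1.differentiable (by simp)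
  have hsm : ContDiff ℝ ((⊤ : ℕ∞) : WithTop ℕ∞) (deriv γ0) := h0.1.iterate_deriv 1
  have hdd' : Differentiable ℝ (deriv γ0) := hsm.differentiable (by simp)
  have hcj : ∀ (g : ℝ → ℂ) (g' : ℂ) (s : ℝ), HasDerivAt g g' s →
      HasDerivAt (fun t => conj (g t)) (conj g') s := fun g g' s h =>
    Complex.conjCLE.toContinuousLinearMap.hasFDerivAt.comp_hasDerivAt s h
  have hfst : ∀ (g : ℝ → ℂ) (x : ℝ × ℝ), DifferentiableAt ℝ g x.1 →
      HasFDerivAt (fun x : ℝ × ℝ => g x.1)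
        ((ContinuousLinearMap.toSpanSingleton ℝ (deriv g x.1)).comp (ContinuousLinearMap.fst ℝ ℝ ℝ)) x := fun g x hg =>
    hg.hasDerivAt.hasFDerivAt.comp x hasFDerivAt_fst
  have hcjd : ∀ (g : ℝ → ℂ), Differentiable ℝ g → ∀ s, deriv (fun t => conj (g t)) s = conj (deriv g s) :=
    fun g hg s => (hcj g _ s (hg s).hasDerivAt).deriv
  have hcjD : ∀ (g : ℝ → ℂ), Differentiable ℝ g → Differentiable ℝ (fun t => conj (g t)) :=
    fun g hg s => (hcj g _ s (hg s).hasDerivAt).differentiableAt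
  have hexp : ∀ x : ℝ × ℝ, HasFDerivAt (fun x : ℝ × ℝ => Complex.exp (x.2 * Complex.I))
      ((ContinuousLinearMap.toSpanSingleton ℝ (Complex.I * Complex.exp (x.2 * Complex.I))).comp
        (ContinuousLinearMap.snd ℝ ℝ ℝ)) x := by
    intro x
    have h1 : HasDerivAt (fun t : ℝ => Complex.exp (t * Complex.I))
        (Complex.I * Complex.exp (x.2 * Complex.I)) x.2 := by
      have h2 : HasDerivAt (fun t : ℝ => ((t : ℝ) : ℂ) * Complex.I) (1 * Complex.I) x.2 :=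
        (Complex.ofRealCLM.hasDerivAt (x := x.2)).mul_const Complex.I
      have h3 := h2.cexp
      refine h3.congr_deriv ?_
      ring
    exact h1.hasFDerivAt.comp x hasFDerivAt_snd
  have smA : ∀ᶠ x in (U : Filter (ℝ × ℝ)), Smo (fun x : ℝ × ℝ => deriv γ0 x.1) x :=
    Eventually.of_forall fun x => (hsm.comp contDiff_fst).contDiffAt
  have smB : ∀ᶠ x in (U : Filter (ℝ × ℝ)), Smo (fun x : ℝ × ℝ => conj (deriv γ0 x.1)) x :=
    smA.mono fun x h => h.conj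
  have smI : ∀ᶠ x in (U : Filter (ℝ × ℝ)),
      Smo (fun x : ℝ × ℝ => Complex.I * Complex.exp (x.2 * Complex.I)) x :=
    hV.mono fun x h => (Smo.const Complex.I x).mul h
  set A := sg U (fun x : ℝ × ℝ => deriv γ0 x.1) smA with hA
  set B := sg U (fun x : ℝ × ℝ => conj (deriv γ0 x.1)) smB with hB
  set W := sg U (fun x : ℝ × ℝ => Complex.exp (x.2 * Complex.I)) hV with hW
  set J := sg U (fun _ : ℝ × ℝ => Complex.I) (Eventually.of_forall fun x => Smo.const _ x) with hJ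
  have d1P : D1 (sg U (fun x : ℝ × ℝ => γ0 x.1) hP) = A :=
    key D1 (1, 0) hD1 _ _ hP smA (fun x => by rw [(hfst γ0 x (hdg x.1)).fderiv]; simp)
  have d1Q : D1 (cb U (fun x : ℝ × ℝ => γ0 x.1) hP) = B :=
    key D1 (1, 0) hD1 _ _ _ smB (fun x => by
      rw [(hfst (fun t => conj (γ0 t)) x (hcjD γ0 hdg x.1)).fderiv, hcjd γ0 hdg]; simp)
  have d1V : D1 W = 0 := key D1 (1, 0) hD1 _ _ hV z0 (fun x => by rw [(hexp x).fderiv]; simp)
  have d2P : D2 (sg U (fun x : ℝ × ℝ => γ0 x.1) hP) = 0 :=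
    key D2 (0, 1) hD2 _ _ hP z0 (fun x => by rw [(hfst γ0 x (hdg x.1)).fderiv]; simp)
  have d2Q : D2 (cb U (fun x : ℝ × ℝ => γ0 x.1) hP) = 0 :=
    key D2 (0, 1) hD2 _ _ _ z0 (fun x => by
      rw [(hfst (fun t => conj (γ0 t)) x (hcjD γ0 hdg x.1)).fderiv]; simp)
  have d2V : D2 W = J * W := by
    have := key D2 (0, 1) hD2 _ _ hV smI (fun x => by rw [(hexp x).fderiv]; simp)
    exact this
  have d2A : D2 A = 0 := key D2 (0, 1) hD2 _ _ smA z0 (fun x => by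
    rw [(hfst (deriv γ0) x (hdd' x.1)).fderiv]; simp)
  have d2B : D2 B = 0 := key D2 (0, 1) hD2 _ _ smB z0 (fun x => by
    rw [(hfst (fun t => conj (deriv γ0 t)) x (hcjD _ hdd' x.1)).fderiv]; simp)
  have hW0 : W ≠ 0 := by
    intro h
    obtain ⟨x, hx⟩ := ((sg_eq U hV z0).1 h).exists
    exact Complex.exp_ne_zero _ hx
  have hJ0 : J ≠ 0 := by
    intro h
    obtain ⟨x, hx⟩ := ((sg_eq U (Eventually.of_forall fun x => Smo.const _ x) z0).1 h).exists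
    exact Complex.I_ne_zero hx
  have hB0 : B ≠ 0 := by
    intro h
    obtain ⟨x, hx, hx'⟩ := (((sg_eq U smB z0).1 h).and hmem).exists
    exact h0.2 x.1 hx' ((map_eq_zero _).1 hx)
  have h20 : (2 : SF ℂ U) ≠ 0 := by
    intro h
    have h' : (1 : SF ℂ U) + 1 = 0 := by rw [one_add_one_eq_two, h]
    have h2 : sg U (fun _ : ℝ × ℝ => (1 : ℂ) + 1) (Eventually.of_forall fun x => Smo.const _ x) =
        sg U (fun _ => 0) z0 := h'
    obtain ⟨x, hx⟩ := ((sg_eq U (Eventually.of_forall fun x => Smo.const _ x) z0).1 h2).exists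
    norm_num at hx
  refine ⟨D1, D2, CRC.of_dd hD1, CRC.of_dd hD2, ?_⟩
  rw [d1P, d1Q, d2P, d2Q, d1V, d2V]
  intro h
  have h1 : (A * W⁻¹ - B * W) * J = 0 := by
    have h2 : J * W * W⁻¹ = J := mul_inv_cancel_right₀ hW0 J
    rw [h2] at h
    linear_combination h
  have h3 : A * W⁻¹ - B * W = 0 := (mul_eq_zero.1 h1).resolve_right hJ0
  have h4 : A = B * (W * W) := by
    have h5 : A * W⁻¹ * W = A := inv_mul_cancel_right₀ hW0 A
    linear_combination W * h3 - h5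
  have h6 := congrArg D2 h4
  rw [d2A, Derivation.leibniz, Derivation.leibniz, d2B, d2V] at h6
  simp only [smul_eq_mul, mul_zero, add_zero] at h6
  have h7 : B * (2 * (J * (W * W))) = 0 := by linear_combination -h6
  exact mul_ne_zero hB0 (mul_ne_zero h20 (mul_ne_zero hJ0 (mul_ne_zero hW0 hW0))) h7

end Pool.Agent.H6.Tw
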