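import Pool.Agent.H6.Tw.MainT
import Pool.Agent.H6.Tw.CirL
import Pool.Agent.H6.Tw.CoreC

/-!
Closed orbits with at most two reflections off circles and lines.
-/

set_option autoImplicit false

namespace Pool.Agent.H6.Tw

open MeasureTheory ComplexConjugate Filter
open Pool.Agent.H6.Sm

/-- circular or straight arcs -/
def ClsC (γ : ℝ → ℂ) : Prop :=
  (∃ c R : ℂ, R ≠ 0 ∧ ∀ s ∈ Set.Ioo (0 : ℝ) 1, (γ s - c) * (conj (γ s) - conj c) = R ^ 2) ∨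
  (∃ A B h : ℂ, A ≠ 0 ∧ B ≠ 0 ∧ ∀ s ∈ Set.Ioo (0 : ℝ) 1, A * γ s + B * conj (γ s) = h)

theorem relC_of_ltr (U : Ultrafilter (ℝ × ℝ)) (γ : ℝ → ℂ) (hγ : Arc γ) (hC : ClsC γ)
    (v v' ξ' η' : SF ℂ U) (h : Ltr U γ v v' ξ' η') (_ : ∃ D, CRC U D ∧ D η' ≠ 0) :
    RelC v v' ξ' η' := by
  obtain ⟨s, P, V, hP, hV, hn, hs, hP', hV', rfl, rfl, rfl, rfl⟩ := h
  rcases hC with ⟨c, R, hR, hon⟩ | ⟨A, B, h, hA, hB, hon⟩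
  · obtain ⟨h1, h2⟩ := circ_letter hγ hon hV hn hs hP' hV'
    exact Or.inl ⟨c, conj c, R, hR, h1, h2⟩
  · obtain ⟨h1, h2⟩ := line_letter hγ hon hV hn hs hP' hV'
    exact Or.inr ⟨A, B, h, hA, hB, h1, h2⟩

theorem mainC (m : ℕ) (Y : Set (ℝ × ℝ)) (γ : Fin m → ℝ → ℝ × ℝ)
    (hγ : ∀ i, ContDiff ℝ ((⊤ : ℕ∞) : WithTop ℕ∞) (γ i))
    (hreg : ∀ i, ∀ s ∈ Set.Icc (0 : ℝ) 1, deriv (γ i) s ≠ 0)
    (hdisj : ∀ i j, i ≠ j →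
      Disjoint (γ i '' Set.Ioo (0 : ℝ) 1) (γ j '' Set.Ioo (0 : ℝ) 1))
    (J : Set (Fin m))
    (hJ : ∀ j ∈ J,
        (∃ a b c : ℝ, (a, b) ≠ (0, 0) ∧
          ∀ s ∈ Set.Icc (0 : ℝ) 1, a * (γ j s).1 + b * (γ j s).2 = c) ∨
        (∃ x y r : ℝ, 0 < r ∧
          ∀ s ∈ Set.Icc (0 : ℝ) 1, ((γ j s).1 - x) ^ 2 + ((γ j s).2 - y) ^ 2 = r ^ 2))
    (i : Fin m) :
    volume {q : ℝ × ℝ | q.1 ∈ Set.Ioo (0 : ℝ) 1 ∧
        ∃ n : ℕ, 0 < n ∧ ∃ P V : ℕ → ℝ × ℝ,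
          P 0 = γ i q.1 ∧ V 0 = (Real.cos q.2, Real.sin q.2) ∧
          P n = P 0 ∧ V n = V 0 ∧
          (∀ k < n,
            (∃ t : ℝ, 0 < t ∧ P (k + 1) = P k + t • V k ∧
              ∀ τ ∈ Set.Ioo (0 : ℝ) t, P k + τ • V k ∈ interior Y) ∧
            (∃ j : Fin m, ∃ s ∈ Set.Ioo (0 : ℝ) 1, P (k + 1) = γ j s ∧
              (V k).1 * (-(deriv (γ j) s).2) + (V k).2 * (deriv (γ j) s).1 ≠ 0 ∧
              V (k + 1) = V k -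
                (2 * ((V k).1 * (-(deriv (γ j) s).2) + (V k).2 * (deriv (γ j) s).1) /
                  ((deriv (γ j) s).1 ^ 2 + (deriv (γ j) s).2 ^ 2)) •
                  (-(deriv (γ j) s).2, (deriv (γ j) s).1)) ∧
            (∃ ε : ℝ, 0 < ε ∧
              ∀ τ ∈ Set.Ioo (0 : ℝ) ε, P (k + 1) + τ • V (k + 1) ∈ interior Y)) ∧
          {k : ℕ | k < n ∧ ¬ ∃ j ∈ J, ∃ s ∈ Set.Ioo (0 : ℝ) 1, P (k + 1) = γ j s}.ncard ≤ 2} = 0 := by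
  refine main_gen ClsC 2 (fun {_} {γ0} h0 {W} hW hne h3 => ?_) m Y γ hγ hreg hdisj J ?_ i
  · exact core_gen ClsC (fun U => RelC (K := SF ℂ U)) relC_of_ltr
      (fun U n ξ η v f hF B hB hc hR => no_famC hF hB hc hR) h0 hW hne h3
  · intro j hj
    rcases hJ j hj with ⟨a, b, c, hab, h⟩ | ⟨x, y, r, hr, h⟩
    · exact Or.inr (flat_hon hab fun s hs => h s (Set.Ioo_subset_Icc_self hs))
    · exact Or.inl (circ_hon hr fun s hs => h s (Set.Ioo_subset_Icc_self hs))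

end Pool.Agent.H6.Tw
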