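import Pool.Agent.H6.Tw.MainT
import Pool.Agent.H6.Tw.AlgL
import Pool.Agent.H6.Tw.CoreG
import Pool.Agent.H6.IvA.MainA

/-!
Closed orbits with at most two reflections off curves that avoid the circular points.
-/

set_option autoImplicit false

namespace Pool.Agent.H6.Tw

open MeasureTheory ComplexConjugate Filter
open Pool.Agent.H6.IvA (AlgArc IsoFree toIso isoFree_of_real on_toIso)
open Pool.Agent.H6.Sm

/-- arcs on curves that avoid the circular points -/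
def ClsG (γ : ℝ → ℂ) : Prop :=
  ∃ F : MvPolynomial (Fin 2) ℂ, IsoFree F ∧
    ∀ s ∈ Set.Ioo (0 : ℝ) 1, MvPolynomial.eval ![γ s, conj (γ s)] F = 0

theorem relG_of_ltr (U : Ultrafilter (ℝ × ℝ)) (γ : ℝ → ℂ) (hγ : Arc γ) (hC : ClsG γ)
    (v v' ξ' η' : SF ℂ U) (h : Ltr U γ v v' ξ' η') (hnc : ∃ D, CRC U D ∧ D η' ≠ 0) :
    RelG v v' ξ' η' := by
  obtain ⟨F, hF, hon⟩ := hC
  obtain ⟨s, P, V, hP, hV, hn, hs, hP', hV', rfl, rfl, rfl, rfl⟩ := h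
  exact alg_letter hγ hF hon hP hV hn hs hP' hV' hnc

theorem mainG (m : ℕ) (Y : Set (ℝ × ℝ)) (γ : Fin m → ℝ → ℝ × ℝ)
    (hγ : ∀ i, ContDiff ℝ ((⊤ : ℕ∞) : WithTop ℕ∞) (γ i))
    (hreg : ∀ i, ∀ s ∈ Set.Icc (0 : ℝ) 1, deriv (γ i) s ≠ 0)
    (hdisj : ∀ i j, i ≠ j →
      Disjoint (γ i '' Set.Ioo (0 : ℝ) 1) (γ j '' Set.Ioo (0 : ℝ) 1))
    (J : Set (Fin m)) (hJ : ∀ j ∈ J, AlgArc (γ j)) (i : Fin m) :
    volume {q : ℝ × ℝ | q.1 ∈ Set.Ioo (0 : ℝ) 1 ∧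
        ∃ n : ℕ, 0 < n ∧ ∃ P V : ℕ → ℝ × ℝ,
          P 0 = γ i q.1 ∧ V 0 = (Real.cos q.2, Real.sin q.2) ∧
          P n = P 0 ∧ V n = V 0 ∧
          (∀ k < n,
            (∃ t : ℝ, 0 < t ∧ P (k + 1) = P k + t • V k ∧
              ∀ τ ∈ Set.Ioo (0 : ℝ) t, P k + τ • V k ∈ interior Y) ∧
            (∃ j : Fin m, ∃ s ∈ Set.Ioo (0 : ℝ) 1, P (k + 1) = γ j s ∧
              (V k).1 * (-(deriv (γ j) s).2) + (V k).2 * (deriv (γ j) s).1 ≠ 0 ∧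
              V (k + 1) = V k -
                (2 * ((V k).1 * (-(deriv (γ j) s).2) + (V k).2 * (deriv (γ j) s).1) /
                  ((deriv (γ j) s).1 ^ 2 + (deriv (γ j) s).2 ^ 2)) •
                  (-(deriv (γ j) s).2, (deriv (γ j) s).1)) ∧
            (∃ ε : ℝ, 0 < ε ∧
              ∀ τ ∈ Set.Ioo (0 : ℝ) ε, P (k + 1) + τ • V (k + 1) ∈ interior Y)) ∧
          {k : ℕ | k < n ∧ ¬ ∃ j ∈ J, ∃ s ∈ Set.Ioo (0 : ℝ) 1, P (k + 1) = γ j s}.ncard ≤ 2} = 0 := by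
  refine main_gen ClsG 2 (fun {_} {γ0} h0 {W} hW hne h3 => ?_) m Y γ hγ hreg hdisj J ?_ i
  · exact core_gen ClsG (fun U => RelG (K := SF ℂ U)) relG_of_ltr
      (fun U n ξ η v f hF B hB hc hR => no_famG hF hB hc hR) h0 hW hne h3
  · intro j hj
    obtain ⟨f, hf, hdeg, hon⟩ := hJ j hj
    refine ⟨toIso f, isoFree_of_real hf hdeg, fun s hs => ?_⟩
    exact on_toIso f (γ j s) (hon s (Set.Ioo_subset_Icc_self hs))

end Pool.Agent.H6.Tw
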