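import Pool.Agent.H6.Tw.Word
import Pool.Agent.H6.Tw.Wr
import Pool.Agent.H6.Sm.MainR

/-!
From words to tables, for any class of arcs.
-/

set_option autoImplicit false

namespace Pool.Agent.H6.Tw

open MeasureTheory ComplexConjugate Filter
open Pool.Agent.H6.Ivrii (toC toC_add_smul toC_cos_sin)
open Pool.Agent.H6.IvA (deriv_toC refl_toC)
open Pool.Agent.H6.Sm

/-- the general argument: null sets of words give null sets of closed orbits -/
theorem main_gen (Cls : (ℝ → ℂ) → Prop) (N : ℕ)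
    (hcore0 : ∀ [DecidablePred Cls] {γ0 : ℝ → ℂ} (_ : Arc γ0)
      {W : List ((ℝ → ℂ) × (ℚ × ℚ))} (_ : ∀ L ∈ W, Arc L.1) (_ : W ≠ [])
      (_ : (W.filter fun L => ¬ Cls L.1).length ≤ N),
      volume {x : ℝ × ℝ | x.1 ∈ Set.Ioo (0 : ℝ) 1 ∧ Good (fun x : ℝ × ℝ => γ0 x.1)
      (fun x : ℝ × ℝ => Complex.exp (x.2 * Complex.I)) W x ∧
      (orb (fun x : ℝ × ℝ => γ0 x.1) (fun x : ℝ × ℝ => Complex.exp (x.2 * Complex.I)) W).1 x =
        γ0 x.1 ∧
      (orb (fun x : ℝ × ℝ => γ0 x.1) (fun x : ℝ × ℝ => Complex.exp (x.2 * Complex.I)) W).2 x =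
        Complex.exp (x.2 * Complex.I)} = 0) (m : ℕ) (Y : Set (ℝ × ℝ)) (γ : Fin m → ℝ → ℝ × ℝ)
    (hγ : ∀ i, ContDiff ℝ ((⊤ : ℕ∞) : WithTop ℕ∞) (γ i))
    (hreg : ∀ i, ∀ s ∈ Set.Icc (0 : ℝ) 1, deriv (γ i) s ≠ 0)
    (hdisj : ∀ i j, i ≠ j →
      Disjoint (γ i '' Set.Ioo (0 : ℝ) 1) (γ j '' Set.Ioo (0 : ℝ) 1))
    (J : Set (Fin m)) (hJ : ∀ j ∈ J, Cls (cArc (γ j))) (i : Fin m) :
    volume {q : ℝ × ℝ | q.1 ∈ Set.Ioo (0 : ℝ) 1 ∧
        ∃ n : ℕ, 0 < n ∧ ∃ P V : ℕ → ℝ × ℝ,
          P 0 = γ i q.1 ∧ V 0 = (Real.cos q.2, Real.sin q.2) ∧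
          P n = P 0 ∧ V n = V 0 ∧
          (∀ k < n,
            (∃ t : ℝ, 0 < t ∧ P (k + 1) = P k + t • V k ∧
              ∀ τ ∈ Set.Ioo (0 : ℝ) t, P k + τ • V k ∈ interior Y) ∧
            (∃ j : Fin m, ∃ s ∈ Set.Ioo (0 : ℝ) 1, P (k + 1) = γ j s ∧
              (V k).1 * (-(deriv (γ j) s).2) + (V k).2 * (deriv (γ j) s).1 ≠ 0 ∧
              V (k + 1) = V k -
                (2 * ((V k).1 * (-(deriv (γ j) s).2) + (V k).2 * (deriv (γ j) s).1) /
                  ((deriv (γ j) s).1 ^ 2 + (deriv (γ j) s).2 ^ 2)) •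
                  (-(deriv (γ j) s).2, (deriv (γ j) s).1)) ∧
            (∃ ε : ℝ, 0 < ε ∧
              ∀ τ ∈ Set.Ioo (0 : ℝ) ε, P (k + 1) + τ • V (k + 1) ∈ interior Y)) ∧
          {k : ℕ | k < n ∧ ¬ ∃ j ∈ J, ∃ s ∈ Set.Ioo (0 : ℝ) 1, P (k + 1) = γ j s}.ncard ≤ N} = 0 := by
  classical
  have hdiff : ∀ j, Differentiable ℝ (γ j) := fun j => (hγ j).differentiable (by simp)
  set f : Fin m → ℝ → ℂ := fun j => cArc (γ j) with hf
  have harc : ∀ j, Arc (f j) := fun j => arc_cArc (hγ j) (hreg j)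
  set P0 : ℝ × ℝ → ℂ := fun x => f i x.1 with hP0
  set V0 : ℝ × ℝ → ℂ := fun x => Complex.exp (x.2 * Complex.I) with hV0
  have hV1 : ∀ y, ‖V0 y‖ = 1 := fun y => Complex.norm_exp_ofReal_mul_I y.2
  have sP0 : ∀ x, Smo P0 x := fun x => ((harc i).1.comp contDiff_fst).contDiffAt
  have sV0 : ∀ x, Smo V0 x := fun x => by
    have h1 : ContDiff ℝ ((⊤ : ℕ∞) : WithTop ℕ∞) (fun x : ℝ × ℝ => ((x.2 : ℝ) : ℂ)) :=
      Complex.ofRealCLM.contDiff.comp contDiff_snd
    exact (h1.mul contDiff_const).cexp.contDiffAt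
  have hcore : ∀ w : List (Fin m × (ℚ × ℚ)), volume {x : ℝ × ℝ |
      (w ≠ [] ∧ ((w.map fun a => (f a.1, a.2)).filter fun L => ¬ Cls L.1).length ≤ N) ∧
      x.1 ∈ Set.Ioo (0 : ℝ) 1 ∧ Good P0 V0 (w.map fun a => (f a.1, a.2)) x ∧
      (orb P0 V0 (w.map fun a => (f a.1, a.2))).1 x = P0 x ∧
      (orb P0 V0 (w.map fun a => (f a.1, a.2))).2 x = V0 x} = 0 := by
    intro w
    by_cases hw : w ≠ [] ∧ ((w.map fun a => (f a.1, a.2)).filter fun L => ¬ Cls L.1).length ≤ N
    · refine measure_mono_null ?_ (hcore0 (harc i) (W := w.map fun a => (f a.1, a.2)) ?_ ?_ hw.2)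
      · intro x hx
        exact hx.2
      · intro L hL
        obtain ⟨a, -, rfl⟩ := List.mem_map.mp hL
        exact harc a.1
      · simpa using hw.1
    · convert measure_empty (μ := (volume : Measure (ℝ × ℝ)))
      rw [Set.eq_empty_iff_forall_notMem]
      intro x hx
      exact hw hx.1
  refine measure_mono_null ?_ (measure_iUnion_null hcore)
  rintro q ⟨hq, n, hn, P, V, hP, hV, hPn, hVn, hall, hcard⟩
  have hind : ∀ k ≤ n, ∃ w : List (Fin m), w.length = k ∧
      (w.filter fun j => j ∉ J).length =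
        ((Finset.range k).filter fun k' => ¬ ∃ j ∈ J, ∃ s ∈ Set.Ioo (0 : ℝ) 1, P (k' + 1) = γ j s).card ∧
      RO (w.map f) (toC (P 0)) (toC (V 0)) (toC (P k)) (toC (V k)) := by
    intro k
    induction k with
    | zero => intro _; exact ⟨[], rfl, rfl, rfl, rfl⟩
    | succ k ih =>
      intro hk
      obtain ⟨w, hwl, hwc, hRO⟩ := ih (by omega)
      obtain ⟨⟨t, ht, hPt, -⟩, ⟨j, s, hs, hPs, hnt, hVs⟩, -⟩ := hall k (by omega)
      refine ⟨j :: w, by simp [hwl], ?_, toC (P k), toC (V k), t, s, hRO, ht, hs, ?_, ?_, ?_, ?_⟩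
      · rw [Finset.range_add_one, Finset.filter_insert]
        have hiff : (j ∉ J) ↔ ¬ ∃ j ∈ J, ∃ s ∈ Set.Ioo (0 : ℝ) 1, P (k + 1) = γ j s := by
          rw [not_iff_not]
          constructor
          · intro hj
            exact ⟨j, hj, s, hs, hPs⟩
          · rintro ⟨j', hj', s', hs', hPs'⟩
            by_contra hj
            have hne : j ≠ j' := fun h => hj (h ▸ hj')
            exact Set.disjoint_left.mp (hdisj j j' hne) ⟨s, hs, rfl⟩ ⟨s', hs', by rw [← hPs', hPs]⟩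
        by_cases hj : j ∈ J
        · rw [if_neg (by rw [← hiff]; simpa using hj)]
          simp only [List.filter_cons, hj, not_true_eq_false, decide_false, Bool.false_eq_true,
            if_false]
          exact hwc
        · rw [if_pos (hiff.1 hj), Finset.card_insert_of_notMem (by simp)]
          simp only [List.filter_cons, hj, not_false_eq_true, decide_true, if_true, List.length_cons]
          rw [← hwc]
      · change toC (γ j s) = _
        rw [← hPs, hPt, toC_add_smul]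
      · rw [hPs]; rfl
      · have h1 : deriv (f j) s = toC (deriv (γ j) s) := (deriv_toC (γ j) (hdiff j)).2 s
        rw [h1]
        intro h0
        apply hnt
        have h2 : (toC (deriv (γ j) s) * conj (toC (V k))).im =
            (deriv (γ j) s).2 * (V k).1 - (deriv (γ j) s).1 * (V k).2 := by
          simp [toC, Complex.mul_im]
          ring
        rw [h2] at h0
        linarith
      · have h1 : deriv (f j) s = toC (deriv (γ j) s) := (deriv_toC (γ j) (hdiff j)).2 s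
        rw [h1, hVs]
        exact refl_toC (deriv (γ j) s) (V k) (hreg j s (Set.Ioo_subset_Icc_self hs))
  obtain ⟨w', hl', hc', hRO⟩ := hind n le_rfl
  have e1 : toC (P 0) = P0 q := by rw [hP]; rfl
  have e2 : toC (V 0) = V0 q := by rw [hV, toC_cos_sin]
  rw [hPn, hVn, e1, e2] at hRO
  obtain ⟨W, hWm, hWg, hWP, hWV⟩ := lift (L := w'.map f) (by
    intro g hg
    obtain ⟨j, -, rfl⟩ := List.mem_map.mp hg
    exact harc j) (sP0 q) (sV0 q) hV1 hRO
  obtain ⟨w, hw1, hw2⟩ := map_lift f w' W hWm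
  refine Set.mem_iUnion.mpr ⟨w, ⟨?_, ?_⟩, hq, ?_, ?_, ?_⟩
  · rintro rfl
    have h1 : w' = [] := by rw [← hw1]; rfl
    rw [h1, List.length_nil] at hl'
    omega
  · have h1 : ((w.map fun a => (f a.1, a.2)).filter fun L => ¬ Cls L.1).length ≤
        (w'.filter fun j => j ∉ J).length := by
      rw [← hw1]
      clear hw1 hw2 hWm hWg hWP hWV
      induction w with
      | nil => simp
      | cons a w ih =>
        simp only [List.map_cons, List.filter_cons]
        by_cases h : a.1 ∈ J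
        · have h2 : Cls (f a.1) := hJ a.1 h
          simp only [h2, h, not_true_eq_false, decide_false, Bool.false_eq_true, if_false]
          exact ih
        · by_cases h2 : Cls (f a.1)
          · simp only [h2, h, not_true_eq_false, not_false_eq_true, decide_false, decide_true,
              Bool.false_eq_true, if_false, if_true, List.length_cons]
            omega
          · simp only [h2, h, not_false_eq_true, decide_true, if_true, List.length_cons]
            omega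
    refine h1.trans ?_
    rw [hc']
    refine le_trans (le_of_eq ?_) hcard
    rw [← Set.ncard_coe_finset]
    congr 1
    ext k
    simp
  · rw [hw2]; exact hWg
  · rw [hw2, hWP]
  · rw [hw2, hWV]


theorem card_bad (C : (ℝ → ℂ) × (ℚ × ℚ) → Prop) [DecidablePred C]
    (W : List ((ℝ → ℂ) × (ℚ × ℚ))) :
    ∃ B : Finset ℕ, B ⊆ Finset.range W.length ∧ B.card ≤ (W.filter fun L => ¬ C L).length ∧
      ∀ k < W.length, k ∉ B → ∀ L, W.reverse[k]? = some L → C L := by
  induction W with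
  | nil => exact ⟨∅, by simp, by simp, by simp⟩
  | cons L w ih =>
    obtain ⟨B, h1, h2, h3⟩ := ih
    have h4 : ∀ k < w.length, k ∉ B → ∀ L', (L :: w).reverse[k]? = some L' → C L' := by
      intro k hk hkB L' hL'
      rw [List.reverse_cons, List.getElem?_append_left (by simpa using hk)] at hL'
      exact h3 k hk hkB L' hL'
    have h5 : (L :: w).reverse[w.length]? = some L := by
      rw [List.reverse_cons, List.getElem?_append_right (by simp)]
      simp
    by_cases h : C L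
    · refine ⟨B, h1.trans (Finset.range_subset_range.2 (by simp)), ?_, fun k hk hkB L' hL' => ?_⟩
      · simp only [List.filter_cons, h, not_true_eq_false, decide_false, Bool.false_eq_true, if_false]
        exact h2
      · rcases Nat.lt_or_ge k w.length with hk' | hk'
        · exact h4 k hk' hkB L' hL'
        · have : k = w.length := by
            rw [List.length_cons] at hk
            omega
          rw [this, h5] at hL'
          rw [← Option.some.inj hL']
          exact h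
    · refine ⟨insert w.length B, ?_, ?_, fun k hk hkB L' hL' => ?_⟩
      · intro k hk
        rw [Finset.mem_insert] at hk
        rw [Finset.mem_range, List.length_cons]
        rcases hk with rfl | hk
        · omega
        · have := Finset.mem_range.1 (h1 hk)
          omega
      · refine (Finset.card_insert_le _ _).trans ?_
        simp only [List.filter_cons, h, not_false_eq_true, decide_true, if_true, List.length_cons]
        omega
      · rw [Finset.mem_insert, not_or] at hkB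
        rw [List.length_cons] at hk
        exact h4 k (by omega) hkB.2 L' hL'

/-- one word with prescribed branches, for a class of arcs and a letter relation without families -/
theorem core_gen (Cls : (ℝ → ℂ) → Prop)
    (Rel : ∀ U : Ultrafilter (ℝ × ℝ), SF ℂ U → SF ℂ U → SF ℂ U → SF ℂ U → Prop)
    (hRel : ∀ (U : Ultrafilter (ℝ × ℝ)) (γ : ℝ → ℂ), Arc γ → Cls γ → ∀ v v' ξ' η' : SF ℂ U,
      Ltr U γ v v' ξ' η' → (∃ D, CRC U D ∧ D η' ≠ 0) → Rel U v v' ξ' η')
    (hno : ∀ (U : Ultrafilter (ℝ × ℝ)) (n : ℕ) (ξ η v f : ℕ → SF ℂ U), Fam (CRC U) n ξ η v f →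
      ∀ B : Finset ℕ, B ⊆ Finset.range n → B.card ≤ 2 →
      (∀ k, k % n ∉ B → Rel U (v k) (v (k + 1)) (ξ (k + 1)) (η (k + 1))) → False)
    [DecidablePred Cls] {γ0 : ℝ → ℂ} (h0 : Arc γ0)
    {W : List ((ℝ → ℂ) × (ℚ × ℚ))} (hW : ∀ L ∈ W, Arc L.1) (hne : W ≠ [])
    (h3 : (W.filter fun L => ¬ Cls L.1).length ≤ 2) :
    volume {x : ℝ × ℝ | x.1 ∈ Set.Ioo (0 : ℝ) 1 ∧ Good (fun x : ℝ × ℝ => γ0 x.1)
      (fun x : ℝ × ℝ => Complex.exp (x.2 * Complex.I)) W x ∧
      (orb (fun x : ℝ × ℝ => γ0 x.1) (fun x : ℝ × ℝ => Complex.exp (x.2 * Complex.I)) W).1 x =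
        γ0 x.1 ∧
      (orb (fun x : ℝ × ℝ => γ0 x.1) (fun x : ℝ × ℝ => Complex.exp (x.2 * Complex.I)) W).2 x =
        Complex.exp (x.2 * Complex.I)} = 0 := by
  classical
  by_contra hne0
  set S : Set (ℝ × ℝ) := {x : ℝ × ℝ | x.1 ∈ Set.Ioo (0 : ℝ) 1 ∧ Good (fun x : ℝ × ℝ => γ0 x.1)
      (fun x : ℝ × ℝ => Complex.exp (x.2 * Complex.I)) W x ∧
      (orb (fun x : ℝ × ℝ => γ0 x.1) (fun x : ℝ × ℝ => Complex.exp (x.2 * Complex.I)) W).1 x =
        γ0 x.1 ∧
      (orb (fun x : ℝ × ℝ => γ0 x.1) (fun x : ℝ × ℝ => Complex.exp (x.2 * Complex.I)) W).2 x =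
        Complex.exp (x.2 * Complex.I)} with hS
  have hbot : NeBot (ae (volume : Measure (ℝ × ℝ)) ⊓ 𝓟 S) :=
    frequently_mem_iff_neBot.mp (frequently_ae_mem_iff.mpr hne0)
  set U : Ultrafilter (ℝ × ℝ) := Ultrafilter.of (ae (volume : Measure (ℝ × ℝ)) ⊓ 𝓟 S) with hU
  have hUle : (U : Filter (ℝ × ℝ)) ≤ ae volume ⊓ 𝓟 S := Ultrafilter.of_le _
  have hUS : ∀ᶠ x in (U : Filter (ℝ × ℝ)), x ∈ S :=
    hUle.trans inf_le_right (mem_principal_self S)
  obtain ⟨ξ, η, v, f, hF, hL⟩ := fam_of_word (hUle.trans inf_le_left) h0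
    (hUS.mono fun x hx => hx.1) hW hne (hUS.mono fun x hx => hx.2.1)
    (hUS.mono fun x hx => hx.2.2.1) (hUS.mono fun x hx => hx.2.2.2)
  obtain ⟨B, b1, b2, b3⟩ := card_bad (fun L => Cls L.1) W
  refine hno U W.length ξ η v f hF B b1 (b2.trans h3) fun k hk => ?_
  obtain ⟨L, hLk, hLtr⟩ := hL k
  have hC : Cls L.1 := b3 _ (Nat.mod_lt _ hF.n0) hk L hLk
  have hmem : L ∈ W := by
    have := List.mem_of_getElem? hLk
    simpa using this
  exact hRel U L.1 (hW L hmem) hC _ _ _ _ hLtr (hF.move (k + 1))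

end Pool.Agent.H6.Tw
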