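import Pool.Agent.H6.Sm.Defs

/-!
JOB TW-7. One bounce over the field of complex germs.

`CRC`: chain rule for complex functions of a real parameter. `CRC.of_dd`: `fderiv ℝ (f ∘ s) x e = deriv f (s x) * (fderiv ℝ s x e : ℂ)` and `fderiv ℝ (fun y => (s y : ℂ)) x e = (fderiv ℝ s x e : ℂ)` (compare `Pool/Agent/H6/Sm/Chain.lean`).
`CRC.comb`: linear combination. `CRC.con`: `f` constant (parameter `s = 0`), `deriv f = 0`.
`vert`: `t y = ((γ (s y) - P y) * conj (V y)).re`; near `U`-almost every `x`: `γ (s y) = P y + t y V y` (imaginary part `0`, `‖V y‖ = 1`), `conj (V y) = (V y)⁻¹`. `D ξ' = γ'(s) D s`, `D η' = conj (γ'(s)) D s` (chain rule for `γ` and `conj ∘ γ`), `v v' = γ'(s) / conj γ'(s)` because `V * conj V = 1`;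
so `D ξ' = v v' D η'`. `v v'` is the germ of `g ∘ s`, `g = γ' / conj γ'`, so `D (v v') = g'(s) D s = (g'(s) / conj γ'(s)) D η'`. `v' ≠ v`: otherwise `γ' / conj γ' = V ^ 2`, i.e. `γ' conj V` is real, against `Step.trans`.
-/

set_option autoImplicit false

namespace Pool.Agent.H6.Tw

open Filter MeasureTheory Topology ComplexConjugate
open Pool.Agent.H6.Sm

variable {U : Ultrafilter (ℝ × ℝ)}

/-- the algebra structure of the field of complex germs -/
noncomputable instance : Algebra ℂ (SF ℂ U) :=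
  RingHom.toAlgebra
    { toFun := fun c => sg U (fun _ => c) (Eventually.of_forall fun x => Smo.const c x)
      map_one' := rfl
      map_mul' := fun _ _ => rfl
      map_zero' := rfl
      map_add' := fun _ _ => rfl }

theorem algebraMap_SF (c : ℂ) : algebraMap ℂ (SF ℂ U) c =
    sg U (fun _ => c) (Eventually.of_forall fun x => Smo.const c x) := rfl

/-- derivations that satisfy the chain rule for functions of one real variable -/
def CRC (U : Ultrafilter (ℝ × ℝ)) (D : Derivation ℤ (SF ℂ U) (SF ℂ U)) : Prop :=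
  ∀ (f : ℝ → ℂ) (s : ℝ × ℝ → ℝ) (_ : ∀ᶠ x in (U : Filter (ℝ × ℝ)), Smo s x)
    (_ : ∀ᶠ x in (U : Filter (ℝ × ℝ)), ContDiffAt ℝ ((⊤ : ℕ∞) : WithTop ℕ∞) f (s x))
    (h1 : ∀ᶠ x in (U : Filter (ℝ × ℝ)), Smo (fun y => f (s y)) x)
    (h2 : ∀ᶠ x in (U : Filter (ℝ × ℝ)), Smo (fun y => deriv f (s y)) x)
    (h3 : ∀ᶠ x in (U : Filter (ℝ × ℝ)), Smo (fun y => ((s y : ℝ) : ℂ)) x),
    D (sg U (fun y => f (s y)) h1) =
      sg U (fun y => deriv f (s y)) h2 * D (sg U (fun y => ((s y : ℝ) : ℂ)) h3)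

theorem CRC.of_dd {D : Derivation ℤ (SF ℂ U) (SF ℂ U)} {e : ℝ × ℝ}
    (hD : ∀ (f : ℝ × ℝ → ℂ) (hf : ∀ᶠ x in (U : Filter (ℝ × ℝ)), Smo f x)
      (h : ∀ᶠ x in (U : Filter (ℝ × ℝ)), Smo (fun y => fderiv ℝ f y e) x),
      D (sg U f hf) = sg U (fun y => fderiv ℝ f y e) h) : CRC U D := by
  intro f s hs hf h1 h2 h3
  have h1' : ∀ᶠ x in (U : Filter (ℝ × ℝ)), Smo (fun y => fderiv ℝ (fun y => f (s y)) y e) x := by
    filter_upwards [h1] with x hx using hx.fderiv e
  have h3' : ∀ᶠ x in (U : Filter (ℝ × ℝ)),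
      Smo (fun y => fderiv ℝ (fun y => ((s y : ℝ) : ℂ)) y e) x := by
    filter_upwards [h3] with x hx using hx.fderiv e
  have h5 : ∀ᶠ x in (U : Filter (ℝ × ℝ)),
      Smo (fun y => deriv f (s y) * fderiv ℝ (fun y => ((s y : ℝ) : ℂ)) y e) x := by
    filter_upwards [h2, h3'] with x hx hx' using hx.mul hx'
  rw [hD _ h1 h1', hD _ h3 h3', sg_mul U h2 h3' h5, sg_eq]
  filter_upwards [hs, hf] with x hx hx'
  have h6 : HasDerivAt f (deriv f (s x)) (s x) :=
    (hx'.differentiableAt (by simp)).hasDerivAt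
  have h7 : HasFDerivAt s (fderiv ℝ s x) x :=
    (ContDiffAt.differentiableAt hx (by simp)).hasFDerivAt
  have h8 : HasFDerivAt (fun y => f (s y)) _ x := h6.hasFDerivAt.comp x h7
  have h9 : HasFDerivAt (fun y => ((s y : ℝ) : ℂ)) (Complex.ofRealCLM.comp (fderiv ℝ s x)) x :=
    Complex.ofRealCLM.hasFDerivAt.comp x h7
  rw [h8.fderiv, h9.fderiv]
  simp [mul_comm]

theorem CRC.comb {D D' : Derivation ℤ (SF ℂ U) (SF ℂ U)} (h : CRC U D) (h' : CRC U D')
    (φ ψ : SF ℂ U) : CRC U (φ • D + ψ • D') := by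
  intro f s hs hf h1 h2 h3
  rw [Derivation.add_apply, Derivation.smul_apply, Derivation.smul_apply,
    Derivation.add_apply, Derivation.smul_apply, Derivation.smul_apply,
    h f s hs hf h1 h2 h3, h' f s hs hf h1 h2 h3]
  simp only [smul_eq_mul]
  ring

theorem CRC.con {D : Derivation ℤ (SF ℂ U) (SF ℂ U)} (h : CRC U D) (c : ℂ) :
    D (algebraMap ℂ (SF ℂ U) c) = 0 := by
  have h1 := h (fun _ => c) (fun _ => 0) (Eventually.of_forall fun x => contDiffAt_const)
    (Eventually.of_forall fun x => contDiffAt_const)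
    (Eventually.of_forall fun x => contDiffAt_const)
    (Eventually.of_forall fun x => by simp only [deriv_const]; exact contDiffAt_const)
    (Eventually.of_forall fun x => contDiffAt_const)
  have h2 : sg U (fun y : ℝ × ℝ => deriv (fun _ : ℝ => c) ((fun _ => (0 : ℝ)) y))
      (Eventually.of_forall fun x => by simp only [deriv_const]; exact contDiffAt_const) = 0 := by
    rw [sg_zero, sg_eq]
    exact Eventually.of_forall fun x => by simp
  rw [algebraMap_SF, h1, h2, zero_mul]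

theorem _root_.Pool.Agent.H6.Sm.Smo.conj {P : ℝ × ℝ → ℂ} {x : ℝ × ℝ} (h : Smo P x) :
    Smo (fun y => conj (P y)) x :=
  Complex.conjCLE.toContinuousLinearMap.contDiff.contDiffAt.comp x h

/-- conjugate germ -/
noncomputable def cb (U : Ultrafilter (ℝ × ℝ)) (P : ℝ × ℝ → ℂ)
    (hP : ∀ᶠ x in (U : Filter (ℝ × ℝ)), Smo P x) : SF ℂ U :=
  sg U (fun y => conj (P y)) (hP.mono fun _ h => h.conj)

theorem vert {γ : ℝ → ℂ} (hγ : Arc γ) {s : ℝ × ℝ → ℝ} {P V : ℝ × ℝ → ℂ}
    (hP : ∀ᶠ x in (U : Filter (ℝ × ℝ)), Smo P x) (hV : ∀ᶠ x in (U : Filter (ℝ × ℝ)), Smo V x)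
    (hn : ∀ᶠ x in (U : Filter (ℝ × ℝ)), ∀ᶠ y in 𝓝 x, ‖V y‖ = 1)
    (hs : ∀ᶠ x in (U : Filter (ℝ × ℝ)), Step γ s P V x)
    (hP' : ∀ᶠ x in (U : Filter (ℝ × ℝ)), Smo (fun y => γ (s y)) x)
    (hV' : ∀ᶠ x in (U : Filter (ℝ × ℝ)),
      Smo (fun y => deriv γ (s y) / conj (deriv γ (s y)) * conj (V y)) x) :
    ∃ (t : ℝ × ℝ → ℝ) (ht : ∀ᶠ x in (U : Filter (ℝ × ℝ)), Smo (fun y => ((t y : ℝ) : ℂ)) x),
      (∀ᶠ x in (U : Filter (ℝ × ℝ)), 0 < t x) ∧ sg U V hV ≠ 0 ∧
      sg U _ hV' ≠ 0 ∧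
      sg U _ hP' = sg U P hP + sg U _ ht * sg U V hV ∧
      cb U _ hP' = cb U P hP + sg U _ ht * (sg U V hV)⁻¹ ∧
      (∀ D, CRC U D → D (sg U _ hP') = sg U V hV * sg U _ hV' * D (cb U _ hP')) ∧
      (∃ c, ∀ D, CRC U D → D (sg U V hV * sg U _ hV') = c * D (cb U _ hP')) ∧
      sg U _ hV' ≠ sg U V hV := by
  -- pointwise facts
  have hVc : ∀ z : ℂ, ‖z‖ = 1 → z * conj z = 1 := by
    intro z hz
    rw [Complex.mul_conj, Complex.normSq_eq_norm_sq, hz]
    norm_num
  have hVi : ∀ z : ℂ, ‖z‖ = 1 → z⁻¹ = conj z := by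
    intro z hz
    exact inv_eq_of_mul_eq_one_right (hVc z hz)
  have hVn : ∀ᶠ x in (U : Filter (ℝ × ℝ)), ‖V x‖ = 1 := by
    filter_upwards [hn] with x hx using hx.self_of_nhds
  have hreal : ∀ᶠ x in (U : Filter (ℝ × ℝ)), ∀ᶠ y in 𝓝 x,
      ((((γ (s y) - P y) * conj (V y)).re : ℝ) : ℂ) = (γ (s y) - P y) * conj (V y) := by
    filter_upwards [hs] with x hx
    filter_upwards [hx.inc] with y hy
    apply Complex.ext
    · simp
    · rw [hy]
      simp
  have hd : ∀ᶠ x in (U : Filter (ℝ × ℝ)), deriv γ (s x) ≠ 0 := by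
    filter_upwards [hs] with x hx h0
    apply hx.trans
    rw [h0]
    simp
  have hsm : ∀ᶠ x in (U : Filter (ℝ × ℝ)), Smo s x := hs.mono fun x hx => hx.smo
  have ht : ∀ᶠ x in (U : Filter (ℝ × ℝ)),
      Smo (fun y => ((((γ (s y) - P y) * conj (V y)).re : ℝ) : ℂ)) x := by
    filter_upwards [hreal, hP, hV, hP'] with x h1 h2 h3 h4
    exact Smo.congr ((h4.sub h2).mul h3.conj) h1
  have hval : ∀ᶠ x in (U : Filter (ℝ × ℝ)),
      γ (s x) = P x + ((((γ (s x) - P x) * conj (V x)).re : ℝ) : ℂ) * V x := by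
    filter_upwards [hreal, hVn] with x h1 h2
    rw [h1.self_of_nhds]
    linear_combination (-(γ (s x) - P x)) * hVc _ h2
  have hVne : sg U V hV ≠ 0 := by
    intro h
    rw [sg_zero, sg_eq] at h
    obtain ⟨x, h1, h2⟩ := (h.and hVn).exists
    rw [h1] at h2
    simp at h2
  have hsC : ∀ᶠ x in (U : Filter (ℝ × ℝ)), Smo (fun y => ((s y : ℝ) : ℂ)) x := by
    filter_upwards [hsm] with x hx
    exact Complex.ofRealCLM.contDiff.contDiffAt.comp x hx
  have hγd : ContDiff ℝ ((⊤ : ℕ∞) : WithTop ℕ∞) (deriv γ) := by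
    have := hγ.1
    rw [show ((⊤ : ℕ∞) : WithTop ℕ∞) = ((⊤ : ℕ∞) : WithTop ℕ∞) + 1 from rfl] at this
    exact (contDiff_succ_iff_deriv.1 this).2.2
  have hds : ∀ᶠ x in (U : Filter (ℝ × ℝ)), Smo (fun y => deriv γ (s y)) x := by
    filter_upwards [hsm] with x hx
    exact hγd.contDiffAt.comp x hx
  have hdc : ∀ r : ℝ, deriv (fun u => conj (γ u)) r = conj (deriv γ r) := by
    intro r
    have h1 : HasDerivAt γ (deriv γ r) r := (hγ.1.differentiable (by simp) r).hasDerivAt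
    exact (Complex.conjCLE.toContinuousLinearMap.hasFDerivAt.comp_hasDerivAt r h1).deriv
  have hcs : ∀ᶠ x in (U : Filter (ℝ × ℝ)), Smo (fun y => conj (deriv γ (s y))) x :=
    hds.mono fun x hx => hx.conj
  have hcs' : ∀ᶠ x in (U : Filter (ℝ × ℝ)), Smo (fun y => deriv (fun u => conj (γ u)) (s y)) x := by
    simp only [hdc]
    exact hcs
  -- the values of the derivations
  have hDP : ∀ D, CRC U D → D (sg U _ hP') =
      sg U _ hds * D (sg U _ hsC) := fun D hD =>
    hD γ s hsm (Eventually.of_forall fun x => hγ.1.contDiffAt) hP' hds hsC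
  have hDc : ∀ D, CRC U D → D (cb U _ hP') =
      sg U _ hcs * D (sg U _ hsC) := by
    intro D hD
    have h1 := hD (fun u => conj (γ u)) s hsm
      (Eventually.of_forall fun x =>
        Complex.conjCLE.toContinuousLinearMap.contDiff.contDiffAt.comp (s x) hγ.1.contDiffAt)
      (hP'.mono fun _ h => h.conj) hcs' hsC
    have h2 : sg U _ hcs' = sg U _ hcs := by
      rw [sg_eq]
      exact Eventually.of_forall fun x => hdc (s x)
    rw [h2] at h1
    exact h1
  have hcne : sg U _ hcs ≠ 0 := by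
    intro h
    rw [sg_zero, sg_eq] at h
    obtain ⟨x, h1, h2⟩ := (h.and hd).exists
    apply h2
    have : conj (deriv γ (s x)) = 0 := h1
    simpa using this
  -- the product of the directions
  have hg : ∀ᶠ x in (U : Filter (ℝ × ℝ)),
      Smo (fun y => deriv γ (s y) / conj (deriv γ (s y))) x := by
    filter_upwards [hds, hcs, hd] with x h1 h2 h3
    have h4 : conj (deriv γ (s x)) ≠ 0 := by simpa using h3
    simpa only [div_eq_mul_inv] using h1.mul (h2.inv h4)
  have hVV : sg U V hV * sg U _ hV' = sg U _ hg := by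
    have hm : ∀ᶠ x in (U : Filter (ℝ × ℝ)),
        Smo (fun y => V y * (deriv γ (s y) / conj (deriv γ (s y)) * conj (V y))) x := by
      filter_upwards [hV, hV'] with x h1 h2 using h1.mul h2
    rw [sg_mul U hV hV' hm, sg_eq]
    filter_upwards [hVn] with x h1
    linear_combination (deriv γ (s x) / conj (deriv γ (s x))) * hVc _ h1
  have hg1 : ∀ᶠ x in (U : Filter (ℝ × ℝ)), ContDiffAt ℝ ((⊤ : ℕ∞) : WithTop ℕ∞)
      (fun u => deriv γ u / conj (deriv γ u)) (s x) := by
    filter_upwards [hd] with x h3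
    have h4 : conj (deriv γ (s x)) ≠ 0 := by simpa using h3
    have h5 : ContDiffAt ℝ ((⊤ : ℕ∞) : WithTop ℕ∞) (fun u => conj (deriv γ u)) (s x) :=
      Complex.conjCLE.toContinuousLinearMap.contDiff.contDiffAt.comp (s x) hγd.contDiffAt
    have h6 := (hγd.contDiffAt (x := s x)).mul (h5.inv h4)
    simp only [div_eq_mul_inv]
    exact h6
  have hg2 : ∀ᶠ x in (U : Filter (ℝ × ℝ)),
      Smo (fun y => deriv (fun u => deriv γ u / conj (deriv γ u)) (s y)) x := by
    filter_upwards [hg1, hsm] with x h1 h2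
    have h3 : ContDiffAt ℝ ((⊤ : ℕ∞) : WithTop ℕ∞)
        (deriv (fun u => deriv γ u / conj (deriv γ u))) (s x) := by
      have h4 : ContDiffAt ℝ ((⊤ : ℕ∞) : WithTop ℕ∞)
          (fderiv ℝ (fun u => deriv γ u / conj (deriv γ u))) (s x) :=
        ContDiffAt.fderiv_right h1 (by simp)
      have h5 := h4.clm_apply (contDiffAt_const (c := (1 : ℝ)))
      exact h5
    exact h3.comp x h2
  refine ⟨fun y => ((γ (s y) - P y) * conj (V y)).re, ht, ?_, hVne, ?_, ?_, ?_, ?_, ?_, ?_⟩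
  · exact hs.mono fun x hx => hx.pos
  · intro h
    rw [sg_zero, sg_eq] at h
    obtain ⟨x, h1, h2, h3⟩ := (h.and (hd.and hVn)).exists
    have h4 : conj (deriv γ (s x)) ≠ 0 := by simpa using h2
    have h5 : conj (V x) ≠ 0 := by
      intro h6
      have : V x = 0 := by simpa using h6
      rw [this] at h3
      simp at h3
    exact mul_ne_zero (div_ne_zero h2 h4) h5 h1
  · have hm1 : ∀ᶠ x in (U : Filter (ℝ × ℝ)),
        Smo (fun y => ((((γ (s y) - P y) * conj (V y)).re : ℝ) : ℂ) * V y) x := by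
      filter_upwards [ht, hV] with x h1 h2 using h1.mul h2
    have hm2 : ∀ᶠ x in (U : Filter (ℝ × ℝ)),
        Smo (fun y => P y + ((((γ (s y) - P y) * conj (V y)).re : ℝ) : ℂ) * V y) x := by
      filter_upwards [hP, hm1] with x h1 h2 using h1.add h2
    rw [sg_mul U ht hV hm1, sg_add U hP hm1 hm2, sg_eq]
    exact hval
  · have hi : (sg U V hV)⁻¹ = cb U V hV := by
      have hi1 : ∀ᶠ x in (U : Filter (ℝ × ℝ)), Smo (fun y => (V y)⁻¹) x := by
        filter_upwards [hV, hVn] with x h1 h2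
        refine h1.inv ?_
        intro h3
        rw [h3] at h2
        simp at h2
      rw [sg_inv U hV hi1]
      unfold cb
      rw [sg_eq]
      filter_upwards [hVn] with x h1
      exact hVi _ h1
    rw [hi]
    unfold cb
    have hVs : ∀ᶠ x in (U : Filter (ℝ × ℝ)), Smo (fun y => conj (V y)) x :=
      hV.mono fun _ h => h.conj
    have hPs : ∀ᶠ x in (U : Filter (ℝ × ℝ)), Smo (fun y => conj (P y)) x :=
      hP.mono fun _ h => h.conj
    have hm1 : ∀ᶠ x in (U : Filter (ℝ × ℝ)),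
        Smo (fun y => ((((γ (s y) - P y) * conj (V y)).re : ℝ) : ℂ) * conj (V y)) x := by
      filter_upwards [ht, hVs] with x h1 h2 using h1.mul h2
    have hm2 : ∀ᶠ x in (U : Filter (ℝ × ℝ)),
        Smo (fun y => conj (P y) +
          ((((γ (s y) - P y) * conj (V y)).re : ℝ) : ℂ) * conj (V y)) x := by
      filter_upwards [hPs, hm1] with x h1 h2 using h1.add h2
    rw [sg_mul U ht hVs hm1, sg_add U hPs hm1 hm2, sg_eq]
    filter_upwards [hval] with x hx
    have h1 := congrArg conj hx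
    simpa only [map_add, map_mul, Complex.conj_ofReal] using h1
  · intro D hD
    rw [hDP D hD, hDc D hD, hVV, ← mul_assoc]
    congr 1
    have hm1 : ∀ᶠ x in (U : Filter (ℝ × ℝ)),
        Smo (fun y => deriv γ (s y) / conj (deriv γ (s y)) * conj (deriv γ (s y))) x := by
      filter_upwards [hg, hcs] with x h1 h2 using h1.mul h2
    rw [sg_mul U hg hcs hm1, sg_eq]
    filter_upwards [hd] with x h1
    have h2 : conj (deriv γ (s x)) ≠ 0 := by simpa using h1
    exact (div_mul_cancel₀ _ h2).symm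
  · refine ⟨sg U _ hg2 / sg U _ hcs, fun D hD => ?_⟩
    have h1 := hD (fun u => deriv γ u / conj (deriv γ u)) s hsm hg1 hg hg2 hsC
    rw [hVV, hDc D hD]
    rw [← mul_assoc, div_mul_cancel₀ _ hcne]
    exact h1
  · intro h
    rw [sg_eq] at h
    obtain ⟨x, h1, h2, h3, h4⟩ := (h.and (hd.and (hVn.and hs))).exists
    apply h4.trans
    have h5 : conj (deriv γ (s x)) ≠ 0 := by simpa using h2
    have h6 : deriv γ (s x) * conj (V x) = conj (deriv γ (s x)) * V x := by
      have h7 : deriv γ (s x) / conj (deriv γ (s x)) * conj (V x) = V x := h1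
      have h9 : conj (deriv γ (s x)) * (deriv γ (s x) / conj (deriv γ (s x))) =
          deriv γ (s x) := mul_div_cancel₀ _ h5
      linear_combination (-conj (V x)) * h9 + conj (deriv γ (s x)) * h7
    have h8 : conj (deriv γ (s x) * conj (V x)) = deriv γ (s x) * conj (V x) := by
      rw [map_mul, Complex.conj_conj, h6]
    exact Complex.conj_eq_iff_im.1 h8

end Pool.Agent.H6.Tw
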