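import Pool.Agent.H6.Tw.Defs
import Pool.Agent.H6.Tw.VertC
import Pool.Agent.H6.Tw.IndC
import Pool.Agent.H6.Sm.Lift
import Pool.Agent.H6.Sm.Der

/-!
The family of a word with branches.
-/

set_option autoImplicit false

namespace Pool.Agent.H6.Tw

open Filter MeasureTheory Topology ComplexConjugate
open Pool.Agent.H6.Sm

variable {U : Ultrafilter (ℝ × ℝ)}

/-- a letter over the arc `γ` -/
def Ltr (U : Ultrafilter (ℝ × ℝ)) (γ : ℝ → ℂ) (v v' ξ' η' : SF ℂ U) : Prop :=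
  ∃ (s : ℝ × ℝ → ℝ) (P V : ℝ × ℝ → ℂ) (_ : ∀ᶠ x in (U : Filter (ℝ × ℝ)), Smo P x)
    (hV : ∀ᶠ x in (U : Filter (ℝ × ℝ)), Smo V x)
    (_ : ∀ᶠ x in (U : Filter (ℝ × ℝ)), ∀ᶠ y in 𝓝 x, ‖V y‖ = 1)
    (_ : ∀ᶠ x in (U : Filter (ℝ × ℝ)), Step γ s P V x)
    (hP' : ∀ᶠ x in (U : Filter (ℝ × ℝ)), Smo (fun y => γ (s y)) x)
    (hV' : ∀ᶠ x in (U : Filter (ℝ × ℝ)),
      Smo (fun y => deriv γ (s y) / conj (deriv γ (s y)) * conj (V y)) x),
    v = sg U V hV ∧ v' = sg U _ hV' ∧ ξ' = sg U _ hP' ∧ η' = cb U _ hP'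

/-- the facts about one letter -/
theorem word_step {P0 V0 : ℝ × ℝ → ℂ} (hV1 : ∀ y, ‖V0 y‖ = 1)
    (eP0 : ∀ᶠ x in (U : Filter (ℝ × ℝ)), Smo P0 x) (eV0 : ∀ᶠ x in (U : Filter (ℝ × ℝ)), Smo V0 x)
    {L : (ℝ → ℂ) × (ℚ × ℚ)} {w : List ((ℝ → ℂ) × (ℚ × ℚ))} (hL : Arc L.1)
    (hw : ∀ L ∈ w, Arc L.1) (hg : ∀ᶠ x in (U : Filter (ℝ × ℝ)), Good P0 V0 (L :: w) x)
    (hP : ∀ᶠ x in (U : Filter (ℝ × ℝ)), Smo (orb P0 V0 w).1 x)
    (hV : ∀ᶠ x in (U : Filter (ℝ × ℝ)), Smo (orb P0 V0 w).2 x)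
    (hP' : ∀ᶠ x in (U : Filter (ℝ × ℝ)), Smo (orb P0 V0 (L :: w)).1 x)
    (hV' : ∀ᶠ x in (U : Filter (ℝ × ℝ)), Smo (orb P0 V0 (L :: w)).2 x) :
    Ltr U L.1 (sg U (orb P0 V0 w).2 hV) (sg U (orb P0 V0 (L :: w)).2 hV')
      (sg U (orb P0 V0 (L :: w)).1 hP') (cb U (orb P0 V0 (L :: w)).1 hP') ∧
    ∃ (t : ℝ × ℝ → ℝ) (ht : ∀ᶠ x in (U : Filter (ℝ × ℝ)), Smo (fun y => ((t y : ℝ) : ℂ)) x),
      (∀ᶠ x in (U : Filter (ℝ × ℝ)), 0 < t x) ∧ sg U (orb P0 V0 w).2 hV ≠ 0 ∧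
      sg U (orb P0 V0 (L :: w)).1 hP' =
        sg U (orb P0 V0 w).1 hP + sg U _ ht * sg U (orb P0 V0 w).2 hV ∧
      cb U (orb P0 V0 (L :: w)).1 hP' =
        cb U (orb P0 V0 w).1 hP + sg U _ ht * (sg U (orb P0 V0 w).2 hV)⁻¹ ∧
      (∀ D, CRC U D → D (sg U (orb P0 V0 (L :: w)).1 hP') =
        sg U (orb P0 V0 w).2 hV * sg U (orb P0 V0 (L :: w)).2 hV' *
          D (cb U (orb P0 V0 (L :: w)).1 hP')) ∧
      (∃ c, ∀ D, CRC U D → D (sg U (orb P0 V0 w).2 hV * sg U (orb P0 V0 (L :: w)).2 hV') =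
        c * D (cb U (orb P0 V0 (L :: w)).1 hP')) ∧
      sg U (orb P0 V0 (L :: w)).2 hV' ≠ sg U (orb P0 V0 w).2 hV := by
  have hn : ∀ᶠ x in (U : Filter (ℝ × ℝ)), ∀ᶠ y in 𝓝 x, ‖(orb P0 V0 w).2 y‖ = 1 := by
    filter_upwards [hg] with x hx
    exact good_norm hw hV1 hx.1
  have hs : ∀ᶠ x in (U : Filter (ℝ × ℝ)),
      Step L.1 (sel L.1 L.2 (orb P0 V0 w).1 (orb P0 V0 w).2) (orb P0 V0 w).1 (orb P0 V0 w).2 x :=
    hg.mono fun x hx => hx.2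
  refine ⟨⟨_, _, _, hP, hV, hn, hs, hP', hV', rfl, rfl, rfl, rfl⟩, ?_⟩
  obtain ⟨t, ht, h1, h2, -, h4, h5, h6, h7, h8⟩ := vert hL hP hV hn hs hP' hV'
  exact ⟨t, ht, h1, h2, h4, h5, h6, h7, h8⟩

theorem sum_pos {f : ℕ → SF ℂ U} {n : ℕ} (hn : 0 < n)
    (hf : ∀ k < n, ∃ (t : ℝ × ℝ → ℝ) (ht : ∀ᶠ x in (U : Filter (ℝ × ℝ)), Smo (fun y => ((t y : ℝ) : ℂ)) x),
      (∀ᶠ x in (U : Filter (ℝ × ℝ)), 0 < t x) ∧ f k = sg U _ ht) :
    ∑ k ∈ Finset.range n, f k ≠ 0 := by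
  have key : ∀ m, m ≤ n → ∃ (t : ℝ × ℝ → ℝ)
      (ht : ∀ᶠ x in (U : Filter (ℝ × ℝ)), Smo (fun y => ((t y : ℝ) : ℂ)) x),
      (∀ᶠ x in (U : Filter (ℝ × ℝ)), 0 ≤ t x) ∧ (0 < m → ∀ᶠ x in (U : Filter (ℝ × ℝ)), 0 < t x) ∧
      ∑ k ∈ Finset.range m, f k = sg U _ ht := by
    intro m
    induction m with
    | zero =>
      intro _
      refine ⟨fun _ => 0, Eventually.of_forall fun x => ?_, Eventually.of_forall fun _ => le_rfl,
        fun h => absurd h (lt_irrefl _), ?_⟩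
      · simpa using Smo.const (0 : ℂ) x
      · rw [Finset.sum_range_zero, sg_zero, sg_eq]
        exact Eventually.of_forall fun x => by simp
    | succ m ih =>
      intro hm
      obtain ⟨t, ht, h1, -, h3⟩ := ih (by omega)
      obtain ⟨t', ht', h1', h3'⟩ := hf m (by omega)
      refine ⟨fun y => t y + t' y, ?_, ?_, fun _ => ?_, ?_⟩
      · filter_upwards [ht, ht'] with x h h'
        have := h.add h'
        simpa using this
      · filter_upwards [h1, h1'] with x h h' using by positivity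
      · filter_upwards [h1, h1'] with x h h' using by positivity
      · rw [Finset.sum_range_succ, h3, h3', sg_add U ht ht' (by
          filter_upwards [ht, ht'] with x h h' using h.add h')]
        exact (sg_eq U _ _).2 (Eventually.of_forall fun x => by simp)
  obtain ⟨t, ht, -, h2, h3⟩ := key n le_rfl
  rw [h3, sg_zero]
  intro h0
  rw [sg_eq] at h0
  obtain ⟨x, hx, hx'⟩ := (h0.and (h2 hn)).exists
  have : t x = 0 := by exact_mod_cast hx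
  linarith

theorem sg_congr {P0 V0 : ℝ × ℝ → ℂ} {w w' : List ((ℝ → ℂ) × (ℚ × ℚ))} (h : w = w')
    (hP : ∀ᶠ x in (U : Filter (ℝ × ℝ)), Smo (orb P0 V0 w).1 x)
    (hP' : ∀ᶠ x in (U : Filter (ℝ × ℝ)), Smo (orb P0 V0 w').1 x)
    (hV : ∀ᶠ x in (U : Filter (ℝ × ℝ)), Smo (orb P0 V0 w).2 x)
    (hV' : ∀ᶠ x in (U : Filter (ℝ × ℝ)), Smo (orb P0 V0 w').2 x) :
    sg U (orb P0 V0 w).1 hP = sg U (orb P0 V0 w').1 hP' ∧
    cb U (orb P0 V0 w).1 hP = cb U (orb P0 V0 w').1 hP' ∧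
    sg U (orb P0 V0 w).2 hV = sg U (orb P0 V0 w').2 hV' := by
  subst h
  exact ⟨rfl, rfl, rfl⟩

theorem good_drop {P0 V0 : ℝ × ℝ → ℂ} {x : ℝ × ℝ} (i : ℕ) (W : List ((ℝ → ℂ) × (ℚ × ℚ)))
    (h : Good P0 V0 W x) : Good P0 V0 (W.drop i) x := by
  induction i generalizing W with
  | zero => simpa using h
  | succ i ih =>
    cases W with
    | nil => simpa using h
    | cons L w =>
      rw [List.drop_succ_cons]
      exact ih w h.1

theorem fam_of_word (hU : (U : Filter (ℝ × ℝ)) ≤ ae volume) {γ0 : ℝ → ℂ}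
    (h0 : Arc γ0) (hmem : ∀ᶠ x in (U : Filter (ℝ × ℝ)), x.1 ∈ Set.Ioo (0 : ℝ) 1)
    {W : List ((ℝ → ℂ) × (ℚ × ℚ))} (hW : ∀ L ∈ W, Arc L.1) (hne : W ≠ [])
    (hg : ∀ᶠ x in (U : Filter (ℝ × ℝ)), Good (fun x : ℝ × ℝ => γ0 x.1)
      (fun x : ℝ × ℝ => Complex.exp (x.2 * Complex.I)) W x)
    (hcP : ∀ᶠ x in (U : Filter (ℝ × ℝ)), (orb (fun x : ℝ × ℝ => γ0 x.1)
      (fun x : ℝ × ℝ => Complex.exp (x.2 * Complex.I)) W).1 x = γ0 x.1)
    (hcV : ∀ᶠ x in (U : Filter (ℝ × ℝ)), (orb (fun x : ℝ × ℝ => γ0 x.1)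
      (fun x : ℝ × ℝ => Complex.exp (x.2 * Complex.I)) W).2 x =
        Complex.exp (x.2 * Complex.I)) :
    ∃ ξ η v f : ℕ → SF ℂ U, Fam (CRC U) W.length ξ η v f ∧
      ∀ k, ∃ L, W.reverse[k % W.length]? = some L ∧
        Ltr U L.1 (v k) (v (k + 1)) (ξ (k + 1)) (η (k + 1)) := by
  set P0 : ℝ × ℝ → ℂ := fun x => γ0 x.1 with hP0
  set V0 : ℝ × ℝ → ℂ := fun x => Complex.exp (x.2 * Complex.I) with hV0
  have hV1 : ∀ y, ‖V0 y‖ = 1 := fun y => Complex.norm_exp_ofReal_mul_I y.2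
  have sP0 : ∀ x, Smo P0 x := fun x => (h0.1.comp contDiff_fst).contDiffAt
  have sV0 : ∀ x, Smo V0 x := fun x => by
    have h1 : ContDiff ℝ ((⊤ : ℕ∞) : WithTop ℕ∞) (fun x : ℝ × ℝ => ((x.2 : ℝ) : ℂ)) :=
      Complex.ofRealCLM.contDiff.comp contDiff_snd
    exact (h1.mul contDiff_const).cexp.contDiffAt
  have eP0 : ∀ᶠ x in (U : Filter (ℝ × ℝ)), Smo P0 x := Eventually.of_forall sP0
  have eV0 : ∀ᶠ x in (U : Filter (ℝ × ℝ)), Smo V0 x := Eventually.of_forall sV0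
  set n := W.length with hn
  have n0 : 0 < n := List.length_pos_iff.mpr hne
  have harc : ∀ i, ∀ L ∈ W.drop i, Arc L.1 := fun i L hL => hW L (List.mem_of_mem_drop hL)
  have hgd : ∀ i, ∀ᶠ x in (U : Filter (ℝ × ℝ)), Good P0 V0 (W.drop i) x := fun i =>
    hg.mono fun x hx => good_drop i W hx
  have hPd : ∀ i, ∀ᶠ x in (U : Filter (ℝ × ℝ)), Smo (orb P0 V0 (W.drop i)).1 x := fun i =>
    (hgd i).mono fun x hx => (good_smo (harc i) (sP0 x) (sV0 x) hx).1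
  have hVd : ∀ i, ∀ᶠ x in (U : Filter (ℝ × ℝ)), Smo (orb P0 V0 (W.drop i)).2 x := fun i =>
    (hgd i).mono fun x hx => (good_smo (harc i) (sP0 x) (sV0 x) hx).2
  set a : ℕ → SF ℂ U := fun k => sg U (orb P0 V0 (W.drop (n - k))).1 (hPd _) with ha
  set b : ℕ → SF ℂ U := fun k => cb U (orb P0 V0 (W.drop (n - k))).1 (hPd _) with hb
  set c : ℕ → SF ℂ U := fun k => sg U (orb P0 V0 (W.drop (n - k))).2 (hVd _) with hc
  have e0 : W.drop (n - 0) = [] := by simp [hn]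
  have en : W.drop (n - n) = W := by simp
  obtain ⟨a0, b0, c0⟩ := sg_congr (U := U) (P0 := P0) (V0 := V0) e0 (hPd _) eP0 (hVd _) eV0
  have hPW : ∀ᶠ x in (U : Filter (ℝ × ℝ)), Smo (orb P0 V0 W).1 x := by
    have := hPd 0
    rwa [List.drop_zero] at this
  have hVW : ∀ᶠ x in (U : Filter (ℝ × ℝ)), Smo (orb P0 V0 W).2 x := by
    have := hVd 0
    rwa [List.drop_zero] at this
  obtain ⟨an, bn, cn⟩ := sg_congr (U := U) (P0 := P0) (V0 := V0) en (hPd _) hPW (hVd _) hVW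
  have an0 : a n = a 0 := by
    rw [ha]
    change sg U (orb P0 V0 (W.drop (n - n))).1 _ = sg U (orb P0 V0 (W.drop (n - 0))).1 _
    rw [a0, an]
    exact (sg_eq U _ _).2 hcP
  have bn0 : b n = b 0 := by
    rw [hb]
    change cb U (orb P0 V0 (W.drop (n - n))).1 _ = cb U (orb P0 V0 (W.drop (n - 0))).1 _
    rw [b0, bn]
    exact (sg_eq U _ _).2 (hcP.mono fun x hx => by rw [hx]; rfl)
  have cn0 : c n = c 0 := by
    rw [hc]
    change sg U (orb P0 V0 (W.drop (n - n))).2 _ = sg U (orb P0 V0 (W.drop (n - 0))).2 _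
    rw [c0, cn]
    exact (sg_eq U _ _).2 hcV
  -- the step
  have hstep : ∀ r, r < n → ∃ L, W.reverse[r]? = some L ∧ Ltr U L.1 (c r) (c (r + 1)) (a (r + 1)) (b (r + 1)) ∧
      ∃ g : SF ℂ U, (∃ (t : ℝ × ℝ → ℝ)
        (ht : ∀ᶠ x in (U : Filter (ℝ × ℝ)), Smo (fun y => ((t y : ℝ) : ℂ)) x),
      (∀ᶠ x in (U : Filter (ℝ × ℝ)), 0 < t x) ∧ g = sg U _ ht) ∧ c r ≠ 0 ∧
      a (r + 1) = a r + g * c r ∧ b (r + 1) = b r + g * (c r)⁻¹ ∧
      (∀ D, CRC U D → D (a (r + 1)) = c r * c (r + 1) * D (b (r + 1))) ∧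
      (∃ z, ∀ D, CRC U D → D (c r * c (r + 1)) = z * D (b (r + 1))) ∧ c (r + 1) ≠ c r := by
    intro r hr
    have hi : n - 1 - r < W.length := by omega
    have hd : W.drop (n - (r + 1)) = W[n - 1 - r] :: W.drop (n - r) := by
      have h1 := List.drop_eq_getElem_cons hi
      have h2 : n - 1 - r = n - (r + 1) := by omega
      have h3 : n - 1 - r + 1 = n - r := by omega
      rw [h3] at h1
      rw [← h2]
      exact h1
    have hP1 : ∀ᶠ x in (U : Filter (ℝ × ℝ)), Smo (orb P0 V0 (W[n - 1 - r] :: W.drop (n - r))).1 x := by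
      have := hPd (n - (r + 1))
      rwa [hd] at this
    have hV1' : ∀ᶠ x in (U : Filter (ℝ × ℝ)), Smo (orb P0 V0 (W[n - 1 - r] :: W.drop (n - r))).2 x := by
      have := hVd (n - (r + 1))
      rwa [hd] at this
    have hg1 : ∀ᶠ x in (U : Filter (ℝ × ℝ)), Good P0 V0 (W[n - 1 - r] :: W.drop (n - r)) x := by
      have := hgd (n - (r + 1))
      rwa [hd] at this
    obtain ⟨ea, eb, ec⟩ := sg_congr (U := U) (P0 := P0) (V0 := V0) hd (hPd _) hP1 (hVd _) hV1'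
    obtain ⟨l1, t, ht, h1, h2, h3, h4, h5, h6, h7⟩ := word_step hV1 eP0 eV0 (hW _ (List.getElem_mem hi))
      (harc (n - r)) hg1 (hPd _) (hVd _) hP1 hV1'
    rw [← ea, ← eb, ← ec] at l1
    rw [← ea] at h3
    rw [← eb] at h4
    simp only [← ea, ← eb, ← ec] at h5 h6 h7
    refine ⟨W[n - 1 - r], ?_, l1, sg U _ ht, ⟨t, ht, h1, rfl⟩, h2, h3, h4, h5, h6, h7⟩
    rw [List.getElem?_reverse (by omega), ← hn]
    exact List.getElem?_eq_getElem hi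
  choose! Lr hL hLtr g hgt hc0 hxi heta htan hcur hnt using hstep
  have hmod : ∀ k, k % n < n := fun k => Nat.mod_lt _ n0
  have hsucc : ∀ (z : ℕ → SF ℂ U), z n = z 0 → ∀ k, z ((k + 1) % n) = z (k % n + 1) := by
    intro z hz k
    have h1 := hmod k
    rcases Nat.lt_or_ge (k % n + 1) n with h | h
    · rw [Nat.add_mod, Nat.mod_eq_of_lt (a := 1) (by omega), Nat.mod_eq_of_lt h]
    · have h2 : k % n + 1 = n := by omega
      rw [h2, hz]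
      congr 1
      rw [Nat.add_mod]
      rcases Nat.lt_or_ge 1 n with h3 | h3
      · rw [Nat.mod_eq_of_lt h3, h2, Nat.mod_self]
      · have : n = 1 := by omega
        rw [this, Nat.mod_one]
  have sa := hsucc a an0
  have sb := hsucc b bn0
  have sc := hsucc c cn0
  refine ⟨fun k => a (k % n), fun k => b (k % n), fun k => c (k % n), fun k => g (k % n), ?_, ?_⟩
  · refine ⟨n0, ?_, ?_, ?_, ?_, ?_, ?_, ?_, ?_, ?_, ?_, ?_, ?_, ?_, ?_⟩
    · intro k; simp only [Nat.add_mod_right]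
    · intro k; simp only [Nat.add_mod_right]
    · intro k; simp only [Nat.add_mod_right]
    · intro k; simp only [Nat.add_mod_right]
    · intro k; exact hc0 _ (hmod k)
    · intro k; simp only [sa]; exact hxi _ (hmod k)
    · intro k; simp only [sb]; exact heta _ (hmod k)
    · intro k; simp only [sa, sb, sc]; exact htan _ (hmod k)
    · intro k; simp only [sb, sc]; exact hcur _ (hmod k)
    · intro k; simp only [sc]; exact hnt _ (hmod k)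
    · intro x y D D' h h'; exact h.comb h' x y
    · intro D h z; exact h.con z
    · obtain ⟨D, D', h1, h2, h3⟩ := ind_baseC hU h0 hmem (fun e => exists_dd U hU e) eP0 eV0
      refine ⟨D, D', h1, h2, ?_⟩
      simp only [Nat.zero_mod]
      change wr D D' (sg U (orb P0 V0 (W.drop (n - 0))).1 _) (cb U (orb P0 V0 (W.drop (n - 0))).1 _)
        (sg U (orb P0 V0 (W.drop (n - 0))).2 _) ≠ 0
      rw [a0, b0, c0]
      exact h3
    · refine sum_pos n0 fun k hk => ?_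
      simp only [Nat.mod_eq_of_lt hk]
      exact hgt k hk
  · intro k
    refine ⟨Lr (k % n), hL _ (hmod k), ?_⟩
    simp only [sa, sb, sc]
    exact hLtr _ (hmod k)

end Pool.Agent.H6.Tw
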